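import Pool.Agent.Lib.MP_bfb583_al.EC.Stmts

set_option autoImplicit false

/-!
ALG: points whose coordinates are algebraic over `K(S)` form a subgroup.
-/

namespace Pool.MP_bfb583_al.EC.Alg

open WeierstrassCurve Filter
open scoped Classical

noncomputable section

variable {A Ω : Type} [Field Ω] [CommRing A] [IsDomain A] [Algebra A Ω]

private theorem natCast_alg (n : ℕ) [n.AtLeastTwo] : IsAlgebraic A (OfNat.ofNat n : Ω) := by
  have h : (OfNat.ofNat n : Ω) = algebraMap A Ω (OfNat.ofNat n) := (map_ofNat _ n).symm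
  rw [h]
  exact isAlgebraic_algebraMap _

private theorem zero_alg : IsAlgebraic A (0 : Ω) := by
  have h : (0 : Ω) = algebraMap A Ω 0 := (map_zero _).symm
  rw [h]
  exact isAlgebraic_algebraMap _

private theorem div_alg {x y : Ω} (hx : IsAlgebraic A x) (hy : IsAlgebraic A y) :
    IsAlgebraic A (x / y) := by
  rw [div_eq_mul_inv]; exact hx.mul hy.inv

variable {W : WeierstrassCurve Ω}

private theorem negY_alg (h1 : IsAlgebraic A W.a₁) (h3 : IsAlgebraic A W.a₃) {x y : Ω}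
    (hx : IsAlgebraic A x) (hy : IsAlgebraic A y) : IsAlgebraic A (W.toAffine.negY x y) := by
  unfold Affine.negY
  exact (hy.neg.sub (h1.mul hx)).sub h3

private theorem slope_alg (h1 : IsAlgebraic A W.a₁) (h2 : IsAlgebraic A W.a₂)
    (h3 : IsAlgebraic A W.a₃) (h4 : IsAlgebraic A W.a₄) {x₁ x₂ y₁ y₂ : Ω}
    (hx₁ : IsAlgebraic A x₁) (hx₂ : IsAlgebraic A x₂) (hy₁ : IsAlgebraic A y₁)
    (hy₂ : IsAlgebraic A y₂) : IsAlgebraic A (W.toAffine.slope x₁ x₂ y₁ y₂) := by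
  unfold Affine.slope
  split_ifs
  · exact zero_alg
  · refine div_alg ?_ (hy₁.sub (negY_alg h1 h3 hx₁ hy₁))
    exact ((((natCast_alg 3).mul (hx₁.pow 2)).add (((natCast_alg 2).mul h2).mul hx₁)).add h4).sub
      (h1.mul hy₁)
  · exact div_alg (hy₁.sub hy₂) (hx₁.sub hx₂)

private theorem addX_alg (h1 : IsAlgebraic A W.a₁) (h2 : IsAlgebraic A W.a₂) {x₁ x₂ l : Ω}
    (hx₁ : IsAlgebraic A x₁) (hx₂ : IsAlgebraic A x₂) (hl : IsAlgebraic A l) :
    IsAlgebraic A (W.toAffine.addX x₁ x₂ l) := by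
  unfold Affine.addX
  exact ((((hl.pow 2).add (h1.mul hl)).sub h2).sub hx₁).sub hx₂

private theorem addY_alg (h1 : IsAlgebraic A W.a₁) (h2 : IsAlgebraic A W.a₂)
    (h3 : IsAlgebraic A W.a₃) {x₁ x₂ y₁ l : Ω}
    (hx₁ : IsAlgebraic A x₁) (hx₂ : IsAlgebraic A x₂) (hy₁ : IsAlgebraic A y₁)
    (hl : IsAlgebraic A l) : IsAlgebraic A (W.toAffine.addY x₁ x₂ y₁ l) := by
  unfold Affine.addY Affine.negAddY
  exact negY_alg h1 h3 (addX_alg h1 h2 hx₁ hx₂ hl)
    ((hl.mul ((addX_alg h1 h2 hx₁ hx₂ hl).sub hx₁)).add hy₁)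

end

end Pool.MP_bfb583_al.EC.Alg

namespace Pool.MP_bfb583_al.EC

open WeierstrassCurve Filter Alg
open scoped Classical

theorem stAlg : StAlg := by
  intro K Ω _ _ _ W S P Q hP hQ
  have hc : ∀ a : K, IsAlgebraic (Algebra.adjoin K S) (algebraMap K Ω a) := fun a => by
    have h : algebraMap K Ω a =
        algebraMap (Algebra.adjoin K S) Ω (algebraMap K (Algebra.adjoin K S) a) := rfl
    rw [h]
    exact isAlgebraic_algebraMap _
  have h1 : IsAlgebraic (Algebra.adjoin K S) (W.baseChange Ω).a₁ := hc W.a₁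
  have h2 : IsAlgebraic (Algebra.adjoin K S) (W.baseChange Ω).a₂ := hc W.a₂
  have h3 : IsAlgebraic (Algebra.adjoin K S) (W.baseChange Ω).a₃ := hc W.a₃
  have h4 : IsAlgebraic (Algebra.adjoin K S) (W.baseChange Ω).a₄ := hc W.a₄
  constructor
  · intro x y h e
    rcases P with _ | ⟨x₁, y₁, k₁⟩
    · rw [← Affine.Point.zero_def, zero_add] at e
      exact hQ x y h e
    rcases Q with _ | ⟨x₂, y₂, k₂⟩
    · rw [← Affine.Point.zero_def, add_zero] at e
      exact hP x y h e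
    obtain ⟨a1, b1⟩ := hP x₁ y₁ k₁ rfl
    obtain ⟨a2, b2⟩ := hQ x₂ y₂ k₂ rfl
    by_cases hxy : x₁ = x₂ ∧ y₁ = (W.baseChange Ω).toAffine.negY x₂ y₂
    · rw [Affine.Point.add_of_Y_eq hxy.1 hxy.2] at e
      exact absurd e.symm (Affine.Point.some_ne_zero h)
    · rw [Affine.Point.add_some hxy] at e
      have e1 := (Affine.Point.some.inj e).1
      have e2 := (Affine.Point.some.inj e).2
      have hs := slope_alg h1 h2 h3 h4 a1 a2 b1 b2
      rw [← e1, ← e2]
      exact ⟨addX_alg h1 h2 a1 a2 hs, addY_alg h1 h2 h3 a1 a2 b1 hs⟩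
  · intro x y h e
    rcases P with _ | ⟨x₁, y₁, k₁⟩
    · rw [← Affine.Point.zero_def, neg_zero] at e
      exact absurd e.symm (Affine.Point.some_ne_zero h)
    · obtain ⟨a1, b1⟩ := hP x₁ y₁ k₁ rfl
      rw [Affine.Point.neg_some] at e
      have e1 := (Affine.Point.some.inj e).1
      have e2 := (Affine.Point.some.inj e).2
      rw [← e1, ← e2]
      exact ⟨a1, negY_alg h1 h3 a1 b1⟩

end Pool.MP_bfb583_al.EC
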