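import Pool.Agent.Lib.MP_bfb583_al.EC.Defs

set_option autoImplicit false

/-!
Statements of the modules.  Paper proofs: `/team-store/MP_bfb583_EC.md`.
-/

namespace Pool.MP_bfb583_al.EC

open Polynomial WeierstrassCurve Filter
open scoped Classical

noncomputable section

/-! ### Algebra of the family -/

/-- DISC: the Vandermonde square of the six roots. -/
def StDisc : Prop :=
  ∀ (F : Type) [Field F] [CharZero F] [IsAlgClosed F] (ν s u₁ u₂ u₃ : F) (w : Fin 6 → F),
    u₁ ≠ 0 → u₂ ≠ 0 → u₃ ≠ 0 → nu u₁ = ν → nu u₂ = ν → nu u₃ = ν → Trip ν u₁ u₂ u₃ →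
    Rts ν s w →
    (∏ i, ∏ j ∈ Finset.Ioi i, (w j - w i)) ^ 2
      = -27 * 1024 * ((s - s0 u₁) * (s - s0 u₂) * (s - s0 u₃)) ^ 2

/-- BPT: the pair points are honest points, symmetric and pairwise different. -/
def StBpt : Prop :=
  ∀ (F : Type) [Field F] [CharZero F] (W : WeierstrassCurve F) [W.IsShortNF] (u μ t s : F)
    (w : Fin 6 → F), GoodU u → μ ≠ 0 → W.a₄ = cA u μ → W.a₆ = cB u μ → t ≠ 0 →
    t ^ 2 = s - s0 u → Rts (nu u) s w →
    W.IsElliptic ∧
    (∀ i j, i ≠ j → ∃ h, bpt W u μ t (w i) (w j) =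
      .some (xE u μ (yp (nu u) (w i) (w j)))
        (yE u μ (yp (nu u) (w i) (w j)) (TT u t (yp (nu u) (w i) (w j)))) h) ∧
    (∀ i j, bpt W u μ t (w i) (w j) = bpt W u μ t (w j) (w i)) ∧
    (∀ i j k l, i ≠ j → k ≠ l → bpt W u μ t (w i) (w j) = bpt W u μ t (w k) (w l) →
      (i = k ∧ j = l) ∨ (i = l ∧ j = k)) ∧
    (∀ i j, i ≠ j → s * BB (nu u) (yp (nu u) (w i) (w j)) = AA (nu u) (yp (nu u) (w i) (w j)) ∧
      BB (nu u) (yp (nu u) (w i) (w j)) ≠ 0)

/-! ### Galois theory of the generic sextic -/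

/-- CONJ: two roots of an irreducible polynomial over `k(y)` are conjugate over `k(y)`. -/
def StConj : Prop :=
  ∀ (k Ω : Type) [Field k] [CharZero k] [Field Ω] [Algebra k Ω] [IsAlgClosed Ω] (y : Ω),
    Transcendental k y → Algebra.IsAlgebraic (IntermediateField.adjoin k {y}) Ω →
    ∀ (R : Polynomial (Polynomial k)), Irreducible R → 0 < R.natDegree → ∀ c c' : Ω,
      (R.map (Polynomial.aeval y : Polynomial k →ₐ[k] Ω).toRingHom).eval c = 0 →
      (R.map (Polynomial.aeval y : Polynomial k →ₐ[k] Ω).toRingHom).eval c' = 0 →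
      ∃ σ : Ω ≃ₐ[k] Ω, σ y = y ∧ σ c = c'

/-- T1: the fifteen values `y` over a generic `s` are conjugate. -/
def StT1 : Prop :=
  ∀ (k Ω : Type) [Field k] [CharZero k] [IsAlgClosed k] [Field Ω] [Algebra k Ω] [IsAlgClosed Ω]
    (ν : k) (s y y' : Ω), ν ≠ 0 → 2 * ν ^ 2 - 6 * ν + 3 ≠ 0 → Transcendental k s →
    Algebra.IsAlgebraic (IntermediateField.adjoin k {s}) Ω →
    s * BB (algebraMap k Ω ν) y = AA (algebraMap k Ω ν) y →
    s * BB (algebraMap k Ω ν) y' = AA (algebraMap k Ω ν) y' →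
    ∃ σ : Ω ≃ₐ[k] Ω, σ s = s ∧ σ y = y'

/-- T2: over `k(y)`, the four remaining roots are conjugate. -/
def StT2 : Prop :=
  ∀ (k Ω : Type) [Field k] [CharZero k] [IsAlgClosed k] [Field Ω] [Algebra k Ω] [IsAlgClosed Ω]
    (ν : k) (s y a b c c' : Ω), ν ≠ 0 → 2 * ν ^ 2 - 6 * ν + 3 ≠ 0 → Transcendental k y →
    Algebra.IsAlgebraic (IntermediateField.adjoin k {y}) Ω →
    (a + b) * DD y = 2 * (y - 1) * NN (algebraMap k Ω ν) y →
    a * b * (y + algebraMap k Ω ν - 1) = (y - 1) * DD y →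
    s * BB (algebraMap k Ω ν) y = AA (algebraMap k Ω ν) y →
    (fp (algebraMap k Ω ν) s).IsRoot c → (fp (algebraMap k Ω ν) s).IsRoot c' →
    c ≠ a → c ≠ b → c' ≠ a → c' ≠ b →
    ∃ σ : Ω ≃ₐ[k] Ω, σ y = y ∧ σ c = c'

/-- G1: an even permutation group of six points, transitive on flags `({a,b}, c)`, is `A₆`. -/
def StG1 : Prop :=
  ∀ H : Subgroup (Equiv.Perm (Fin 6)), H ≤ alternatingGroup (Fin 6) →
    (∀ a b c a' b' c' : Fin 6, a ≠ b → c ≠ a → c ≠ b → a' ≠ b' → c' ≠ a' → c' ≠ b' →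
      ∃ h ∈ H, ((h a = a' ∧ h b = b') ∨ (h a = b' ∧ h b = a')) ∧ h c = c') →
    H = alternatingGroup (Fin 6)

/-- G2: a proper even permutation group of five points fixes a point, or a pair, or normalises
a `5`-cycle. -/
def StG2 : Prop :=
  ∀ H : Subgroup (Equiv.Perm (Fin 5)), H ≤ alternatingGroup (Fin 5) →
    H ≠ alternatingGroup (Fin 5) →
    (∃ i : Fin 5, ∀ h ∈ H, h i = i) ∨
    (∃ i j : Fin 5, i ≠ j ∧ ∀ h ∈ H, (h i = i ∧ h j = j) ∨ (h i = j ∧ h j = i)) ∨
    (∃ c : Equiv.Perm (Fin 5), c.IsCycle ∧ c.support = Finset.univ ∧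
      ∀ h ∈ H, h * c * h⁻¹ = c ∨ h * c * h⁻¹ = c⁻¹)

/-- C1: over `k(t)` the sextic has group `A₆`. -/
def StC1 : Prop :=
  ∀ (k Ω : Type) [Field k] [CharZero k] [IsAlgClosed k] [Field Ω] [Algebra k Ω] [IsAlgClosed Ω]
    (u : k) (s t : Ω) (v : Fin 6 → Ω), GoodU u → Transcendental k s →
    Algebra.IsAlgebraic (IntermediateField.adjoin k {s}) Ω →
    t ^ 2 = s - s0 (algebraMap k Ω u) → Rts (nu (algebraMap k Ω u)) s v →
    ∀ π : Equiv.Perm (Fin 6), π ∈ alternatingGroup (Fin 6) →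
      ∃ σ : Ω ≃ₐ[k] Ω, σ t = t ∧ ∀ i, σ (v i) = v (π i)

/-! ### Elliptic curves over function fields -/

/-- RAT: no nonconstant point over `k(m)`. -/
def StRat : Prop :=
  ∀ (k Ω : Type) [Field k] [CharZero k] [IsAlgClosed k] [Field Ω] [Algebra k Ω] (A B : k)
    (m x y : Ω), 4 * A ^ 3 + 27 * B ^ 2 ≠ 0 → Transcendental k m →
    x ∈ IntermediateField.adjoin k {m} → y ∈ IntermediateField.adjoin k {m} →
    y ^ 2 = x ^ 3 + algebraMap k Ω A * x + algebraMap k Ω B →
    x ∈ Set.range (algebraMap k Ω) ∧ y ∈ Set.range (algebraMap k Ω)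

/-- HALF: halves of constant points are constant. -/
def StHalf : Prop :=
  ∀ (K k Ω : Type) [Field K] [Field k] [CharZero k] [IsAlgClosed k] [Field Ω] [Algebra K k]
    [Algebra K Ω] [Algebra k Ω] [IsScalarTower K k Ω]
    (W : WeierstrassCurve K) [W.IsShortNF] [W.IsElliptic] (P : Pt W Ω) (R : Pt W k),
    P + P = Affine.Point.baseChange k Ω R → ∃ R' : Pt W k, Affine.Point.baseChange k Ω R' = P

/-- STAR: the sum of the five points through one root is constant. -/
def StStar : Prop :=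
  ∀ (K k Ω : Type) [Field K] [Field k] [CharZero k] [IsAlgClosed k] [Field Ω] [Algebra K k]
    [Algebra K Ω] [Algebra k Ω] [IsScalarTower K k Ω] [IsAlgClosed Ω]
    (W : WeierstrassCurve K) [W.IsShortNF] (u μ : k) (m : Ω) (v : Fin 6 → Ω), GoodU u → μ ≠ 0 →
    algebraMap K k W.a₄ = cA u μ → algebraMap K k W.a₆ = cB u μ → Transcendental k m →
    Algebra.IsAlgebraic (IntermediateField.adjoin k {m}) Ω →
    Rts (nu (algebraMap k Ω u)) (sM (algebraMap k Ω u) m) v → v 5 = wM (algebraMap k Ω u) m →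
    ∃ R : Pt W k, ∀ i, Affine.Point.baseChange k Ω R =
      ∑ j ∈ Finset.univ.erase i, bpt (W.baseChange Ω) (algebraMap k Ω u) (algebraMap k Ω μ)
        (tM (algebraMap k Ω u) m) (v i) (v j)

/-- COMB: the final combinatorial contradiction. -/
def StComb : Prop :=
  ∀ (V : Type) [AddCommGroup V] (V₀ : AddSubgroup V) (b : Fin 6 → Fin 6 → V) (r : V),
    (∀ i j, b i j = b j i) →
    (∀ π ∈ alternatingGroup (Fin 6), ∃ φ : V →+ V, (∀ x ∈ V₀, φ x = x) ∧
      ∀ i j, i ≠ j → φ (b i j) = b (π i) (π j)) →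
    (∀ x, x + x ∈ V₀ → x ∈ V₀) →
    r ∈ V₀ → (∀ i, ∑ j ∈ Finset.univ.erase i, b i j = r) →
    b 0 1 + b 1 2 + b 2 3 + b 3 4 + b 4 0 ∈ V₀ →
    b 0 1 = b 0 2

/-- GEO: the sum over a pentagon is not constant; the point of a pair is not constant. -/
def StGeo : Prop :=
  ∀ (K k Ω : Type) [Field K] [Field k] [CharZero k] [IsAlgClosed k] [Field Ω] [Algebra K k]
    [Algebra K Ω] [Algebra k Ω] [IsScalarTower K k Ω]
    (W : WeierstrassCurve K) [W.IsShortNF] (u μ : k) (m : Ω) (v : Fin 6 → Ω), GoodU u → μ ≠ 0 →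
    algebraMap K k W.a₄ = cA u μ → algebraMap K k W.a₆ = cB u μ → Transcendental k m →
    Rts (nu (algebraMap k Ω u)) (sM (algebraMap k Ω u) m) v →
    (∀ R : Pt W k, Affine.Point.baseChange k Ω R ≠
      bpt (W.baseChange Ω) (algebraMap k Ω u) (algebraMap k Ω μ)
        (tM (algebraMap k Ω u) m) (v 0) (v 1)) ∧
    (v 5 = wM (algebraMap k Ω u) m →
    ∀ R : Pt W k, Affine.Point.baseChange k Ω R ≠
      ∑ i : Fin 5, bpt (W.baseChange Ω) (algebraMap k Ω u) (algebraMap k Ω μ)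
        (tM (algebraMap k Ω u) m) (v (Fin.castSucc i)) (v (Fin.castSucc (i + 1))))

/-! ### Arithmetic trap -/

/-- TRAP: over a field without `A₅`-extensions, one of two kinds of rational points exists. -/
def StTrap : Prop :=
  ∀ (K L Λ : Type) [Field K] [Field L] [CharZero L] [Field Λ] [Algebra K L] [Algebra K Λ]
    [Algebra L Λ] [IsScalarTower K L Λ] [IsAlgClosure L Λ]
    (W : WeierstrassCurve K) [W.IsShortNF] (u u₂ u₃ μ r t s w : L), NoA5 L →
    GoodU u → μ ≠ 0 → algebraMap K L W.a₄ = cA u μ → algebraMap K L W.a₆ = cB u μ →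
    u₂ ≠ 0 → u₃ ≠ 0 → nu u₂ = nu u → nu u₃ = nu u → Trip (nu u) u u₂ u₃ → r ^ 2 = -3 →
    t ≠ 0 → t ^ 2 = s - s0 u → (fp (nu u) s).Separable → (fp (nu u) s).IsRoot w →
    ∃ (v : Fin 6 → Λ) (Q : Pt W L),
      Rts (nu (algebraMap L Λ u)) (algebraMap L Λ s) v ∧
      (Affine.Point.baseChange L Λ Q =
          bpt (W.baseChange Λ) (algebraMap L Λ u) (algebraMap L Λ μ) (algebraMap L Λ t)
            (v 0) (v 1) ∨
        (v 5 = algebraMap L Λ w ∧ Affine.Point.baseChange L Λ Q =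
          ∑ i : Fin 5, bpt (W.baseChange Λ) (algebraMap L Λ u) (algebraMap L Λ μ)
            (algebraMap L Λ t) (v (Fin.castSucc i)) (v (Fin.castSucc (i + 1)))))

/-! ### Ultrapowers -/

/-- `K`-algebra structure on an ultrapower. -/
@[reducible] def germAlg {K F ι : Type} [Field K] [Field F] [Algebra K F] (U : Ultrafilter ι) :
    Algebra K (Germ (U : Filter ι) F) where
  toSMul := Germ.instSMul
  algebraMap :=
    { toFun := fun a => ((algebraMap K F a : F) : Germ (U : Filter ι) F)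
      map_one' := by rw [map_one]; rfl
      map_mul' := fun a b => by rw [map_mul]; rfl
      map_zero' := by rw [map_zero]; rfl
      map_add' := fun a b => by rw [map_add]; rfl }
  commutes' := fun a x => mul_comm _ _
  smul_def' := fun a x => by
    induction x using Germ.inductionOn with
    | _ f =>
      refine Germ.coe_eq.mpr (Eventually.of_forall fun i => ?_)
      exact Algebra.smul_def a (f i)

attribute [instance] germAlg

/-- The point of the ultrapower attached to a family of points. -/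
def germPt {K F ι : Type} [Field K] [Field F] [Algebra K F] (W : WeierstrassCurve K)
    (U : Ultrafilter ι) (p : ι → Pt W F) : Pt W (Germ (U : Filter ι) F) :=
  if ∀ᶠ i in U, p i = 0 then 0
  else mkPt (W.baseChange (Germ (U : Filter ι) F))
    ((fun i => pX (p i) : ι → F) : Germ (U : Filter ι) F)
    ((fun i => pY (p i) : ι → F) : Germ (U : Filter ι) F)

/-- GERM: the group law of the ultrapower is computed pointwise. -/
def StGerm : Prop :=
  ∀ (K F ι : Type) [Field K] [Field F] [Algebra K F] (W : WeierstrassCurve K) (U : Ultrafilter ι),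
    (∀ p q : ι → Pt W F, germPt W U (fun i => p i + q i) = germPt W U p + germPt W U q) ∧
    (∀ p q : ι → Pt W F, germPt W U p = germPt W U q ↔ ∀ᶠ i in U, p i = q i) ∧
    (∀ x y : ι → F, germPt W U (fun i => mkPt (W.baseChange F) (x i) (y i)) =
        mkPt (W.baseChange (Germ (U : Filter ι) F)) (x : Germ (U : Filter ι) F)
          (y : Germ (U : Filter ι) F))

/-- Coordinates algebraic over `K(c)`. -/
def AlgOver {K Ω : Type} [Field K] [Field Ω] [Algebra K Ω] (W : WeierstrassCurve K) (S : Set Ω)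
    (P : Pt W Ω) : Prop :=
  ∀ x y h, P = .some x y h →
    IsAlgebraic (Algebra.adjoin K S) x ∧ IsAlgebraic (Algebra.adjoin K S) y

/-- ALG: points with algebraic coordinates form a subgroup. -/
def StAlg : Prop :=
  ∀ (K Ω : Type) [Field K] [Field Ω] [Algebra K Ω] (W : WeierstrassCurve K) (S : Set Ω)
    (P Q : Pt W Ω), AlgOver W S P → AlgOver W S Q → AlgOver W S (P + Q) ∧ AlgOver W S (-P)

/-- INDEP: an ultrafilter making the conjugates of the generic element independent. -/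
def StIndep : Prop :=
  ∀ (K L Λ : Type) [Field K] [CharZero K] [Field L] [Field Λ] [Algebra K L] [Algebra K Λ]
    [Algebra L Λ] [IsScalarTower K L Λ] [FiniteDimensional K L] [IsGalois K L],
    ∃ U : Ultrafilter L, AlgebraicIndependent K (fun σ : L ≃ₐ[K] L =>
      ((fun m => algebraMap L Λ (σ m) : L → Λ) : Germ (U : Filter L) Λ))

/-- ULTRA: the trace argument. -/
def StUltra : Prop :=
  ∀ (K L Λ : Type) [Field K] [CharZero K] [Field L] [Field Λ] [Algebra K L] [Algebra K Λ]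
    [Algebra L Λ] [IsScalarTower K L Λ] [FiniteDimensional K L] [IsGalois K L]
    [IsAlgClosure K Λ] (W : WeierstrassCurve K), Finite (Pt W K) → ∀ Q : L → Pt W L,
    ∃ U : Ultrafilter L,
      Transcendental K ((fun m => algebraMap L Λ m : L → Λ) : Germ (U : Filter L) Λ) ∧
      (AlgOver W {((fun m => algebraMap L Λ m : L → Λ) : Germ (U : Filter L) Λ)}
          (germPt W U (fun m => Affine.Point.map (W' := W) (IsScalarTower.toAlgHom K L Λ) (Q m))) →
        ∃ R : Pt W Λ, ∀ᶠ m in U,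
          Affine.Point.map (W' := W) (IsScalarTower.toAlgHom K L Λ) (Q m) = R)

/-! ### Remaining pieces -/

/-- GOOD: every short Weierstrass equation is a member of the family. -/
def StGood : Prop :=
  ∀ (F : Type) [Field F] [CharZero F] [IsAlgClosed F] (A B : F), 4 * A ^ 3 + 27 * B ^ 2 ≠ 0 →
    ∃ u μ : F, GoodU u ∧ μ ≠ 0 ∧ A = cA u μ ∧ B = cB u μ

/-- PS: prosolvable fields have no `A₅`. -/
def StPS : Prop :=
  ∀ (K : Type) [Field K] [CharZero K],
    (∀ (L : Type) [Field L] [Algebra K L] [FiniteDimensional K L] [IsGalois K L],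
      IsSolvable (L ≃ₐ[K] L)) → A5Free K

/-- SHORT: the main theorem for short Weierstrass equations. -/
def StShort : Prop :=
  ∀ (K : Type) [Field K] [CharZero K] (W : WeierstrassCurve K) [W.IsShortNF] [W.IsElliptic],
    A5Free K → Infinite (Pt W K)

/-- MAIN. -/
def StMain : Prop :=
  ∀ (K : Type) [Field K] [CharZero K] (W : WeierstrassCurve K) [W.IsElliptic],
    A5Free K → Infinite W.toAffine.Point

end

end Pool.MP_bfb583_al.EC
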