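import Pool.Agent.Lib.MP_bfb583_al.EC.Ident
import Pool.Agent.Lib.MP_bfb583_al.EC.Stmts

set_option autoImplicit false

namespace Pool.MP_bfb583_al.EC

open Polynomial WeierstrassCurve
open scoped Classical

section

set_option linter.unusedSectionVars false

variable {F : Type*} [Field F] [CharZero F]

theorem nu_ne_zero {u : F} (h : GoodU u) : nu u ≠ 0 :=
  div_ne_zero (mul_ne_zero (pow_ne_zero 2 (sub_ne_zero.mpr h.u1)) h.u2)
    (mul_ne_zero three_ne_zero h.u0)

theorem nu_quad_ne_zero {u : F} (h : GoodU u) : 2 * nu u ^ 2 - 6 * nu u + 3 ≠ 0 := by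
  have h0 := h.u0
  have key : (9 * u ^ 2) * (2 * nu u ^ 2 - 6 * nu u + 3)
      = (u ^ 2 - 2 * u - 2) * (2 * u ^ 2 + 2 * u - 1) * (4 * u ^ 2 - 8 * u + 1) := by
    unfold nu
    field_simp
    ring
  intro h2
  rw [h2, mul_zero] at key
  exact mul_ne_zero (mul_ne_zero h.q1 h.q2) h.q3 key.symm

theorem sep_of_rts {ν s : F} {w : Fin 6 → F} (h : Rts ν s w) : (fp ν s).Separable := by
  rw [h.2]
  exact separable_prod_X_sub_C_iff.mpr h.1

theorem isRoot_of_rts {ν s : F} {w : Fin 6 → F} (h : Rts ν s w) (i : Fin 6) :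
    (fp ν s).IsRoot (w i) := by
  rw [IsRoot, h.2, eval_prod]
  exact Finset.prod_eq_zero (Finset.mem_univ i) (by simp)

theorem BB_ne_zero {ν y : F} (h1 : y - 1 ≠ 0) (h2 : DD y ≠ 0) (h3 : y + ν - 1 ≠ 0) :
    BB ν y ≠ 0 :=
  mul_ne_zero (mul_ne_zero h1 (pow_ne_zero 4 h2)) (pow_ne_zero 2 h3)

theorem GG_ne_zero {u y s : F} (hu : u ≠ 0) (hB : BB (nu u) y ≠ 0)
    (hs : s * BB (nu u) y = AA (nu u) y) (hss : s ≠ s0 u) : GG u y ≠ 0 := by
  intro hG
  have key := key_GG u y hu
  rw [hG, ← hs] at key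
  have : (27 * u ^ 6) * ((s - s0 u) * BB (nu u) y) = 0 := by linear_combination key
  rcases mul_eq_zero.mp this with h | h
  · exact (mul_ne_zero (by norm_num) (pow_ne_zero 6 hu)) h
  · exact (mul_ne_zero (sub_ne_zero.mpr hss) hB) h

theorem disc_id (u μ : F) : 4 * cA u μ ^ 3 + 27 * cB u μ ^ 2
    = - (59049 * μ ^ 12 * u ^ 8 * (u ^ 2 - 2 * u - 2) ^ 4 * (2 * u ^ 2 + 2 * u - 1) ^ 2
      * (2 * u + 1) ^ 2 * (4 * u ^ 2 - 8 * u + 1)) := by
  unfold cA cB an
  ring

theorem disc_ne_zero {u μ : F} (h : GoodU u) (hμ : μ ≠ 0) :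
    4 * cA u μ ^ 3 + 27 * cB u μ ^ 2 ≠ 0 := by
  rw [disc_id]
  refine neg_ne_zero.mpr (mul_ne_zero (mul_ne_zero (mul_ne_zero (mul_ne_zero (mul_ne_zero
    (mul_ne_zero (by norm_num) (pow_ne_zero _ hμ)) (pow_ne_zero _ h.u0)) (pow_ne_zero _ h.q1))
    (pow_ne_zero _ h.q2)) (pow_ne_zero _ h.u2)) h.q3)

theorem yp_symm (ν a b : F) : yp ν a b = yp ν b a := by
  unfold yp
  rw [mul_comm a b, add_comm a b]

end

theorem isElliptic_of_good {F : Type} [Field F] [CharZero F] (W : WeierstrassCurve F)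
    [W.IsShortNF] {u μ : F} (h : GoodU u) (hμ : μ ≠ 0) (h4 : W.a₄ = cA u μ)
    (h6 : W.a₆ = cB u μ) : W.IsElliptic := by
  rw [isElliptic_iff, isUnit_iff_ne_zero, Δ_of_isShortNF, h4, h6]
  have := disc_ne_zero h hμ
  intro h0
  apply this
  linear_combination (-1/16) * h0

theorem equation_short {F : Type} [Field F] (W : WeierstrassCurve F)
    [W.IsShortNF] (x y : F) : W.toAffine.Equation x y ↔ y ^ 2 = x ^ 3 + W.a₄ * x + W.a₆ := by
  rw [Affine.equation_iff]
  simp [a₂_of_isShortNF]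


/-- the short normal form is stable under base change. -/
instance baseChange_short {K F : Type} [Field K] [Field F] [Algebra K F]
    (W : WeierstrassCurve K) [W.IsShortNF] : (W.baseChange F).IsShortNF where
  a₁ := by simp [WeierstrassCurve.baseChange, WeierstrassCurve.map]
  a₂ := by simp [WeierstrassCurve.baseChange, WeierstrassCurve.map, a₂_of_isShortNF]
  a₃ := by simp [WeierstrassCurve.baseChange, WeierstrassCurve.map]

theorem baseChange_a4 {K F : Type} [Field K] [Field F] [Algebra K F]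
    (W : WeierstrassCurve K) : (W.baseChange F).a₄ = algebraMap K F W.a₄ := rfl

theorem baseChange_a6 {K F : Type} [Field K] [Field F] [Algebra K F]
    (W : WeierstrassCurve K) : (W.baseChange F).a₆ = algebraMap K F W.a₆ := rfl

theorem pair_eq_of_sum_prod {F : Type*} [Field F] {a b c d : F} (h1 : a + b = c + d)
    (h2 : a * b = c * d) : (a = c ∧ b = d) ∨ (a = d ∧ b = c) := by
  have : (a - c) * (a - d) = 0 := by linear_combination a * h1 - h2
  rcases mul_eq_zero.mp this with h | h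
  · left
    have h3 : a = c := sub_eq_zero.mp h
    exact ⟨h3, by rw [h3] at h1; exact add_left_cancel h1⟩
  · right
    have h3 : a = d := sub_eq_zero.mp h
    refine ⟨h3, ?_⟩
    rw [h3, add_comm c d] at h1
    exact add_left_cancel h1

theorem stBpt : StBpt := by
  intro F _ _ W _ u μ t s w hu hμ h4 h6 ht hts hw
  have hell := isElliptic_of_good W hu hμ h4 h6
  have hsep := sep_of_rts hw
  have hν := nu_ne_zero hu
  have hν2 := nu_quad_ne_zero hu
  have hss : s ≠ s0 u := by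
    intro h
    rw [h, sub_self] at hts
    exact ht (pow_eq_zero_iff (two_ne_zero) |>.mp hts)
  have main : ∀ i j, i ≠ j → _ := fun i j hij =>
    pair_main hν hν2 hsep (hw.1.ne hij) (isRoot_of_rts hw i) (isRoot_of_rts hw j)
  have hpt : ∀ i j, i ≠ j → W.toAffine.Nonsingular (xE u μ (yp (nu u) (w i) (w j)))
        (yE u μ (yp (nu u) (w i) (w j)) (TT u t (yp (nu u) (w i) (w j)))) := by
    intro i j hij
    obtain ⟨m1, m2, m3, m4, m5, m6⟩ := main i j hij
    rw [← Affine.equation_iff_nonsingular, equation_short, h4, h6]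
    exact idE u μ _ _ hu.u0 m1
      (idT u t _ s hu.u0 m6 hts (GG_ne_zero hu.u0 (BB_ne_zero m1 m2 m3) m6 hss))
  have hb : ∀ i j, i ≠ j → ∃ h, bpt W u μ t (w i) (w j) =
      .some (xE u μ (yp (nu u) (w i) (w j)))
        (yE u μ (yp (nu u) (w i) (w j)) (TT u t (yp (nu u) (w i) (w j)))) h := by
    intro i j hij
    refine ⟨hpt i j hij, ?_⟩
    unfold bpt mkPt
    rw [dif_pos (hpt i j hij)]
  refine ⟨hell, hb, ?_, ?_, ?_⟩
  · intro i j
    unfold bpt
    rw [yp_symm]
  · intro i j k l hij hkl h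
    obtain ⟨h1, e1⟩ := hb i j hij
    obtain ⟨h2, e2⟩ := hb k l hkl
    rw [e1, e2, Affine.Point.some.injEq] at h
    obtain ⟨hx, -⟩ := h
    obtain ⟨m1, m2, m3, m4, m5, m6⟩ := main i j hij
    obtain ⟨n1, n2, n3, n4, n5, n6⟩ := main k l hkl
    have hy : yp (nu u) (w i) (w j) = yp (nu u) (w k) (w l) := by
      unfold xE at hx
      have hμ2 : -μ ^ 2 ≠ 0 := neg_ne_zero.mpr (pow_ne_zero 2 hμ)
      have h3 := mul_left_cancel₀ hμ2 hx
      have hc : 27 * u ^ 3 * (2 * u + 1) ≠ 0 :=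
        mul_ne_zero (mul_ne_zero (by norm_num) (pow_ne_zero 3 hu.u0)) hu.u2
      have h5 : 27 * u ^ 3 * (2 * u + 1) / (yp (nu u) (w i) (w j) - 1)
          = 27 * u ^ 3 * (2 * u + 1) / (yp (nu u) (w k) (w l) - 1) := by
        linear_combination h3
      rw [div_eq_div_iff m1 n1] at h5
      have h7 := mul_left_cancel₀ hc h5
      linear_combination -h7
    rw [← hy] at n1 n2 n3 n4 n5 n6
    have hs : w i + w j = w k + w l := mul_right_cancel₀ m2 (by rw [m4, n4])
    have hp : w i * w j = w k * w l := mul_right_cancel₀ m3 (by rw [m5, n5])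
    rcases pair_eq_of_sum_prod hs hp with h | h
    · exact Or.inl ⟨hw.1 h.1, hw.1 h.2⟩
    · exact Or.inr ⟨hw.1 h.1, hw.1 h.2⟩
  · intro i j hij
    obtain ⟨m1, m2, m3, m4, m5, m6⟩ := main i j hij
    exact ⟨m6, BB_ne_zero m1 m2 m3⟩

theorem map_mkPt {K F F' : Type} [Field K] [Field F] [Field F'] [Algebra K F] [Algebra K F']
    (W : WeierstrassCurve K) (f : F →ₐ[K] F') (x y : F) :
    Affine.Point.map (W' := W) f (mkPt (W.baseChange F) x y)
      = mkPt (W.baseChange F') (f x) (f y) := by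
  unfold mkPt
  by_cases h : (W.baseChange F).toAffine.Nonsingular x y
  · rw [dif_pos h, dif_pos ((Affine.baseChange_nonsingular (W := W) f.injective x y).mpr h)]
    rfl
  · rw [dif_neg h, dif_neg (fun h' => h ((Affine.baseChange_nonsingular (W := W) f.injective x y).mp h'))]
    rfl

theorem map_bpt {K F F' : Type} [Field K] [Field F] [Field F'] [Algebra K F] [Algebra K F']
    (W : WeierstrassCurve K) (f : F →ₐ[K] F') (u μ t a b : F) :
    Affine.Point.map (W' := W) f (bpt (W.baseChange F) u μ t a b)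
      = bpt (W.baseChange F') (f u) (f μ) (f t) (f a) (f b) := by
  unfold bpt
  rw [map_mkPt]
  congr 1 <;> simp [xE, yE, yp, TT, nu, DD, GG, map_ofNat]

end Pool.MP_bfb583_al.EC
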