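import Pool.Agent.Lib.MP_bfb583_al.EC.Stmts

set_option autoImplicit false

namespace Pool.MP_bfb583_al.EC

open Polynomial IntermediateField
open scoped Polynomial.Bivariate

namespace T1Aux

theorem map_AA {R S : Type*} [CommRing R] [CommRing S] (f : R →+* S) (a b : R) :
    f (AA a b) = AA (f a) (f b) := by
  simp [AA, NN, DD, map_ofNat]

theorem map_BB {R S : Type*} [CommRing R] [CommRing S] (f : R →+* S) (a b : R) :
    f (BB a b) = BB (f a) (f b) := by
  simp [BB, DD, map_ofNat]

variable {k : Type*} [Field k]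

theorem D_ne {a : k} [CharZero k] (h : DD a = 0) : 4 * a + 5 ≠ 0 := by
  intro h2
  have : a = -5/4 := by linear_combination (1/4) * h2
  rw [this] at h
  unfold DD at h
  norm_num at h

theorem cop [CharZero k] [IsAlgClosed k] {ν : k} (hν : ν ≠ 0) (hν2 : 2 * ν ^ 2 - 6 * ν + 3 ≠ 0) :
    IsCoprime (AA (C ν) X : k[X]) (BB (C ν) X) := by
  rw [Polynomial.isCoprime_iff_aeval_ne_zero_of_isAlgClosed k k]
  intro a
  by_contra hcon
  push Not at hcon
  obtain ⟨h1, h2⟩ := hcon
  have h1' : AA ν a = 0 := by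
    rw [← h1]
    have := map_AA (Polynomial.aeval a : k[X] →ₐ[k] k).toRingHom (C ν) X
    simp at this
    exact this.symm
  have h2' : BB ν a = 0 := by
    rw [← h2]
    have := map_BB (Polynomial.aeval a : k[X] →ₐ[k] k).toRingHom (C ν) X
    simp at this
    exact this.symm
  unfold BB at h2'
  have hcase : a - 1 = 0 ∨ DD a = 0 ∨ a + ν - 1 = 0 := by
    rcases mul_eq_zero.mp h2' with h | h
    · rcases mul_eq_zero.mp h with h | h
      · exact Or.inl h
      · exact Or.inr (Or.inl (pow_eq_zero_iff (by norm_num) |>.mp h))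
    · exact Or.inr (Or.inr (pow_eq_zero_iff (by norm_num) |>.mp h))
  rcases hcase with h | h | h
  · have ha : a = 1 := by linear_combination h
    rw [ha] at h1'
    have : AA ν 1 = -729 * ν ^ 3 := by unfold AA DD NN; ring
    rw [this] at h1'
    exact mul_ne_zero (by norm_num) (pow_ne_zero 3 hν) h1'
  · have hN : NN ν a = - (4 * a + 5) * (a + ν - 1) := by
      unfold DD at h
      unfold NN
      linear_combination 3 * h
    have e : AA ν a = 108 * (a - 1) * NN ν a ^ 2 * (a + ν - 1) ^ 4 := by
      unfold AA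
      rw [h]
      ring
    rw [e, hN] at h1'
    have ha1 : a - 1 ≠ 0 := by
      intro h3
      have ha : a = 1 := by linear_combination h3
      rw [ha] at h
      unfold DD at h
      norm_num at h
    have he : a + ν - 1 ≠ 0 := by
      intro h3
      have ha : a = 1 - ν := by linear_combination h3
      rw [ha] at h
      unfold DD at h
      exact hν2 (by linear_combination h)
    exact mul_ne_zero (mul_ne_zero (mul_ne_zero (by norm_num) ha1)
      (pow_ne_zero 2 (mul_ne_zero (neg_ne_zero.mpr (D_ne h)) he))) (pow_ne_zero 4 he) h1'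
  · have ha : a = 1 - ν := by linear_combination h
    have e : AA ν a = (a - 1) ^ 3 * DD a ^ 6 := by
      unfold AA
      rw [h]
      ring
    rw [e, ha] at h1'
    have hD : DD (1 - ν) ≠ 0 := by
      unfold DD
      intro h3
      exact hν2 (by linear_combination h3)
    have h4 : (1 - ν - 1) ≠ 0 := by
      intro h3
      exact hν (by linear_combination -h3)
    exact mul_ne_zero (pow_ne_zero 3 h4) (pow_ne_zero 6 hD) h1'

theorem B_ne_zero (ν : k) [CharZero k] : (BB (C ν) X : k[X]) ≠ 0 := by
  unfold BB DD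
  refine mul_ne_zero (mul_ne_zero ?_ (pow_ne_zero 4 ?_)) (pow_ne_zero 2 ?_)
  · intro h
    have := congrArg (eval 0) h
    simp at this
  · intro h
    have := congrArg (eval 0) h
    simp at this
  · intro h
    have := congrArg (fun p => coeff p 1) h
    simp [coeff_X, coeff_one] at this

/-- the polynomial. -/
noncomputable def RR (ν : k) : k[X][Y] :=
  (AA (C ν) X : k[X]).map C - C X * (BB (C ν) X : k[X]).map C

theorem RR_irr [CharZero k] [IsAlgClosed k] {ν : k} (hν : ν ≠ 0)
    (hν2 : 2 * ν ^ 2 - 6 * ν + 3 ≠ 0) : Irreducible (RR ν) := by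
  have h1 : Irreducible (C (-(BB (C ν) X : k[X])) * X + C (AA (C ν) X : k[X]) : k[X][Y]) :=
    irreducible_C_mul_X_add_C (neg_ne_zero.mpr (B_ne_zero ν))
      ((IsCoprime.neg_left_iff _ _).mpr (cop hν hν2).symm).isRelPrime
  have h2 : RR ν = Bivariate.swap (C (-(BB (C ν) X : k[X])) * X + C (AA (C ν) X : k[X]) : k[X][Y]) := by
    rw [map_add, map_mul, Bivariate.swap_C, Bivariate.swap_C, Bivariate.swap_Y, RR]
    rw [Polynomial.map_neg]
    ring
  rw [h2]
  exact (MulEquiv.irreducible_iff _).mpr h1

theorem RR_deg [CharZero k] (ν : k) : 0 < (RR ν).natDegree := by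
  rw [Nat.pos_iff_ne_zero]
  intro h
  have hc : ∀ i, 0 < i → (BB (C ν) X : k[X]).coeff i = 0 := by
    intro i hi
    have h3 : (RR ν).coeff i = 0 := coeff_eq_zero_of_natDegree_lt (by omega)
    rw [RR, coeff_sub, coeff_C_mul, coeff_map, coeff_map] at h3
    have h4 := congrArg (fun p => coeff p 1) h3
    simpa [coeff_C] using h4
  have hB : (BB (C ν) X : k[X]) = C ((BB (C ν) X : k[X]).coeff 0) := by
    ext i
    rcases Nat.eq_zero_or_pos i with rfl | hi
    · simp
    · rw [hc i hi, coeff_C, if_neg hi.ne']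
  have h1 : (BB (C ν) X : k[X]).eval 1 = 0 := by
    have := map_BB (Polynomial.evalRingHom (1 : k)) (C ν) X
    simp only [coe_evalRingHom, eval_C, eval_X] at this
    rw [this]; unfold BB; ring
  rw [hB, eval_C] at h1
  rw [h1, C_0] at hB
  exact B_ne_zero ν hB

end T1Aux

open T1Aux in
theorem stT1 (hConj : StConj) : StT1 := by
  intro k Ω _ _ _ _ _ _ ν s y y' hν hν2 hs halg h1 h2
  have hev : ∀ z : Ω, s * BB (algebraMap k Ω ν) z = AA (algebraMap k Ω ν) z →
      ((RR ν).map (Polynomial.aeval s : k[X] →ₐ[k] Ω).toRingHom).eval z = 0 := by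
    intro z hz
    have hφ : ((Polynomial.aeval s : k[X] →ₐ[k] Ω).toRingHom).comp (C : k →+* k[X])
        = algebraMap k Ω := by
      ext a; simp
    rw [RR, Polynomial.map_sub, Polynomial.map_mul, Polynomial.map_map, Polynomial.map_map, hφ,
      Polynomial.map_C, eval_sub, eval_mul, eval_C, eval_map, eval_map]
    have e1 := map_AA (Polynomial.eval₂RingHom (algebraMap k Ω) z) (C ν) X
    have e2 := map_BB (Polynomial.eval₂RingHom (algebraMap k Ω) z) (C ν) X
    simp only [coe_eval₂RingHom, eval₂_C, eval₂_X] at e1 e2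
    rw [e1, e2, ← hz]
    simp
  exact hConj k Ω s hs halg (RR ν) (RR_irr hν hν2) (RR_deg ν) y y' (hev y h1) (hev y' h2)

end Pool.MP_bfb583_al.EC
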