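import Pool.Agent.Lib.MP_bfb583_al.EC.Disc
import Pool.Agent.Lib.MP_bfb583_al.EC.T1

set_option autoImplicit false

namespace Pool.MP_bfb583_al.EC

open Polynomial IntermediateField

theorem pair_of_y {F : Type*} [Field F] [CharZero F] {ν s a b a' b' : F} (hν : ν ≠ 0)
    (hν2 : 2 * ν ^ 2 - 6 * ν + 3 ≠ 0) (hsep : (fp ν s).Separable) (hab : a ≠ b) (hab' : a' ≠ b')
    (ha : (fp ν s).IsRoot a) (hb : (fp ν s).IsRoot b) (ha' : (fp ν s).IsRoot a')
    (hb' : (fp ν s).IsRoot b') (hy : yp ν a b = yp ν a' b') :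
    (a = a' ∧ b = b') ∨ (a = b' ∧ b = a') := by
  obtain ⟨m1, m2, m3, m4, m5, m6⟩ := pair_main hν hν2 hsep hab ha hb
  obtain ⟨n1, n2, n3, n4, n5, n6⟩ := pair_main hν hν2 hsep hab' ha' hb'
  rw [← hy] at n1 n2 n3 n4 n5 n6
  have hs : a + b = a' + b' := mul_right_cancel₀ m2 (by rw [m4, n4])
  have hp : a * b = a' * b' := mul_right_cancel₀ m3 (by rw [m5, n5])
  exact pair_eq_of_sum_prod hs hp

theorem map_yp {F F' : Type*} [Field F] [Field F'] (f : F →+* F') (ν a b : F) :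
    f (yp ν a b) = yp (f ν) (f a) (f b) := by
  simp [yp, map_ofNat]

theorem map_nu {F F' : Type*} [Field F] [Field F'] (f : F →+* F') (u : F) :
    f (nu u) = nu (f u) := by
  simp [nu, map_ofNat]

theorem map_s0 {F F' : Type*} [Field F] [Field F'] (f : F →+* F') (u : F) :
    f (s0 u) = s0 (f u) := by
  simp [s0, map_ofNat]

theorem map_fp {F F' : Type*} [Field F] [Field F'] (f : F →+* F') (ν s : F) :
    (fp ν s).map f = fp (f ν) (f s) := by
  simp [fp, map_ofNat]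

theorem rts_mem {F : Type*} [Field F] {ν s : F} {v : Fin 6 → F} (h : Rts ν s v) {x : F}
    (hx : (fp ν s).IsRoot x) : ∃ i, v i = x := by
  rw [IsRoot, h.2, eval_prod, Finset.prod_eq_zero_iff] at hx
  obtain ⟨i, -, hi⟩ := hx
  refine ⟨i, ?_⟩
  simp only [eval_sub, eval_X, eval_C] at hi
  exact (sub_eq_zero.mp hi).symm

/-- automorphisms fixing `ν` and `s` permute the roots. -/
theorem exists_perm {F : Type*} [Field F] [CharZero F] {ν s : F} {v : Fin 6 → F} (h : Rts ν s v)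
    (f : F →+* F) (hν : f ν = ν) (hs : f s = s) :
    ∃ π : Equiv.Perm (Fin 6), ∀ i, f (v i) = v (π i) := by
  have h1 : ∀ i, ∃ j, v j = f (v i) := by
    intro i
    apply rts_mem h
    have hr := isRoot_of_rts h i
    rw [IsRoot] at hr ⊢
    have := congrArg f hr
    rw [map_zero, ← eval_map_apply, map_fp, hν, hs] at this
    exact this
  choose g hg using h1
  have hinj : Function.Injective g := by
    intro i j hij
    have : f (v i) = f (v j) := by rw [← hg i, ← hg j, hij]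
    exact h.1 (f.injective this)
  exact ⟨Equiv.ofBijective g (Finite.injective_iff_bijective.mp hinj), fun i => (hg i).symm⟩


/-- action of a permutation on the Vandermonde product. -/
theorem vandermonde_perm {F : Type*} [Field F] (v : Fin 6 → F) (π : Equiv.Perm (Fin 6)) :
    ∏ i, ∏ j ∈ Finset.Ioi i, (v (π j) - v (π i))
      = ((Equiv.Perm.sign π : ℤ) : F) * ∏ i, ∏ j ∈ Finset.Ioi i, (v j - v i) := by
  have h1 := Matrix.det_vandermonde v
  have h2 := Matrix.det_vandermonde (fun i => v (π i))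
  have h3 : Matrix.vandermonde (fun i => v (π i)) = (Matrix.vandermonde v).submatrix π id := by
    ext i j
    simp [Matrix.vandermonde]
  rw [← h1, ← h2, h3, Matrix.det_permute]

theorem vandermonde_ne_zero {F : Type*} [Field F] {v : Fin 6 → F} (h : Function.Injective v) :
    ∏ i, ∏ j ∈ Finset.Ioi i, (v j - v i) ≠ 0 := by
  rw [← Matrix.det_vandermonde, Matrix.det_vandermonde_ne_zero_iff]
  exact h

/-- if the Vandermonde product is fixed, the permutation is even. -/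
theorem even_of_fix {F : Type*} [Field F] [CharZero F] {v : Fin 6 → F}
    (h : Function.Injective v) (f : F →+* F) (π : Equiv.Perm (Fin 6))
    (hπ : ∀ i, f (v i) = v (π i))
    (hfix : f (∏ i, ∏ j ∈ Finset.Ioi i, (v j - v i)) = ∏ i, ∏ j ∈ Finset.Ioi i, (v j - v i)) :
    π ∈ alternatingGroup (Fin 6) := by
  rw [Equiv.Perm.mem_alternatingGroup]
  have h1 : f (∏ i, ∏ j ∈ Finset.Ioi i, (v j - v i))
      = ∏ i, ∏ j ∈ Finset.Ioi i, (v (π j) - v (π i)) := by
    rw [map_prod]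
    refine Finset.prod_congr rfl fun i _ => ?_
    rw [map_prod]
    refine Finset.prod_congr rfl fun j _ => ?_
    rw [map_sub, hπ, hπ]
  rw [h1, vandermonde_perm] at hfix
  have h2 : ((Equiv.Perm.sign π : ℤ) : F) = 1 :=
    mul_right_cancel₀ (vandermonde_ne_zero h) (by rw [hfix, one_mul])
  rcases Int.units_eq_one_or (Equiv.Perm.sign π) with h3 | h3
  · exact h3
  · rw [h3] at h2
    exfalso
    norm_num at h2

/-- the other two parameters. -/
theorem exists_trip {k : Type*} [Field k] [CharZero k] [IsAlgClosed k] {u : k} (hu : GoodU u) :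
    ∃ u₂ u₃ : k, u₂ ≠ 0 ∧ u₃ ≠ 0 ∧ nu u₂ = nu u ∧ nu u₃ = nu u ∧ Trip (nu u) u u₂ u₃ := by
  have h0 := hu.u0
  obtain ⟨r, hr⟩ : ∃ r : k, 2 * u * r ^ 2 + (2 * u ^ 2 - 3 * u) * r - 1 = 0 := by
    have hdeg : (C (2 * u) * X ^ 2 + C (2 * u ^ 2 - 3 * u) * X + C (-1) : k[X]).degree ≠ 0 := by
      rw [degree_quadratic (mul_ne_zero two_ne_zero h0)]
      decide
    obtain ⟨r, hr⟩ := IsAlgClosed.exists_root _ hdeg
    refine ⟨r, ?_⟩
    rw [IsRoot] at hr
    simp only [eval_add, eval_mul, eval_pow, eval_X, eval_C] at hr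
    linear_combination hr
  have hr0 : r ≠ 0 := by
    rintro rfl
    norm_num at hr
  have hr' : 2 * u * (3 / 2 - u - r) ^ 2 + (2 * u ^ 2 - 3 * u) * (3 / 2 - u - r) - 1 = 0 := by
    linear_combination hr
  have hr0' : 3 / 2 - u - r ≠ 0 := by
    intro h
    rw [h] at hr'
    norm_num at hr'
  have key : ∀ z : k, z ≠ 0 → 2 * u * z ^ 2 + (2 * u ^ 2 - 3 * u) * z - 1 = 0 → nu z = nu u := by
    intro z hz h
    unfold nu
    rw [div_eq_div_iff (mul_ne_zero three_ne_zero hz) (mul_ne_zero three_ne_zero h0)]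
    linear_combination (3 * (z - u)) * h
  refine ⟨r, 3 / 2 - u - r, hr0, hr0', key r hr0 hr, key _ hr0' hr', ?_, ?_, ?_⟩
  · ring
  · unfold nu
    field_simp
    linear_combination -hr
  · linear_combination (-1/2) * hr

theorem transc_of_mem {k Ω : Type*} [Field k] [IsAlgClosed k] [Field Ω] [Algebra k Ω] {x : Ω}
    (h : x ∉ Set.range (algebraMap k Ω)) : Transcendental k x := by
  intro halg
  apply h
  have h1 : IsIntegral k x := halg.isIntegral
  have hd := IsAlgClosed.degree_eq_one_of_irreducible k (minpoly.irreducible h1)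
  obtain ⟨a, ha⟩ := minpoly.mem_range_of_degree_eq_one k x hd
  exact ⟨a, ha⟩

theorem algebraic_of_le {k Ω : Type*} [Field k] [Field Ω] [Algebra k Ω] {x y : Ω}
    (h : Algebra.IsAlgebraic k⟮x⟯ Ω) (hxy : x ∈ k⟮y⟯) : Algebra.IsAlgebraic k⟮y⟯ Ω := by
  refine ⟨fun z => ?_⟩
  have hle : k⟮x⟯ ≤ k⟮y⟯ := adjoin_simple_le_iff.mpr hxy
  exact (h.isAlgebraic z).tower_top_of_subalgebra_le
    (A := k⟮x⟯.toSubalgebra) (B := k⟮y⟯.toSubalgebra) hle


theorem stC1 (hT1 : StT1) (hT2 : StT2) (hG : StG1) : StC1 := by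
  intro k Ω _ _ _ _ _ _ u s t v hu hs halg hts hv
  have : CharZero Ω := charZero_of_injective_algebraMap (algebraMap k Ω).injective
  have hν := nu_ne_zero hu
  have hν2 := nu_quad_ne_zero hu
  set ν := nu u with hνdef
  have hνΩ : nu (algebraMap k Ω u) = algebraMap k Ω ν := (map_nu (algebraMap k Ω) u).symm
  have hs0Ω : s0 (algebraMap k Ω u) = algebraMap k Ω (s0 u) := (map_s0 (algebraMap k Ω) u).symm
  rw [hνΩ] at hv
  rw [hs0Ω] at hts
  have hνn : algebraMap k Ω ν ≠ 0 := by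
    rw [Ne, map_eq_zero]; exact hν
  have hνn2 : 2 * (algebraMap k Ω ν) ^ 2 - 6 * (algebraMap k Ω ν) + 3 ≠ 0 := by
    intro h
    apply hν2
    apply (algebraMap k Ω).injective
    simpa [map_ofNat] using h
  have hsep := sep_of_rts hv
  have hroot := isRoot_of_rts hv
  have hsr : ∀ c : k, s ≠ algebraMap k Ω c := by
    intro c hc
    apply hs
    rw [hc]
    exact isAlgebraic_algebraMap c
  -- the group
  let H : Subgroup (Equiv.Perm (Fin 6)) :=
    { carrier := {π | ∃ σ : Ω ≃ₐ[k] Ω, σ s = s ∧ ∀ i, σ (v i) = v (π i)}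
      mul_mem' := by
        rintro π ρ ⟨σ, hσ, h1⟩ ⟨τ, hτ, h2⟩
        refine ⟨σ * τ, ?_, fun i => ?_⟩
        · rw [AlgEquiv.mul_apply, hτ, hσ]
        · rw [AlgEquiv.mul_apply, h2, h1, Equiv.Perm.mul_apply]
      one_mem' := ⟨1, rfl, fun i => rfl⟩
      inv_mem' := by
        rintro π ⟨σ, hσ, h1⟩
        refine ⟨σ⁻¹, ?_, fun i => ?_⟩
        · apply σ.injective
          rw [hσ]
          exact AlgEquiv.apply_symm_apply σ s
        · apply σ.injective
          rw [h1, show π (π⁻¹ i) = i from Equiv.apply_symm_apply π i]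
          exact AlgEquiv.apply_symm_apply σ (v i) }
  have hHmem : ∀ π, π ∈ H ↔ ∃ σ : Ω ≃ₐ[k] Ω, σ s = s ∧ ∀ i, σ (v i) = v (π i) := fun π => Iff.rfl
  have hperm : ∀ σ : Ω ≃ₐ[k] Ω, σ s = s → ∃ π ∈ H, ∀ i, σ (v i) = v (π i) := by
    intro σ hσ
    obtain ⟨π, hπ⟩ := exists_perm hv (σ : Ω →+* Ω) (σ.commutes ν) hσ
    exact ⟨π, ⟨σ, hσ, hπ⟩, hπ⟩
  -- even
  have heven : H ≤ alternatingGroup (Fin 6) := by
    rintro π ⟨σ, hσ, h1⟩
    obtain ⟨u₂, u₃, h2, h3, hn2, hn3, htr⟩ := exists_trip hu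
    obtain ⟨c, hc⟩ := IsAlgClosed.exists_pow_nat_eq (-27 * 1024 : k) (n := 2) (by norm_num)
    have hinj := (algebraMap k Ω).injective
    have hd := stDisc Ω (algebraMap k Ω ν) s (algebraMap k Ω u) (algebraMap k Ω u₂)
      (algebraMap k Ω u₃) v (by rw [Ne, map_eq_zero]; exact hu.u0)
      (by rw [Ne, map_eq_zero]; exact h2) (by rw [Ne, map_eq_zero]; exact h3)
      hνΩ (by rw [← map_nu, hn2]) (by rw [← map_nu, hn3])
      ⟨by rw [← map_add, ← map_add, htr.h1]; simp [map_ofNat],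
       by
        have := congrArg (algebraMap k Ω) htr.h2
        simpa [map_ofNat] using this,
       by
        have := congrArg (algebraMap k Ω) htr.h3
        simpa [map_ofNat] using this⟩ hv
    rw [← map_s0, ← map_s0, ← map_s0] at hd
    set δ := ∏ i, ∏ j ∈ Finset.Ioi i, (v j - v i) with hδ
    set S := (s - algebraMap k Ω (s0 u)) * (s - algebraMap k Ω (s0 u₂))
      * (s - algebraMap k Ω (s0 u₃)) with hS
    have hcΩ : (algebraMap k Ω c) ^ 2 = -27 * 1024 := by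
      rw [← map_pow, hc]; simp [map_ofNat]
    have h4 : (δ - algebraMap k Ω c * S) * (δ + algebraMap k Ω c * S) = 0 := by
      linear_combination hd - S ^ 2 * hcΩ
    have hσS : σ S = S := by
      rw [hS]
      simp only [map_mul, map_sub, hσ, AlgEquiv.commutes]
    apply even_of_fix hv.1 (σ : Ω →+* Ω) π h1
    rw [← hδ]
    change σ δ = δ
    rcases mul_eq_zero.mp h4 with h | h
    · rw [sub_eq_zero.mp h, map_mul, hσS, σ.commutes]
    · rw [eq_neg_of_add_eq_zero_left h, map_neg, map_mul, hσS, σ.commutes]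
  -- flag transitivity
  have hflag : ∀ a b c a' b' c' : Fin 6, a ≠ b → c ≠ a → c ≠ b → a' ≠ b' → c' ≠ a' → c' ≠ b' →
      ∃ h ∈ H, ((h a = a' ∧ h b = b') ∨ (h a = b' ∧ h b = a')) ∧ h c = c' := by
    intro a b c a' b' c' hab hca hcb hab' hca' hcb'
    obtain ⟨m1, m2, m3, m4, m5, m6⟩ := pair_main hνn hνn2 hsep (hv.1.ne hab) (hroot a) (hroot b)
    obtain ⟨n1, n2, n3, n4, n5, n6⟩ := pair_main hνn hνn2 hsep (hv.1.ne hab') (hroot a') (hroot b')
    obtain ⟨σ₁, hσs, hσy⟩ := hT1 k Ω ν s _ _ hν hν2 hs halg m6 n6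
    obtain ⟨π₁, hπ₁H, hπ₁⟩ := hperm σ₁ hσs
    have hpair : ∀ σ : Ω ≃ₐ[k] Ω, ∀ π : Equiv.Perm (Fin 6), (∀ i, σ (v i) = v (π i)) →
        ∀ x y : Fin 6, x ≠ y → σ (yp (algebraMap k Ω ν) (v x) (v y))
          = yp (algebraMap k Ω ν) (v a') (v b') → (π x = a' ∧ π y = b') ∨ (π x = b' ∧ π y = a') := by
      intro σ π hπ x y hxy h
      have h2 : σ (yp (algebraMap k Ω ν) (v x) (v y))
          = yp (algebraMap k Ω ν) (v (π x)) (v (π y)) := by
        have := map_yp (σ : Ω →+* Ω) (algebraMap k Ω ν) (v x) (v y)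
        simp only [RingHom.coe_coe] at this
        rw [this, hπ, hπ, AlgEquiv.commutes]
      rw [h2] at h
      rcases pair_of_y hνn hνn2 hsep (hv.1.ne (π.injective.ne hxy)) (hv.1.ne hab')
        (hroot _) (hroot _) (hroot _) (hroot _) h with h3 | h3
      · exact Or.inl ⟨hv.1 h3.1, hv.1 h3.2⟩
      · exact Or.inr ⟨hv.1 h3.1, hv.1 h3.2⟩
    have hp1 := hpair σ₁ π₁ hπ₁ a b hab hσy
    set y' := yp (algebraMap k Ω ν) (v a') (v b') with hy'
    -- `s ∈ k(y')`
    have hB : BB (algebraMap k Ω ν) y' ≠ 0 := BB_ne_zero n1 n2 n3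
    have hy'k : y' ∈ k⟮y'⟯ := mem_adjoin_simple_self k y'
    have hνk : algebraMap k Ω ν ∈ k⟮y'⟯ := IntermediateField.algebraMap_mem _ _
    have hs_eq : s = AA (algebraMap k Ω ν) y' / BB (algebraMap k Ω ν) y' := by
      rw [eq_div_iff hB]; exact n6
    have hsk : s ∈ k⟮y'⟯ := by
      have e1 := T1Aux.map_AA (algebraMap k⟮y'⟯ Ω) ⟨_, hνk⟩ ⟨y', hy'k⟩
      have e2 := T1Aux.map_BB (algebraMap k⟮y'⟯ Ω) ⟨_, hνk⟩ ⟨y', hy'k⟩
      rw [hs_eq]
      apply div_mem
      · have : AA (algebraMap k Ω ν) y' = algebraMap k⟮y'⟯ Ω (AA ⟨_, hνk⟩ ⟨y', hy'k⟩) := e1.symm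
        rw [this]
        exact SetLike.coe_mem _
      · have : BB (algebraMap k Ω ν) y' = algebraMap k⟮y'⟯ Ω (BB ⟨_, hνk⟩ ⟨y', hy'k⟩) := e2.symm
        rw [this]
        exact SetLike.coe_mem _
    have hy'tr : Transcendental k y' := by
      apply transc_of_mem
      rintro ⟨d, hd⟩
      apply hsr (AA ν d / BB ν d)
      rw [hs_eq, ← hd, ← T1Aux.map_AA, ← T1Aux.map_BB, map_div₀]
    have halg' : Algebra.IsAlgebraic k⟮y'⟯ Ω := algebraic_of_le halg hsk
    have hc1 : π₁ c ≠ a' ∧ π₁ c ≠ b' := by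
      rcases hp1 with ⟨h1, h2⟩ | ⟨h1, h2⟩
      · exact ⟨fun h => hca (π₁.injective (h.trans h1.symm)),
          fun h => hcb (π₁.injective (h.trans h2.symm))⟩
      · exact ⟨fun h => hcb (π₁.injective (h.trans h2.symm)),
          fun h => hca (π₁.injective (h.trans h1.symm))⟩
    obtain ⟨σ₂, hσ₂y, hσ₂c⟩ := hT2 k Ω ν s y' (v a') (v b') (v (π₁ c)) (v c') hν hν2 hy'tr halg'
      n4 n5 n6 (hroot _) (hroot _) (hv.1.ne hc1.1) (hv.1.ne hc1.2) (hv.1.ne hca') (hv.1.ne hcb')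
    have hσ₂s : σ₂ s = s := by
      have e1 := T1Aux.map_AA (σ₂ : Ω →+* Ω) (algebraMap k Ω ν) y'
      have e2 := T1Aux.map_BB (σ₂ : Ω →+* Ω) (algebraMap k Ω ν) y'
      simp only [RingHom.coe_coe, AlgEquiv.commutes, hσ₂y] at e1 e2
      rw [hs_eq, map_div₀, e1, e2]
    obtain ⟨π₂, hπ₂H, hπ₂⟩ := hperm σ₂ hσ₂s
    have hp2 := hpair σ₂ π₂ hπ₂ a' b' hab' (hσ₂y.trans hy')
    refine ⟨π₂ * π₁, H.mul_mem hπ₂H hπ₁H, ?_, ?_⟩
    · simp only [Equiv.Perm.mul_apply]
      rcases hp1 with ⟨h1, h2⟩ | ⟨h1, h2⟩ <;> rcases hp2 with ⟨h3, h4⟩ | ⟨h3, h4⟩ <;>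
        rw [h1, h2, h3, h4] <;> simp
    · rw [Equiv.Perm.mul_apply]
      apply hv.1
      rw [← hπ₂, hσ₂c]
  have hHtop := hG H heven hflag
  -- the stabiliser of `t`
  let Ht : Subgroup (Equiv.Perm (Fin 6)) :=
    { carrier := {π | ∃ σ : Ω ≃ₐ[k] Ω, σ t = t ∧ ∀ i, σ (v i) = v (π i)}
      mul_mem' := by
        rintro π ρ ⟨σ, hσ, h1⟩ ⟨τ, hτ, h2⟩
        refine ⟨σ * τ, ?_, fun i => ?_⟩
        · rw [AlgEquiv.mul_apply, hτ, hσ]
        · rw [AlgEquiv.mul_apply, h2, h1, Equiv.Perm.mul_apply]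
      one_mem' := ⟨1, rfl, fun i => rfl⟩
      inv_mem' := by
        rintro π ⟨σ, hσ, h1⟩
        refine ⟨σ⁻¹, ?_, fun i => ?_⟩
        · apply σ.injective
          rw [hσ]
          exact AlgEquiv.apply_symm_apply σ t
        · apply σ.injective
          rw [h1, show π (π⁻¹ i) = i from Equiv.apply_symm_apply π i]
          exact AlgEquiv.apply_symm_apply σ (v i) }
  have h3c : {σ : Equiv.Perm (Fin 6) | σ.IsThreeCycle} ⊆ Ht := by
    intro π hπ
    have hπ3 : π ^ 3 = 1 := by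
      have := pow_orderOf_eq_one π
      rwa [Equiv.Perm.IsThreeCycle.orderOf hπ] at this
    have hmem : π⁻¹ ∈ H := by
      rw [hHtop]
      exact (alternatingGroup (Fin 6)).inv_mem hπ.mem_alternatingGroup
    obtain ⟨σ, hσ, h1⟩ := hmem
    refine ⟨σ * σ, ?_, fun i => ?_⟩
    · have h5 : (σ t - t) * (σ t + t) = 0 := by
        have : (σ t) ^ 2 = t ^ 2 := by
          rw [← map_pow, hts, map_sub, hσ, AlgEquiv.commutes]
        linear_combination this
      rw [AlgEquiv.mul_apply]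
      rcases mul_eq_zero.mp h5 with h | h
      · rw [sub_eq_zero.mp h, sub_eq_zero.mp h]
      · rw [eq_neg_of_add_eq_zero_left h, map_neg, eq_neg_of_add_eq_zero_left h, neg_neg]
    · rw [AlgEquiv.mul_apply, h1, h1]
      congr 1
      have : π⁻¹ * π⁻¹ = π := by
        have h6 : π * (π * π) = 1 := by rw [← hπ3]; rfl
        have h7 : π⁻¹ = π * π := inv_eq_of_mul_eq_one_right h6
        rw [h7]
        calc π * π * (π * π) = (π * (π * π)) * π := by group
          _ = π := by rw [h6, one_mul]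
      rw [← Equiv.Perm.mul_apply, this]
  have hle : alternatingGroup (Fin 6) ≤ Ht := by
    rw [← Equiv.Perm.closure_three_cycles_eq_alternating]
    exact (Subgroup.closure_le _).mpr h3c
  intro π hπ
  exact hle hπ

end Pool.MP_bfb583_al.EC
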