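import Pool.Agent.Lib.MP_bfb583_al.EC.Stmts

set_option autoImplicit false

namespace Pool.MP_bfb583_al.EC

namespace CombAux

/-- permutations used below. -/
def q1 : Equiv.Perm (Fin 6) := ⟨![3,4,0,1,2,5], ![2,3,4,0,1,5], by decide, by decide⟩
/-- permutations used below. -/
def q2 : Equiv.Perm (Fin 6) := ⟨![3,2,4,1,0,5], ![4,3,1,0,2,5], by decide, by decide⟩
/-- permutations used below. -/
def q3 : Equiv.Perm (Fin 6) := ⟨![4,1,3,2,0,5], ![4,1,3,2,0,5], by decide, by decide⟩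
/-- permutations used below. -/
def q4 : Equiv.Perm (Fin 6) := ⟨![4,3,0,2,1,5], ![2,4,3,1,0,5], by decide, by decide⟩
/-- permutations used below. -/
def q5 : Equiv.Perm (Fin 6) := ⟨![5,3,0,1,2,4], ![2,3,4,1,5,0], by decide, by decide⟩
/-- permutations used below. -/
def q6 : Equiv.Perm (Fin 6) := ⟨![5,2,3,1,0,4], ![4,3,1,2,5,0], by decide, by decide⟩
/-- the 3-cycle `(1 2 3)`. -/
def q7 : Equiv.Perm (Fin 6) := ⟨![0,2,3,1,4,5], ![0,3,1,2,4,5], by decide, by decide⟩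
/-- the double transposition `(1 2)(3 4)`. -/
def q8 : Equiv.Perm (Fin 6) := ⟨![0,2,1,4,3,5], ![0,2,1,4,3,5], by decide, by decide⟩

theorem h1 : q1 ∈ alternatingGroup (Fin 6) := by rw [Equiv.Perm.mem_alternatingGroup]; decide
theorem h2 : q2 ∈ alternatingGroup (Fin 6) := by rw [Equiv.Perm.mem_alternatingGroup]; decide
theorem h3 : q3 ∈ alternatingGroup (Fin 6) := by rw [Equiv.Perm.mem_alternatingGroup]; decide
theorem h4 : q4 ∈ alternatingGroup (Fin 6) := by rw [Equiv.Perm.mem_alternatingGroup]; decide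
theorem h5 : q5 ∈ alternatingGroup (Fin 6) := by rw [Equiv.Perm.mem_alternatingGroup]; decide
theorem h6 : q6 ∈ alternatingGroup (Fin 6) := by rw [Equiv.Perm.mem_alternatingGroup]; decide
theorem h7 : q7 ∈ alternatingGroup (Fin 6) := by rw [Equiv.Perm.mem_alternatingGroup]; decide
theorem h8 : q8 ∈ alternatingGroup (Fin 6) := by rw [Equiv.Perm.mem_alternatingGroup]; decide

end CombAux

open CombAux in
theorem stComb : StComb := by
  intro V _ V₀ b r hsymm hφ hhalf hr hstar hpent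
  have c0 : (Finset.univ : Finset (Fin 6)).erase 0 = {1, 2, 3, 4, 5} := by decide
  have c1 : (Finset.univ : Finset (Fin 6)).erase 1 = {0, 2, 3, 4, 5} := by decide
  have c2 : (Finset.univ : Finset (Fin 6)).erase 2 = {0, 1, 3, 4, 5} := by decide
  have c3 : (Finset.univ : Finset (Fin 6)).erase 3 = {0, 1, 2, 4, 5} := by decide
  have c4 : (Finset.univ : Finset (Fin 6)).erase 4 = {0, 1, 2, 3, 5} := by decide
  have c5 : (Finset.univ : Finset (Fin 6)).erase 5 = {0, 1, 2, 3, 4} := by decide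
  have s0 := hstar 0
  have s1 := hstar 1
  have s2 := hstar 2
  have s3 := hstar 3
  have s4 := hstar 4
  have s5 := hstar 5
  rw [c0, Finset.sum_insert (by decide), Finset.sum_insert (by decide),
    Finset.sum_insert (by decide), Finset.sum_pair (by decide)] at s0
  rw [c1, Finset.sum_insert (by decide), Finset.sum_insert (by decide),
    Finset.sum_insert (by decide), Finset.sum_pair (by decide), hsymm 1 0] at s1
  rw [c2, Finset.sum_insert (by decide), Finset.sum_insert (by decide),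
    Finset.sum_insert (by decide), Finset.sum_pair (by decide), hsymm 2 0, hsymm 2 1] at s2
  rw [c3, Finset.sum_insert (by decide), Finset.sum_insert (by decide),
    Finset.sum_insert (by decide), Finset.sum_pair (by decide), hsymm 3 0, hsymm 3 1,
    hsymm 3 2] at s3
  rw [c4, Finset.sum_insert (by decide), Finset.sum_insert (by decide),
    Finset.sum_insert (by decide), Finset.sum_pair (by decide), hsymm 4 0, hsymm 4 1,
    hsymm 4 2, hsymm 4 3] at s4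
  rw [c5, Finset.sum_insert (by decide), Finset.sum_insert (by decide),
    Finset.sum_insert (by decide), Finset.sum_pair (by decide), hsymm 5 0, hsymm 5 1,
    hsymm 5 2, hsymm 5 3, hsymm 5 4] at s5
  -- the complete graph on `{0,1,2,3,4}`
  have hK : (b 0 1 + b 0 2 + b 0 3 + b 0 4 + b 1 2 + b 1 3 + b 1 4 + b 2 3 + b 2 4 + b 3 4)
      ∈ V₀ := by
    apply hhalf
    have : (b 0 1 + b 0 2 + b 0 3 + b 0 4 + b 1 2 + b 1 3 + b 1 4 + b 2 3 + b 2 4 + b 3 4)
        + (b 0 1 + b 0 2 + b 0 3 + b 0 4 + b 1 2 + b 1 3 + b 1 4 + b 2 3 + b 2 4 + b 3 4)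
        = r + r + r + r := by
      have e : (b 0 1 + b 0 2 + b 0 3 + b 0 4 + b 1 2 + b 1 3 + b 1 4 + b 2 3 + b 2 4 + b 3 4)
        + (b 0 1 + b 0 2 + b 0 3 + b 0 4 + b 1 2 + b 1 3 + b 1 4 + b 2 3 + b 2 4 + b 3 4)
        = (b 0 1 + (b 0 2 + (b 0 3 + (b 0 4 + b 0 5))))
          + (b 0 1 + (b 1 2 + (b 1 3 + (b 1 4 + b 1 5))))
          + (b 0 2 + (b 1 2 + (b 2 3 + (b 2 4 + b 2 5))))
          + (b 0 3 + (b 1 3 + (b 2 3 + (b 3 4 + b 3 5))))
          + (b 0 4 + (b 1 4 + (b 2 4 + (b 3 4 + b 4 5))))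
          - (b 0 5 + (b 1 5 + (b 2 5 + (b 3 5 + b 4 5)))) := by abel
      rw [e, s0, s1, s2, s3, s4, s5]
      abel
    rw [this]
    exact V₀.add_mem (V₀.add_mem (V₀.add_mem hr hr) hr) hr
  have hgram : b 0 2 + b 2 4 + b 4 1 + b 1 3 + b 3 0 ∈ V₀ := by
    have e : b 0 2 + b 2 4 + b 4 1 + b 1 3 + b 3 0
      = (b 0 1 + b 0 2 + b 0 3 + b 0 4 + b 1 2 + b 1 3 + b 1 4 + b 2 3 + b 2 4 + b 3 4)
        - (b 0 1 + b 1 2 + b 2 3 + b 3 4 + b 4 0) := by
      rw [hsymm 4 1, hsymm 3 0, hsymm 4 0]; abel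
    rw [e]
    exact V₀.sub_mem hK hpent
  -- images of constant relations
  have image : ∀ π ∈ alternatingGroup (Fin 6),
      b (π 0) (π 1) + b (π 1) (π 2) + b (π 2) (π 3) + b (π 3) (π 4) + b (π 4) (π 0) ∈ V₀ := by
    intro π hπ
    obtain ⟨φ, hφ0, hφb⟩ := hφ π hπ
    have h := hφ0 _ hpent
    simp only [map_add] at h
    rw [hφb 0 1 (by decide), hφb 1 2 (by decide), hφb 2 3 (by decide), hφb 3 4 (by decide),
      hφb 4 0 (by decide)] at h
    rw [h]; exact hpent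
  have image' : ∀ π ∈ alternatingGroup (Fin 6),
      b (π 0) (π 2) + b (π 2) (π 4) + b (π 4) (π 1) + b (π 1) (π 3) + b (π 3) (π 0) ∈ V₀ := by
    intro π hπ
    obtain ⟨φ, hφ0, hφb⟩ := hφ π hπ
    have h := hφ0 _ hgram
    simp only [map_add] at h
    rw [hφb 0 2 (by decide), hφb 2 4 (by decide), hφb 4 1 (by decide), hφb 1 3 (by decide),
      hφb 3 0 (by decide)] at h
    rw [h]; exact hgram
  have i1 : b 3 4 + b 4 0 + b 0 1 + b 1 2 + b 2 3 ∈ V₀ := image q1 h1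
  have i2 : b 3 4 + b 4 0 + b 0 2 + b 2 1 + b 1 3 ∈ V₀ := image' q2 h2
  have i3 : b 4 3 + b 3 0 + b 0 1 + b 1 2 + b 2 4 ∈ V₀ := image' q3 h3
  have i4 : b 4 3 + b 3 0 + b 0 2 + b 2 1 + b 1 4 ∈ V₀ := image q4 h4
  have i5 : b 5 3 + b 3 0 + b 0 1 + b 1 2 + b 2 5 ∈ V₀ := image q5 h5
  have i6 : b 5 3 + b 3 0 + b 0 2 + b 2 1 + b 1 5 ∈ V₀ := image' q6 h6
  have d3 : b 0 1 + b 2 3 - b 0 2 - b 1 3 ∈ V₀ := by
    have := V₀.sub_mem i1 i2
    rw [hsymm 2 1] at this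
    convert this using 1; abel
  have d4 : b 0 1 + b 2 4 - b 0 2 - b 1 4 ∈ V₀ := by
    have := V₀.sub_mem i3 i4
    rw [hsymm 2 1] at this
    convert this using 1; abel
  have d5 : b 0 1 + b 2 5 - b 0 2 - b 1 5 ∈ V₀ := by
    have := V₀.sub_mem i5 i6
    rw [hsymm 2 1] at this
    convert this using 1; abel
  have hd : b 0 1 - b 0 2 ∈ V₀ := by
    apply hhalf
    apply hhalf
    have e : b 0 1 - b 0 2 + (b 0 1 - b 0 2) + (b 0 1 - b 0 2 + (b 0 1 - b 0 2))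
      = (b 0 1 + b 2 3 - b 0 2 - b 1 3) + (b 0 1 + b 2 4 - b 0 2 - b 1 4)
        + (b 0 1 + b 2 5 - b 0 2 - b 1 5)
        + ((b 0 1 + (b 1 2 + (b 1 3 + (b 1 4 + b 1 5))))
          - (b 0 2 + (b 1 2 + (b 2 3 + (b 2 4 + b 2 5))))) := by abel
    rw [e, s1, s2, sub_self, add_zero]
    exact V₀.add_mem (V₀.add_mem d3 d4) d5
  obtain ⟨φ, hφ0, hφb⟩ := hφ q7 h7
  obtain ⟨ψ, hψ0, hψb⟩ := hφ q8 h8
  have e1 : b 0 2 - b 0 3 = b 0 1 - b 0 2 := by
    have h := hφ0 _ hd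
    rw [map_sub, hφb 0 1 (by decide), hφb 0 2 (by decide)] at h
    exact h
  have e2 : b 0 3 - b 0 1 = b 0 1 - b 0 2 := by
    have h := hφ0 _ (e1 ▸ hd)
    rw [map_sub, hφb 0 2 (by decide), hφb 0 3 (by decide)] at h
    exact h.trans e1
  have e3 : b 0 2 - b 0 1 = b 0 1 - b 0 2 := by
    have h := hψ0 _ hd
    rw [map_sub, hψb 0 1 (by decide), hψb 0 2 (by decide)] at h
    exact h
  have h3 : (b 0 1 - b 0 2) + (b 0 1 - b 0 2) + (b 0 1 - b 0 2) = 0 := by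
    have : (b 0 1 - b 0 2) + (b 0 2 - b 0 3) + (b 0 3 - b 0 1) = 0 := by abel
    rw [e1, e2] at this
    exact this
  have h2 : (b 0 1 - b 0 2) + (b 0 1 - b 0 2) = 0 := by
    have : (b 0 1 - b 0 2) + (b 0 2 - b 0 1) = 0 := by abel
    rw [e3] at this
    exact this
  rw [h2, zero_add] at h3
  exact sub_eq_zero.mp h3

end Pool.MP_bfb583_al.EC
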