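import Pool.Agent.Lib.MP_bfb583_al.EC.Stmts

set_option autoImplicit false

namespace Pool.MP_bfb583_al.EC

open Polynomial IntermediateField

theorem stConj : StConj := by
  intro k Ω _ _ _ _ _ y hy halg R hR hdeg c c' hc hc'
  classical
  let e : RatFunc k ≃ₐ[k] k⟮y⟯ := RatFunc.algEquivOfTranscendental y hy
  have hprim : R.IsPrimitive := hR.isPrimitive hdeg.ne'
  have h1 : Irreducible (R.map (algebraMap k[X] (RatFunc k))) :=
    (hprim.irreducible_iff_irreducible_map_fraction_map).mp hR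
  set R₂ : k⟮y⟯[X] := (R.map (algebraMap k[X] (RatFunc k))).map (e : RatFunc k →+* k⟮y⟯) with hR₂
  have h2 : Irreducible R₂ := by
    have : R₂ = Polynomial.mapEquiv (e : RatFunc k ≃+* k⟮y⟯) (R.map (algebraMap k[X] (RatFunc k))) := by
      rw [hR₂]; rfl
    rw [this]
    exact (MulEquiv.irreducible_iff _).mpr h1
  have hcomp : ((algebraMap k⟮y⟯ Ω).comp (e : RatFunc k →+* k⟮y⟯)).comp
      (algebraMap k[X] (RatFunc k)) = (Polynomial.aeval y : k[X] →ₐ[k] Ω).toRingHom := by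
    apply RingHom.ext
    intro p
    have := RatFunc.algEquivOfTranscendental_algebraMap y hy p
    change ((e (algebraMap k[X] (RatFunc k) p) : k⟮y⟯) : Ω) = Polynomial.aeval y p
    rw [show e (algebraMap k[X] (RatFunc k) p) = _ from this]
    simp
  have hroot : ∀ x : Ω, (R.map (Polynomial.aeval y : k[X] →ₐ[k] Ω).toRingHom).eval x
      = Polynomial.aeval x R₂ := by
    intro x
    rw [← hcomp, hR₂, Polynomial.aeval_def, ← Polynomial.eval_map, Polynomial.map_map,
      Polynomial.map_map]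
  rw [hroot] at hc hc'
  have hcalg : IsAlgebraic k⟮y⟯ c := ⟨R₂, h2.ne_zero, hc⟩
  have hassoc : Associated (minpoly k⟮y⟯ c) R₂ := by
    refine (minpoly.irreducible hcalg.isIntegral).associated_of_dvd h2 (minpoly.dvd _ _ hc)
  have hc2 : Polynomial.aeval c' (minpoly k⟮y⟯ c) = 0 := by
    obtain ⟨w, hw⟩ := hassoc.symm.dvd
    rw [hw, map_mul, hc', zero_mul]
  have : IsAlgClosure k⟮y⟯ Ω := ⟨inferInstance, halg⟩
  have : Normal k⟮y⟯ Ω := IsAlgClosure.normal k⟮y⟯ Ω
  obtain ⟨σ, hσ⟩ := minpoly.exists_algEquiv_of_root' hcalg hc2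
  refine ⟨σ.restrictScalars k, ?_, hσ⟩
  exact σ.commutes ⟨y, mem_adjoin_simple_self k y⟩

end Pool.MP_bfb583_al.EC
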