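import Mathlib

set_option autoImplicit false

/-!
Explicit family of sextics with monodromy group `A_6`, and the elliptic curve attached to it.
-/

namespace Pool.MP_bfb583_al.EC

open Polynomial

section Ring

variable {R : Type*} [CommRing R]

/-- `D(y) = 2y²+2y-1`. -/
def DD (y : R) : R := 2 * y ^ 2 + 2 * y - 1

/-- `N(ν,y)`. -/
def NN (ν y : R) : R := (2 * y + 1) * (y + 2) - ν * (4 * y + 5)

/-- Numerator of `s` as a function of `y`. -/
def AA (ν y : R) : R :=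
  -(y - 1) ^ 3 * DD y ^ 3 * (4 * (y - 1) * NN ν y ^ 2 * (y + ν - 1) - DD y ^ 3)
    - 24 * ν * (y - 1) ^ 3 * NN ν y * DD y ^ 4 * (y + ν - 1)
    - (48 * ν ^ 2 - 18 * ν + 9) * (y - 1) ^ 2 * DD y ^ 5 * (y + ν - 1)
    + 2 * (54 * ν ^ 2 - 54 * ν) * (y - 1) * NN ν y * (y + ν - 1) ^ 3 * DD y ^ 2
    + 27 * (y + ν - 1) ^ 3 * (4 * (y - 1) * NN ν y ^ 2 * (y + ν - 1) - DD y ^ 3)

/-- Denominator of `s` as a function of `y`. -/
def BB (ν y : R) : R := (y - 1) * DD y ^ 4 * (y + ν - 1) ^ 2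

/-- The polynomial `G(u,y)`. -/
def GG (u y : R) : R :=
  (2 * y ^ 2 + 2 * u * y + 2 * u ^ 2 - 3 * u - 3) *
  (12 * u ^ 2 * y ^ 4 + (8 * u + 12 * u ^ 2 - 48 * u ^ 3 + 16 * u ^ 4) * y ^ 3
    + (2 + 6 * u - 20 * u ^ 2 - 20 * u ^ 3 + 48 * u ^ 4 - 16 * u ^ 5) * y ^ 2
    + (4 - 10 * u - 30 * u ^ 2 + 32 * u ^ 3 - 8 * u ^ 4) * y
    + (3 - 22 * u + 35 * u ^ 2 + 36 * u ^ 3 - 56 * u ^ 4 + 16 * u ^ 5))

/-- The polynomial `3u² B₃(y)`. -/
def B3 (u y : R) : R :=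
  (u * y + u + 1) * (3 * u * y ^ 2 + (4 * u ^ 3 - 1) * y + 5 * u ^ 3 - 3 * u + 1)

/-- `a_n(u)`. -/
def an (u : R) : R := -10 * u ^ 4 + 4 * u ^ 3 + 12 * u ^ 2 + 4 * u - 1

/-- The coefficient `A = 3 μ⁴ α(u)`. -/
def cA (u μ : R) : R := 3 * μ ^ 4 * (27 * u ^ 4 * (u ^ 2 - 2 * u - 2) ^ 2 - an u ^ 2)

/-- The coefficient `B = μ⁶ β(u)`. -/
def cB (u μ : R) : R :=
  μ ^ 6 * (an u * (81 * u ^ 4 * (u ^ 2 - 2 * u - 2) ^ 2 - 2 * an u ^ 2))

end Ring

section Family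

variable {F : Type*} [Field F]

/-- `ν(u) = (u-1)²(2u+1)/(3u)`. -/
def nu (u : F) : F := (u - 1) ^ 2 * (2 * u + 1) / (3 * u)

/-- The sextic `P_ν(X) - s X²`. -/
noncomputable def fp (ν s : F) : F[X] :=
  X ^ 6 + C (12 * ν) * X ^ 5 + C (48 * ν ^ 2 - 18 * ν + 9) * X ^ 4
    + C (64 * ν ^ 3 - 72 * ν ^ 2 + 18 * ν) * X ^ 3 - C s * X ^ 2
    + C (54 * ν ^ 2 - 54 * ν) * X + C 27

/-- The `y`-coordinate of a pair `{a, b}` of roots of `fp ν s`. -/
def yp (ν a b : F) : F :=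
  ((a * b / 3) * ((a * b / 3) * (a + b + 4 * ν)) + ν * (a * b)
      + (a * b / 3 - 1) * (2 * (a * b / 3) + 1)) /
    ((a * b / 3) * (a + b + 4 * ν) + (a * b / 3 - 1) * (2 * (a * b / 3) + 1))

/-- The critical value `s₀(u)`. -/
def s0 (u : F) : F :=
  (-1 + 6 * u + 3 * u ^ 2 - 126 * u ^ 3 + 60 * u ^ 4 + 300 * u ^ 5 - 339 * u ^ 6
    - 336 * u ^ 7 + 480 * u ^ 8 - 128 * u ^ 9) / (3 * u ^ 4)

/-- The `T`-coordinate of the pair with `y`-coordinate `y`. -/
def TT (u t y : F) : F :=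
  3 * u ^ 2 * t * (y - 1) * DD y ^ 2 * (y + nu u - 1) / GG u y

/-- `x`-coordinate on `Y² = X³ + A X + B`. -/
def xE (u μ y : F) : F :=
  -μ ^ 2 * (27 * u ^ 3 * (2 * u + 1) / (y - 1) + 17 * u ^ 4 + 4 * u ^ 3 + 12 * u ^ 2 + 4 * u - 1)

/-- `y`-coordinate on `Y² = X³ + A X + B`. -/
def yE (u μ y T : F) : F := 81 * u ^ 4 * (2 * u + 1) * μ ^ 3 * T / (y - 1) ^ 2

/-- sum of the roots of the quadratic critical factor attached to `u`. -/
def p0 (u : F) : F := (u - 1) * (2 * u + 1) * (1 - 4 * u) / (3 * u)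

/-- linear coefficient of the remaining quadratic factor. -/
def e0 (u : F) : F := 2 * (u - 1) * (2 * u + 1) * (2 * u - 5) / (3 * u)

/-- the root `w(m)` of the sextic. -/
def wM (u m : F) : F := (3 / u ^ 2 - m ^ 2) / (2 * m - e0 u)

/-- the parameter `t(m)`, with `t(m)² = s(m) - s₀(u)`. -/
def tM (u m : F) : F :=
  (wM u m ^ 2 - p0 u * wM u m + 3 * u) * (wM u m + m) / wM u m

/-- the parameter `s(m)`. -/
def sM (u m : F) : F := s0 u + tM u m ^ 2

/-- Nondegenerate parameters `u`. -/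
structure GoodU (u : F) : Prop where
  u0 : u ≠ 0
  u1 : u ≠ 1
  u2 : 2 * u + 1 ≠ 0
  q1 : u ^ 2 - 2 * u - 2 ≠ 0
  q2 : 2 * u ^ 2 + 2 * u - 1 ≠ 0
  q3 : 4 * u ^ 2 - 8 * u + 1 ≠ 0

/-- `w` enumerates the six distinct roots of the sextic. -/
def Rts (ν s : F) (w : Fin 6 → F) : Prop :=
  Function.Injective w ∧ fp ν s = ∏ i, (X - C (w i))

/-- `u₁, u₂, u₃` are the three parameters with the same `ν`. -/
structure Trip (ν u₁ u₂ u₃ : F) : Prop where
  h1 : u₁ + u₂ + u₃ = 3 / 2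
  h2 : 2 * (u₁ * u₂ + u₁ * u₃ + u₂ * u₃) = -3 * ν
  h3 : u₁ * u₂ * u₃ = -1 / 2

end Family

section Points

open scoped Classical

/-- Points of `W` over the extension `Ω`. -/
abbrev Pt {K : Type} [Field K] (W : WeierstrassCurve K) (Ω : Type) [Field Ω] [Algebra K Ω] :
    Type :=
  (W.baseChange Ω).toAffine.Point

/-- The point of `W` with coordinates `(x, y)` (junk value `0`). -/
noncomputable def mkPt {F : Type} [Field F] (W : WeierstrassCurve F) (x y : F) :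
    W.toAffine.Point :=
  if h : W.toAffine.Nonsingular x y then .some x y h else 0

/-- The point attached to a pair `{a, b}` of roots. -/
noncomputable def bpt {F : Type} [Field F] (W : WeierstrassCurve F) (u μ t a b : F) :
    W.toAffine.Point :=
  mkPt W (xE u μ (yp (nu u) a b)) (yE u μ (yp (nu u) a b) (TT u t (yp (nu u) a b)))

/-- `x`-coordinate of a point (`0` for the point at infinity). -/
def pX {F : Type} [Field F] {W : WeierstrassCurve F} : W.toAffine.Point → F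
  | .zero => 0
  | .some x _ _ => x

/-- `y`-coordinate of a point (`0` for the point at infinity). -/
def pY {F : Type} [Field F] {W : WeierstrassCurve F} : W.toAffine.Point → F
  | .zero => 0
  | .some _ y _ => y

end Points

section Galois

/-- `A₅` is not a quotient of the absolute Galois group of `L`. -/
def NoA5 (L : Type) [Field L] : Prop :=
  ∀ (M : Type) [Field M] [Algebra L M] [FiniteDimensional L M] [IsGalois L M],
    ¬ ∃ f : (M ≃ₐ[L] M) →* alternatingGroup (Fin 5), Function.Surjective f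

/-- `A₅` is not a quotient of the absolute Galois group of any finite extension of `K`. -/
def A5Free (K : Type) [Field K] : Prop :=
  ∀ (L : Type) [Field L] [Algebra K L] [FiniteDimensional K L], NoA5 L

end Galois

end Pool.MP_bfb583_al.EC
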