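import Pool.Agent.Lib.MP_bfb583_al.EC.Bpt

set_option autoImplicit false

namespace Pool.MP_bfb583_al.EC

open Polynomial

namespace DiscAux

variable {F : Type} [Field F]

theorem eval_deriv_fp (ν s a : F) : (fp ν s).derivative.eval a = 6 * a ^ 5 + 60 * ν * a ^ 4
    + 4 * (48 * ν ^ 2 - 18 * ν + 9) * a ^ 3 + 3 * (64 * ν ^ 3 - 72 * ν ^ 2 + 18 * ν) * a ^ 2
    - 2 * s * a + (54 * ν ^ 2 - 54 * ν) := by
  simp only [fp, derivative_add, derivative_sub, derivative_C_mul, derivative_X_pow,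
    derivative_X, derivative_C, eval_add, eval_sub, eval_mul, eval_pow, eval_X, eval_C,
    eval_zero, eval_one]
  push_cast
  ring

theorem vdm (w : Fin 6 → F) :
    ∏ i, ∏ j ∈ Finset.univ.erase i, (w i - w j)
      = - (∏ i, ∏ j ∈ Finset.Ioi i, (w j - w i)) ^ 2 := by
  have c0 : (Finset.univ : Finset (Fin 6)).erase 0 = {1, 2, 3, 4, 5} := by decide
  have c1 : (Finset.univ : Finset (Fin 6)).erase 1 = {0, 2, 3, 4, 5} := by decide
  have c2 : (Finset.univ : Finset (Fin 6)).erase 2 = {0, 1, 3, 4, 5} := by decide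
  have c3 : (Finset.univ : Finset (Fin 6)).erase 3 = {0, 1, 2, 4, 5} := by decide
  have c4 : (Finset.univ : Finset (Fin 6)).erase 4 = {0, 1, 2, 3, 5} := by decide
  have c5 : (Finset.univ : Finset (Fin 6)).erase 5 = {0, 1, 2, 3, 4} := by decide
  have d0 : (Finset.Ioi (0 : Fin 6)) = {1, 2, 3, 4, 5} := by decide
  have d1 : (Finset.Ioi (1 : Fin 6)) = {2, 3, 4, 5} := by decide
  have d2 : (Finset.Ioi (2 : Fin 6)) = {3, 4, 5} := by decide
  have d3 : (Finset.Ioi (3 : Fin 6)) = {4, 5} := by decide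
  have d4 : (Finset.Ioi (4 : Fin 6)) = {5} := by decide
  have d5 : (Finset.Ioi (5 : Fin 6)) = ∅ := by decide
  rw [Fin.prod_univ_six, Fin.prod_univ_six, c0, c1, c2, c3, c4, c5, d0, d1, d2, d3, d4, d5]
  rw [Finset.prod_insert (by decide), Finset.prod_insert (by decide),
    Finset.prod_insert (by decide), Finset.prod_pair (by decide),
    Finset.prod_insert (by decide), Finset.prod_insert (by decide),
    Finset.prod_insert (by decide), Finset.prod_pair (by decide),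
    Finset.prod_insert (by decide), Finset.prod_insert (by decide),
    Finset.prod_insert (by decide), Finset.prod_pair (by decide),
    Finset.prod_insert (by decide), Finset.prod_insert (by decide),
    Finset.prod_insert (by decide), Finset.prod_pair (by decide),
    Finset.prod_insert (by decide), Finset.prod_insert (by decide),
    Finset.prod_insert (by decide), Finset.prod_pair (by decide),
    Finset.prod_insert (by decide), Finset.prod_insert (by decide),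
    Finset.prod_insert (by decide), Finset.prod_pair (by decide),
    Finset.prod_insert (by decide), Finset.prod_insert (by decide),
    Finset.prod_insert (by decide), Finset.prod_pair (by decide),
    Finset.prod_insert (by decide), Finset.prod_insert (by decide),
    Finset.prod_pair (by decide),
    Finset.prod_insert (by decide), Finset.prod_pair (by decide),
    Finset.prod_pair (by decide), Finset.prod_singleton, Finset.prod_empty]
  rw [← neg_sub (w 1) (w 0), ← neg_sub (w 2) (w 0), ← neg_sub (w 3) (w 0), ← neg_sub (w 4) (w 0),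
    ← neg_sub (w 5) (w 0), ← neg_sub (w 2) (w 1), ← neg_sub (w 3) (w 1), ← neg_sub (w 4) (w 1),
    ← neg_sub (w 5) (w 1), ← neg_sub (w 3) (w 2), ← neg_sub (w 4) (w 2), ← neg_sub (w 5) (w 2),
    ← neg_sub (w 4) (w 3), ← neg_sub (w 5) (w 3), ← neg_sub (w 5) (w 4)]
  generalize w 1 - w 0 = a1
  generalize w 2 - w 0 = a2
  generalize w 3 - w 0 = a3
  generalize w 4 - w 0 = a4
  generalize w 5 - w 0 = a5
  generalize w 2 - w 1 = a6
  generalize w 3 - w 1 = a7
  generalize w 4 - w 1 = a8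
  generalize w 5 - w 1 = a9
  generalize w 3 - w 2 = a10
  generalize w 4 - w 2 = a11
  generalize w 5 - w 2 = a12
  generalize w 4 - w 3 = a13
  generalize w 5 - w 3 = a14
  generalize w 5 - w 4 = a15
  ring

theorem deriv_root (ν s : F) (w : Fin 6 → F) (h : fp ν s = ∏ i, (X - C (w i))) (i : Fin 6) :
    (fp ν s).derivative.eval (w i) = ∏ j ∈ Finset.univ.erase i, (w i - w j) := by
  have h1 : fp ν s = Lagrange.nodal Finset.univ w := by rw [h]; rfl
  rw [h1, Lagrange.eval_nodal_derivative_eval_node_eq (Finset.mem_univ i), Lagrange.nodal,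
    eval_prod]
  simp

theorem prod_sub (ν s r : F) (w : Fin 6 → F) (h : fp ν s = ∏ i, (X - C (w i))) :
    ∏ i, (w i - r) = (fp ν s).eval r := by
  rw [h, eval_prod, Fin.prod_univ_six, Fin.prod_univ_six]
  simp only [eval_sub, eval_X, eval_C]
  ring

theorem prod_w (ν s : F) (w : Fin 6 → F) (h : fp ν s = ∏ i, (X - C (w i))) :
    ∏ i, w i = 27 := by
  have := prod_sub ν s 0 w h
  simp only [sub_zero] at this
  rw [this, eval_fp]
  ring

variable [CharZero F]

theorem prod_g [IsAlgClosed F] (s u : F) (w : Fin 6 → F) (hu : u ≠ 0)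
    (h : fp (nu u) s = ∏ i, (X - C (w i))) :
    ∏ i, (w i ^ 2 - p0 u * w i + 3 * u) = (s - s0 u) ^ 2 * (3 * u) ^ 2 := by
  obtain ⟨r, hr⟩ : ∃ r : F, r ^ 2 - p0 u * r + 3 * u = 0 := by
    have hdeg : (X ^ 2 - C (p0 u) * X + C (3 * u) : F[X]).degree ≠ 0 := by
      have : (X ^ 2 - C (p0 u) * X + C (3 * u) : F[X]) = C 1 * X ^ 2 + C (-p0 u) * X + C (3 * u) := by
        simp; ring
      rw [this, degree_quadratic one_ne_zero]
      decide
    obtain ⟨r, hr⟩ := IsAlgClosed.exists_root _ hdeg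
    refine ⟨r, ?_⟩
    rw [IsRoot] at hr
    simpa using hr
  have e : ∀ i, w i ^ 2 - p0 u * w i + 3 * u = (w i - r) * (w i - (p0 u - r)) := by
    intro i; linear_combination hr
  have hr' : (p0 u - r) ^ 2 - p0 u * (p0 u - r) + 3 * u = 0 := by linear_combination hr
  simp_rw [e]
  rw [Finset.prod_mul_distrib, prod_sub _ _ _ _ h, prod_sub _ _ _ _ h, eval_fact u r hu,
    eval_fact u _ hu, hr, hr']
  have : r * (p0 u - r) = 3 * u := by linear_combination -hr
  rw [← this]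
  ring

theorem key (ν s u₁ u₂ u₃ W : F) (h1 : u₁ ≠ 0) (h2 : u₂ ≠ 0) (h3 : u₃ ≠ 0) (hν1 : nu u₁ = ν)
    (hν2 : nu u₂ = ν) (hν3 : nu u₃ = ν) (ht : Trip ν u₁ u₂ u₃) :
    W * (fp ν s).derivative.eval W - 2 * (fp ν s).eval W
      = 4 * ((W ^ 2 - p0 u₁ * W + 3 * u₁) * (W ^ 2 - p0 u₂ * W + 3 * u₂)
        * (W ^ 2 - p0 u₃ * W + 3 * u₃)) := by
  rw [eval_deriv_fp, eval_fp]
  have e1 : p0 u₁ = 1 - 4 * ν - 2 * u₁ - 2 * (u₂ * u₃) := by
    have := ht.h3
    rw [← hν1]; unfold p0 nu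
    field_simp
    linear_combination 6 * this
  have e2 : p0 u₂ = 1 - 4 * ν - 2 * u₂ - 2 * (u₁ * u₃) := by
    have := ht.h3
    rw [← hν2]; unfold p0 nu
    field_simp
    linear_combination 6 * this
  have e3 : p0 u₃ = 1 - 4 * ν - 2 * u₃ - 2 * (u₁ * u₂) := by
    have := ht.h3
    rw [← hν3]; unfold p0 nu
    field_simp
    linear_combination 6 * this
  have hσ : u₂ + u₃ = 3 / 2 - u₁ := by linear_combination ht.h1
  have hπ : u₂ * u₃ = -1 / (2 * u₁) := by
    rw [eq_div_iff (mul_ne_zero two_ne_zero h1)]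
    linear_combination 2 * ht.h3
  have e23 : (W ^ 2 - p0 u₂ * W + 3 * u₂) * (W ^ 2 - p0 u₃ * W + 3 * u₃)
      = W ^ 4 - (2 - 8 * ν - 2 * (u₂ + u₃) - 2 * u₁ * (u₂ + u₃)) * W ^ 3
        + ((1 - 4 * ν) ^ 2 - (1 - 4 * ν) * (2 * (u₂ + u₃) + 2 * u₁ * (u₂ + u₃))
          + 4 * ((u₂ * u₃) + u₁ * ((u₂ + u₃) ^ 2 - 2 * (u₂ * u₃)) + u₁ ^ 2 * (u₂ * u₃))
          + 3 * (u₂ + u₃)) * W ^ 2
        - 3 * ((1 - 4 * ν) * (u₂ + u₃) - 4 * (u₂ * u₃)
          - 2 * u₁ * ((u₂ + u₃) ^ 2 - 2 * (u₂ * u₃))) * W + 9 * (u₂ * u₃) := by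
    rw [e2, e3]; ring
  rw [mul_assoc (W ^ 2 - p0 u₁ * W + 3 * u₁), e23, e1, hσ, hπ, ← hν1]
  unfold nu
  field_simp
  ring

end DiscAux

open DiscAux in
theorem stDisc : StDisc := by
  intro F _ _ _ ν s u₁ u₂ u₃ w h1 h2 h3 hν1 hν2 hν3 ht hw
  have hroot : ∀ i, (fp ν s).eval (w i) = 0 := fun i => isRoot_of_rts hw i
  have hk : ∀ i, w i * (fp ν s).derivative.eval (w i)
      = 4 * ((w i ^ 2 - p0 u₁ * w i + 3 * u₁) * (w i ^ 2 - p0 u₂ * w i + 3 * u₂)
        * (w i ^ 2 - p0 u₃ * w i + 3 * u₃)) := by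
    intro i
    have := key ν s u₁ u₂ u₃ (w i) h1 h2 h3 hν1 hν2 hν3 ht
    rw [hroot i] at this
    linear_combination this
  have hP : ∏ i, (w i * (fp ν s).derivative.eval (w i))
      = 4 ^ 6 * (((s - s0 u₁) ^ 2 * (3 * u₁) ^ 2) * ((s - s0 u₂) ^ 2 * (3 * u₂) ^ 2)
        * ((s - s0 u₃) ^ 2 * (3 * u₃) ^ 2)) := by
    simp_rw [hk]
    rw [Finset.prod_mul_distrib, Finset.prod_mul_distrib, Finset.prod_mul_distrib,
      prod_g s u₁ w h1 (hν1 ▸ hw.2), prod_g s u₂ w h2 (hν2 ▸ hw.2), prod_g s u₃ w h3 (hν3 ▸ hw.2)]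
    simp
  rw [Finset.prod_mul_distrib, prod_w ν s w hw.2] at hP
  have hD : ∏ i, (fp ν s).derivative.eval (w i)
      = - (∏ i, ∏ j ∈ Finset.Ioi i, (w j - w i)) ^ 2 := by
    rw [← vdm]
    exact Finset.prod_congr rfl fun i _ => deriv_root ν s w hw.2 i
  rw [hD] at hP
  have hu : (u₁ * u₂ * u₃) ^ 2 = 1 / 4 := by rw [ht.h3]; norm_num
  linear_combination (-1/27) * hP - (4 ^ 6 * 729 / 27) * ((s - s0 u₁) ^ 2 * (s - s0 u₂) ^ 2 * (s - s0 u₃) ^ 2) * hu

end Pool.MP_bfb583_al.EC
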