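import Pool.Agent.Lib.MP_bfb583_al.EC.G2

/-!
# G1: a flag transitive even group on six points is `A₆`
-/

namespace Pool.MP_bfb583_al.EC

namespace G1

open Equiv Equiv.Perm

/-- The first five points. -/
def f5 : Fin 5 ≃ {x : Fin 6 // x ≠ Fin.last 5} := finSuccAboveEquiv (Fin.last 5)

theorem f5_val (i : Fin 5) : ((f5 i : {x : Fin 6 // x ≠ Fin.last 5}) : Fin 6) = i.castSucc := by
  show ((finSuccAboveEquiv (Fin.last 5) i : {x : Fin 6 // x ≠ Fin.last 5}) : Fin 6) = i.castSucc
  rw [finSuccAboveEquiv_apply]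
  exact Fin.succAbove_last_apply i

theorem ext_castSucc (σ : Perm (Fin 5)) (i : Fin 5) :
    extendDomainHom f5 σ i.castSucc = (σ i).castSucc := by
  rw [← f5_val, ← f5_val]
  exact Equiv.Perm.extendDomain_apply_image σ f5 i

theorem ext_last (σ : Perm (Fin 5)) : extendDomainHom f5 σ (Fin.last 5) = Fin.last 5 :=
  Equiv.Perm.extendDomain_apply_not_subtype σ f5 (by simp)

/-- A permutation fixing the last point comes from five points. -/
theorem exists_restr (h : Perm (Fin 6)) (hl : h (Fin.last 5) = Fin.last 5) :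
    ∃ σ : Perm (Fin 5), extendDomainHom f5 σ = h ∧ ∀ i, (σ i).castSucc = h i.castSucc := by
  have hp : ∀ x, h x ≠ Fin.last 5 ↔ x ≠ Fin.last 5 := by
    intro x
    constructor
    · rintro hx rfl
      exact hx hl
    · intro hx e
      apply hx
      apply h.injective
      rw [e, hl]
  set τ : Perm {x : Fin 6 // x ≠ Fin.last 5} := h.subtypePerm hp with hτ
  set σ : Perm (Fin 5) := (f5.trans τ).trans f5.symm with hσ
  have h1 : ∀ i, (σ i).castSucc = h i.castSucc := by
    intro i
    rw [← f5_val, hσ]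
    simp only [Equiv.trans_apply, Equiv.apply_symm_apply]
    show h (f5 i : {x : Fin 6 // x ≠ Fin.last 5}) = h i.castSucc
    rw [f5_val]
  refine ⟨σ, ?_, h1⟩
  ext x
  congr 1
  refine Fin.lastCases ?_ (fun i => ?_) x
  · rw [ext_last, hl]
  · rw [ext_castSucc, h1]

end G1

open G1 Equiv Equiv.Perm Pointwise in
theorem stG1 : StG1 := by
  classical
  intro H hH hflag
  set K : Subgroup (Perm (Fin 5)) := H.comap (extendDomainHom f5) with hK
  have hKA : K ≤ alternatingGroup (Fin 5) := by
    intro σ hσ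
    have h1 := hH (Subgroup.mem_comap.1 hσ)
    rw [mem_alternatingGroup] at h1 ⊢
    rw [← h1]
    exact (sign_extendDomain σ f5).symm
  have hpair : ∀ i j i' j' : Fin 5, i ≠ j → i' ≠ j' →
      ∃ σ ∈ K, (σ i = i' ∧ σ j = j') ∨ (σ i = j' ∧ σ j = i') := by
    intro i j i' j' hij hij'
    have hc : ∀ k : Fin 5, Fin.last 5 ≠ k.castSucc := fun k => (Fin.castSucc_lt_last k).ne'
    have hne : i.castSucc ≠ j.castSucc := fun e => hij (Fin.castSucc_injective _ e)
    have hne' : i'.castSucc ≠ j'.castSucc := fun e => hij' (Fin.castSucc_injective _ e)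
    obtain ⟨h, hh, h1, h2⟩ := hflag i.castSucc j.castSucc (Fin.last 5) i'.castSucc j'.castSucc
      (Fin.last 5) hne (hc i) (hc j) hne' (hc i') (hc j')
    obtain ⟨σ, hσ, hσ'⟩ := exists_restr h h2
    refine ⟨σ, ?_, ?_⟩
    · rw [hK, Subgroup.mem_comap, hσ]
      exact hh
    · rw [← hσ', ← hσ'] at h1
      rcases h1 with ⟨a, b⟩ | ⟨a, b⟩
      · exact Or.inl ⟨Fin.castSucc_injective _ a, Fin.castSucc_injective _ b⟩
      · exact Or.inr ⟨Fin.castSucc_injective _ a, Fin.castSucc_injective _ b⟩
  have hKeq : K = alternatingGroup (Fin 5) := by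
    by_contra hne
    rcases stG2 K hKA hne with ⟨i, hi⟩ | ⟨i, j, hij, hi⟩ | ⟨c, hc, hcs, hn⟩
    · have hex : ∀ i : Fin 5, ∃ j a b : Fin 5, i ≠ j ∧ a ≠ b ∧ i ≠ a ∧ i ≠ b := by decide
      obtain ⟨j, a, b, h1, h2, h3, h4⟩ := hex i
      obtain ⟨σ, hσ, h5⟩ := hpair i j a b h1 h2
      have h6 := hi σ hσ
      rcases h5 with ⟨h5, -⟩ | ⟨h5, -⟩
      · exact h3 (h6.symm.trans h5)
      · exact h4 (h6.symm.trans h5)
    · have hex : ∀ i j : Fin 5, ∃ k : Fin 5, k ≠ i ∧ k ≠ j := by decide
      obtain ⟨k, hki, hkj⟩ := hex i j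
      obtain ⟨σ, hσ, h5⟩ := hpair i j i k hij hki.symm
      rcases hi σ hσ with ⟨h6, h7⟩ | ⟨h6, h7⟩
      · rcases h5 with ⟨h5, h8⟩ | ⟨h5, h8⟩
        · exact hkj (h8.symm.trans h7)
        · exact hki (h5.symm.trans h6)
      · rcases h5 with ⟨h5, h8⟩ | ⟨h5, h8⟩
        · exact hij (h5.symm.trans h6)
        · exact hkj (h5.symm.trans h6)
    · have hord : orderOf c = 5 := by
        rw [hc.orderOf, hcs]
        simp
      have hc5 : ∀ x, c (c (c (c (c x)))) = x := by
        intro x
        have h1 := pow_orderOf_eq_one c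
        rw [hord] at h1
        have h2 := DFunLike.congr_fun h1 x
        simpa [pow_succ] using h2
      have hc1 : ∀ x, c x ≠ x := by
        intro x
        have : x ∈ c.support := by rw [hcs]; exact Finset.mem_univ _
        exact mem_support.1 this
      have hc2 : ∀ x, c (c x) ≠ x := by
        intro x e
        have h1 := hc5 x
        rw [e, e] at h1
        exact hc1 x h1
      have hc3 : ∀ x, c (c (c x)) ≠ x := by
        intro x e
        have h1 := hc5 (c x)
        rw [e] at h1
        have h2 : c (c (c x)) = c x := h1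
        rw [e] at h2
        exact hc1 x h2.symm
      obtain ⟨σ, hσ, h5⟩ := hpair 0 (c 0) 0 (c (c 0)) (hc1 0).symm (hc2 0).symm
      have hcomm : σ (c 0) = c (σ 0) ∨ c (σ (c 0)) = σ 0 := by
        rcases hn σ hσ with h1 | h1
        · left
          have h2 : σ * c = c * σ := by
            calc σ * c = (σ * c * σ⁻¹) * σ := by group
              _ = c * σ := by rw [h1]
          exact DFunLike.congr_fun h2 0
        · right
          have h2 : c * (σ * c) = σ := by
            calc c * (σ * c) = c * ((σ * c * σ⁻¹) * σ) := by group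
              _ = c * (c⁻¹ * σ) := by rw [h1]
              _ = σ := by group
          exact DFunLike.congr_fun h2 0
      rcases h5 with ⟨h5, h6⟩ | ⟨h5, h6⟩
      · rw [h5, h6] at hcomm
        rcases hcomm with h7 | h7
        · exact hc1 0 (c.injective h7)
        · exact hc3 0 h7
      · rw [h5, h6] at hcomm
        rcases hcomm with h7 | h7
        · exact hc3 0 h7.symm
        · exact hc1 0 (c.injective h7.symm)
  -- a three-cycle
  have h3K : swap (0 : Fin 5) 1 * swap 1 2 ∈ K := by
    rw [hKeq, mem_alternatingGroup]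
    decide
  have h3H : extendDomainHom f5 (swap (0 : Fin 5) 1 * swap 1 2) ∈ H := Subgroup.mem_comap.1 h3K
  have h3 : (extendDomainHom f5 (swap (0 : Fin 5) 1 * swap 1 2)).IsThreeCycle := by
    have h4 : (swap (0 : Fin 5) 1 * swap 1 2).IsThreeCycle := by
      apply G2.isThreeCycle_of_pow
      · decide
      · decide
    unfold IsThreeCycle at h4 ⊢
    rw [← h4]
    exact cycleType_extendDomain f5
  -- primitivity
  have htr : MulAction.IsPretransitive H (Fin 6) := by
    constructor
    intro x y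
    have hex : ∀ x : Fin 6, ∃ a b : Fin 6, a ≠ b ∧ x ≠ a ∧ x ≠ b := by decide
    obtain ⟨a, b, h1, h2, h3⟩ := hex x
    obtain ⟨a', b', h1', h2', h3'⟩ := hex y
    obtain ⟨h, hh, -, h4⟩ := hflag a b x a' b' y h1 h2 h3 h1' h2' h3'
    exact ⟨⟨h, hh⟩, h4⟩
  have hprim : MulAction.IsPreprimitive H (Fin 6) := by
    constructor
    intro B hB
    by_cases hs : B.Subsingleton
    · exact Or.inl hs
    · right
      rw [Set.not_subsingleton_iff] at hs
      obtain ⟨a, ha, b, hb, hab⟩ := hs
      by_contra hne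
      obtain ⟨c, hc⟩ := (Set.ne_univ_iff_exists_notMem B).1 hne
      have hac : a ≠ c := by rintro rfl; exact hc ha
      have hex : ∀ a b : Fin 6, ∃ d : Fin 6, d ≠ a ∧ d ≠ b := by decide
      obtain ⟨d, hd1, hd2⟩ := hex a b
      obtain ⟨d', hd1', hd2'⟩ := hex a c
      obtain ⟨h, hh, h1, -⟩ := hflag a b d a c d' hab hd1 hd2 hac hd1' hd2'
      set g : H := ⟨h, hh⟩ with hg
      have hga : ∀ x ∈ B, h x ∈ (g • B : Set (Fin 6)) := fun x hx => ⟨x, hx, rfl⟩
      have haB : a ∈ (g • B : Set (Fin 6)) := by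
        rcases h1 with ⟨h1, -⟩ | ⟨-, h1⟩
        · rw [← h1]; exact hga a ha
        · rw [← h1]; exact hga b hb
      have hcB : c ∈ (g • B : Set (Fin 6)) := by
        rcases h1 with ⟨-, h1⟩ | ⟨h1, -⟩
        · rw [← h1]; exact hga b hb
        · rw [← h1]; exact hga a ha
      rcases (MulAction.isBlock_iff_smul_eq_or_disjoint.1 hB) g with h2 | h2
      · rw [h2] at hcB
        exact hc hcB
      · exact Set.disjoint_left.1 h2 haB ha
  exact le_antisymm hH (alternatingGroup_le_of_isPreprimitive_of_isThreeCycle_mem hprim h3 h3H)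

end Pool.MP_bfb583_al.EC
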