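import Pool.Agent.Lib.MP_bfb583_al.EC.Stmts

/-!
# G2: proper subgroups of `A₅`
-/

namespace Pool.MP_bfb583_al.EC

namespace G2

open Equiv Equiv.Perm

theorem dec : ∀ h : Perm (Fin 5), sign h = 1 → h * finRotate 5 * h⁻¹ ≠ finRotate 5 →
    h * finRotate 5 * h⁻¹ ≠ (finRotate 5)⁻¹ → ∃ i j : Fin 5,
      ((finRotate 5) ^ (i : ℕ) * h * (finRotate 5) ^ (j : ℕ)) ^ 3 = 1 ∧
      (finRotate 5) ^ (i : ℕ) * h * (finRotate 5) ^ (j : ℕ) ≠ 1 := by
  decide +kernel

theorem isThreeCycle_of_pow {σ : Perm (Fin 5)} (h3 : σ ^ 3 = 1) (h1 : σ ≠ 1) :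
    σ.IsThreeCycle := by
  have ho : orderOf σ = 3 := orderOf_eq_prime h3 h1
  have hp : (orderOf σ).Prime := by rw [ho]; norm_num
  obtain ⟨n, hn⟩ := cycleType_prime_order hp
  have hs : σ.cycleType.sum ≤ 5 := by
    rw [sum_cycleType]
    exact (Finset.card_le_univ _).trans (by simp)
  rw [hn, ho, Multiset.sum_replicate, smul_eq_mul] at hs
  have hn0 : n = 0 := by omega
  unfold IsThreeCycle
  rw [hn, ho, hn0]
  rfl

/-- An invariant set with one or two elements. -/
theorem small (H : Subgroup (Perm (Fin 5))) (A : Finset (Fin 5)) (hA : A.Nonempty)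
    (hc : A.card ≤ 2) (hinv : ∀ h ∈ H, ∀ a ∈ A, h a ∈ A) :
    (∃ i : Fin 5, ∀ h ∈ H, h i = i) ∨
    (∃ i j : Fin 5, i ≠ j ∧ ∀ h ∈ H, (h i = i ∧ h j = j) ∨ (h i = j ∧ h j = i)) := by
  have hpos := hA.card_pos
  have h12 : A.card = 1 ∨ A.card = 2 := by omega
  rcases h12 with h1 | h2
  · obtain ⟨i, rfl⟩ := Finset.card_eq_one.1 h1
    left
    refine ⟨i, fun h hh => ?_⟩
    simpa using hinv h hh i (by simp)
  · obtain ⟨i, j, hij, rfl⟩ := Finset.card_eq_two.1 h2
    right
    refine ⟨i, j, hij, fun h hh => ?_⟩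
    have h3 := hinv h hh i (by simp)
    have h4 := hinv h hh j (by simp)
    simp only [Finset.mem_insert, Finset.mem_singleton] at h3 h4
    have h5 : h i ≠ h j := fun e => hij (h.injective e)
    rcases h3 with h3 | h3 <;> rcases h4 with h4 | h4
    · exact absurd (h3.trans h4.symm) h5
    · exact Or.inl ⟨h3, h4⟩
    · exact Or.inr ⟨h3, h4⟩
    · exact absurd (h3.trans h4.symm) h5

end G2

open G2 Equiv Equiv.Perm in
theorem stG2 : StG2 := by
  classical
  intro H hH hne
  by_cases ht : ∀ x y : Fin 5, ∃ h ∈ H, h x = y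
  · right; right
    have htr : MulAction.IsPretransitive H (Fin 5) := by
      constructor
      intro x y
      obtain ⟨h, hh, hxy⟩ := ht x y
      exact ⟨⟨h, hh⟩, hxy⟩
    have hprim : MulAction.IsPreprimitive H (Fin 5) :=
      MulAction.IsPreprimitive.of_prime_card (by simp; norm_num)
    have h5 : 5 ∣ Fintype.card H := by
      have h6 := MulAction.card_orbit_mul_card_stabilizer_eq_card_group H (0 : Fin 5)
      have h7 : Fintype.card (MulAction.orbit H (0 : Fin 5)) = 5 := by
        rw [Fintype.card_congr (Equiv.setCongr (MulAction.orbit_eq_univ H (0 : Fin 5)))]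
        simp
      rw [h7] at h6
      exact ⟨_, h6.symm⟩
    have : Fact (Nat.Prime 5) := ⟨by norm_num⟩
    obtain ⟨⟨c, hcH⟩, hc⟩ := exists_prime_orderOf_dvd_card 5 h5
    have hc5 : orderOf c = 5 := (Subgroup.orderOf_coe (⟨c, hcH⟩ : H)).trans hc
    have hcyc : c.IsCycle := by
      refine isCycle_of_prime_order'' (by simp; norm_num) ?_
      rw [hc5]
      simp
    have hsupp : c.support = Finset.univ := by
      rw [← Finset.card_eq_iff_eq_univ, ← hcyc.orderOf, hc5]
      simp
    refine ⟨c, hcyc, hsupp, fun h hh => ?_⟩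
    by_contra hcon
    push Not at hcon
    obtain ⟨hcon1, hcon2⟩ := hcon
    -- conjugate to the standard cycle
    have hrot : (finRotate 5).IsCycle := isCycle_finRotate
    have hconj : IsConj (finRotate 5) c := by
      rw [hrot.isConj_iff hcyc, hsupp, support_finRotate]
    obtain ⟨g, hg⟩ := isConj_iff.1 hconj
    have hg' : finRotate 5 = g⁻¹ * c * g := by rw [← hg]; group
    have hsign : sign (g⁻¹ * h * g) = 1 := by
      have := hH hh
      rw [mem_alternatingGroup] at this
      rw [map_mul, map_mul, this, map_inv]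
      simp
    obtain ⟨i, j, h3, h1⟩ := dec (g⁻¹ * h * g) hsign
      (by
        intro e
        apply hcon1
        rw [hg'] at e
        have e2 : g * (g⁻¹ * h * g * (g⁻¹ * c * g) * (g⁻¹ * h * g)⁻¹) * g⁻¹ =
            g * (g⁻¹ * c * g) * g⁻¹ := by rw [e]
        calc h * c * h⁻¹ = g * (g⁻¹ * h * g * (g⁻¹ * c * g) * (g⁻¹ * h * g)⁻¹) * g⁻¹ := by group
          _ = _ := e2
          _ = c := by group)
      (by
        intro e
        apply hcon2
        rw [hg'] at e
        have e2 : g * (g⁻¹ * h * g * (g⁻¹ * c * g) * (g⁻¹ * h * g)⁻¹) * g⁻¹ =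
            g * (g⁻¹ * c * g)⁻¹ * g⁻¹ := by rw [e]
        calc h * c * h⁻¹ = g * (g⁻¹ * h * g * (g⁻¹ * c * g) * (g⁻¹ * h * g)⁻¹) * g⁻¹ := by group
          _ = _ := e2
          _ = c⁻¹ := by group)
    have hpow : ∀ n : ℕ, (finRotate 5) ^ n = g⁻¹ * c ^ n * g := by
      intro n
      rw [hg']
      have := conj_pow (a := g⁻¹) (b := c) (i := n)
      rw [inv_inv] at this
      exact this
    set σ := c ^ (i : ℕ) * h * c ^ (j : ℕ) with hσ
    have hσ' : (finRotate 5) ^ (i : ℕ) * (g⁻¹ * h * g) * (finRotate 5) ^ (j : ℕ) =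
        g⁻¹ * σ * g := by
      rw [hpow, hpow, hσ]
      group
    rw [hσ'] at h3 h1
    have hσ3 : σ ^ 3 = 1 := by
      have h8 := conj_pow (a := g⁻¹) (b := σ) (i := 3)
      rw [inv_inv] at h8
      rw [h8] at h3
      have : σ ^ 3 = g * (g⁻¹ * σ ^ 3 * g) * g⁻¹ := by group
      rw [this, h3]
      group
    have hσ1 : σ ≠ 1 := by
      intro e
      apply h1
      rw [e]
      group
    have hσH : σ ∈ H := mul_mem (mul_mem (pow_mem hcH _) hh) (pow_mem hcH _)
    exact hne (le_antisymm hH (alternatingGroup_le_of_isPreprimitive_of_isThreeCycle_mem hprim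
      (isThreeCycle_of_pow hσ3 hσ1) hσH))
  · push Not at ht
    obtain ⟨x, y, hxy⟩ := ht
    set A : Finset (Fin 5) := Finset.univ.filter (fun z => ∃ h ∈ H, h x = z) with hA
    have hAinv : ∀ h ∈ H, ∀ a ∈ A, h a ∈ A := by
      intro h hh a ha
      simp only [hA, Finset.mem_filter, Finset.mem_univ, true_and] at ha ⊢
      obtain ⟨h', hh', rfl⟩ := ha
      exact ⟨h * h', mul_mem hh hh', rfl⟩
    have hxA : x ∈ A := by
      simp only [hA, Finset.mem_filter, Finset.mem_univ, true_and]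
      exact ⟨1, one_mem _, rfl⟩
    have hyA : y ∉ A := by
      simp only [hA, Finset.mem_filter, Finset.mem_univ, true_and]
      rintro ⟨h, hh, e⟩
      exact hxy h hh e
    have hcard : A.card + Aᶜ.card = 5 := by
      rw [Finset.card_add_card_compl]
      simp
    have h12 : A.card ≤ 2 ∨ Aᶜ.card ≤ 2 := by omega
    rcases h12 with h | h
    · rcases small H A ⟨x, hxA⟩ h hAinv with h1 | h1
      · exact Or.inl h1
      · exact Or.inr (Or.inl h1)
    · have hinv' : ∀ h ∈ H, ∀ a ∈ Aᶜ, h a ∈ Aᶜ := by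
        intro h hh a ha
        rw [Finset.mem_compl] at ha ⊢
        intro hcon
        apply ha
        have := hAinv h⁻¹ (inv_mem hh) _ hcon
        simpa using this
      rcases small H Aᶜ ⟨y, Finset.mem_compl.2 hyA⟩ h hinv' with h1 | h1
      · exact Or.inl h1
      · exact Or.inr (Or.inl h1)

end Pool.MP_bfb583_al.EC
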