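import Pool.Agent.Lib.MP_bfb583_al.EC.C1

set_option autoImplicit false

/-!
Auxiliary facts for the final assembly: separability of the sextic, the generic parameter,
germs of the explicit formulas.
-/

namespace Pool.MP_bfb583_al.EC

open Polynomial IntermediateField Filter WeierstrassCurve
open scoped Classical

section Sep

theorem exists_fac {F : Type*} [Field F] [IsAlgClosed F] (ν s : F) :
    ∃ w : Fin 6 → F, fp ν s = ∏ i, (X - C (w i)) := by
  have hm : (fp ν s).Monic := by unfold fp; monicity!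
  have hd : (fp ν s).natDegree = 6 := by unfold fp; compute_degree!
  have hs : (fp ν s).Splits := IsAlgClosed.splits _
  have hc : (fp ν s).roots.card = 6 := by rw [← hs.natDegree_eq_card_roots, hd]
  have hp := hs.eq_prod_roots_of_monic hm
  obtain ⟨l, hl⟩ : ∃ l : List F, (l : Multiset F) = (fp ν s).roots :=
    ⟨(fp ν s).roots.toList, Multiset.coe_toList _⟩
  rw [← hl] at hp hc
  rw [Multiset.coe_card] at hc
  rw [Multiset.map_coe, Multiset.prod_coe] at hp
  refine ⟨fun i => l.get (i.cast hc.symm), ?_⟩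
  rw [hp, ← List.prod_ofFn]
  congr 1
  have h0 : l = List.ofFn (fun i : Fin 6 => l.get (i.cast hc.symm)) := by
    apply List.ext_get
    · rw [List.length_ofFn, hc]
    · intro n h1 h2
      rw [List.get_ofFn]
      rfl
  conv_lhs => rw [h0]
  rw [List.map_ofFn]
  rfl

theorem disc_prod {F : Type} [Field F] [CharZero F] [IsAlgClosed F] {ν s u₁ u₂ u₃ : F}
    {w : Fin 6 → F} (h1 : u₁ ≠ 0) (h2 : u₂ ≠ 0) (h3 : u₃ ≠ 0) (hν1 : nu u₁ = ν)
    (hν2 : nu u₂ = ν) (hν3 : nu u₃ = ν) (ht : Trip ν u₁ u₂ u₃)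
    (hw : fp ν s = ∏ i, (X - C (w i))) :
    (∏ i, ∏ j ∈ Finset.Ioi i, (w j - w i)) ^ 2
      = -27 * 1024 * ((s - s0 u₁) * (s - s0 u₂) * (s - s0 u₃)) ^ 2 := by
  have hroot : ∀ i, (fp ν s).eval (w i) = 0 := fun i => by
    rw [hw, eval_prod]
    exact Finset.prod_eq_zero (Finset.mem_univ i) (by simp)
  have hk : ∀ i, w i * (fp ν s).derivative.eval (w i)
      = 4 * ((w i ^ 2 - p0 u₁ * w i + 3 * u₁) * (w i ^ 2 - p0 u₂ * w i + 3 * u₂)
        * (w i ^ 2 - p0 u₃ * w i + 3 * u₃)) := by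
    intro i
    have := DiscAux.key ν s u₁ u₂ u₃ (w i) h1 h2 h3 hν1 hν2 hν3 ht
    rw [hroot i] at this
    linear_combination this
  have hP : ∏ i, (w i * (fp ν s).derivative.eval (w i))
      = 4 ^ 6 * (((s - s0 u₁) ^ 2 * (3 * u₁) ^ 2) * ((s - s0 u₂) ^ 2 * (3 * u₂) ^ 2)
        * ((s - s0 u₃) ^ 2 * (3 * u₃) ^ 2)) := by
    simp_rw [hk]
    rw [Finset.prod_mul_distrib, Finset.prod_mul_distrib, Finset.prod_mul_distrib,
      DiscAux.prod_g s u₁ w h1 (hν1 ▸ hw), DiscAux.prod_g s u₂ w h2 (hν2 ▸ hw),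
      DiscAux.prod_g s u₃ w h3 (hν3 ▸ hw)]
    simp
  rw [Finset.prod_mul_distrib, DiscAux.prod_w ν s w hw] at hP
  have hD : ∏ i, (fp ν s).derivative.eval (w i)
      = - (∏ i, ∏ j ∈ Finset.Ioi i, (w j - w i)) ^ 2 := by
    rw [← DiscAux.vdm]
    exact Finset.prod_congr rfl fun i _ => DiscAux.deriv_root ν s w hw i
  rw [hD] at hP
  have hu : (u₁ * u₂ * u₃) ^ 2 = 1 / 4 := by rw [ht.h3]; norm_num
  linear_combination (-1/27) * hP
    - (4 ^ 6 * 729 / 27) * ((s - s0 u₁) ^ 2 * (s - s0 u₂) ^ 2 * (s - s0 u₃) ^ 2) * hu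

theorem sep_of_ne {F : Type} [Field F] [CharZero F] [IsAlgClosed F] {ν s u₁ u₂ u₃ : F}
    (h1 : u₁ ≠ 0) (h2 : u₂ ≠ 0) (h3 : u₃ ≠ 0) (hν1 : nu u₁ = ν)
    (hν2 : nu u₂ = ν) (hν3 : nu u₃ = ν) (ht : Trip ν u₁ u₂ u₃)
    (n1 : s ≠ s0 u₁) (n2 : s ≠ s0 u₂) (n3 : s ≠ s0 u₃) : (fp ν s).Separable := by
  obtain ⟨w, hw⟩ := exists_fac ν s
  have hd := disc_prod h1 h2 h3 hν1 hν2 hν3 ht hw
  have hne : ∏ i, ∏ j ∈ Finset.Ioi i, (w j - w i) ≠ 0 := by
    intro h
    rw [h] at hd
    have : -27 * 1024 * ((s - s0 u₁) * (s - s0 u₂) * (s - s0 u₃)) ^ 2 ≠ 0 :=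
      mul_ne_zero (by norm_num) (pow_ne_zero 2 (mul_ne_zero (mul_ne_zero
        (sub_ne_zero.mpr n1) (sub_ne_zero.mpr n2)) (sub_ne_zero.mpr n3)))
    exact this (by rw [← hd]; norm_num)
  rw [hw]
  apply separable_prod_X_sub_C_iff.mpr
  rw [← Matrix.det_vandermonde] at hne
  exact Matrix.det_vandermonde_ne_zero_iff.mp hne

end Sep

section Param

variable {F : Type*} [Field F] [CharZero F]

theorem root_wM {u m : F} (hu : u ≠ 0) (hd : 2 * m - e0 u ≠ 0) (hw : wM u m ≠ 0) :
    (fp (nu u) (sM u m)).IsRoot (wM u m) := by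
  rw [IsRoot, eval_fact u _ hu]
  have h1 : (wM u m + m) ^ 2 = wM u m ^ 2 + e0 u * wM u m + 3 / u ^ 2 := by
    have : wM u m * (2 * m - e0 u) = 3 / u ^ 2 - m ^ 2 := by
      unfold wM; rw [div_mul_cancel₀ _ hd]
    linear_combination this
  have h2 : tM u m * wM u m = (wM u m ^ 2 - p0 u * wM u m + 3 * u) * (wM u m + m) := by
    conv_lhs => rw [tM]
    rw [div_mul_cancel₀ _ hw]
  unfold sM
  have h3 : tM u m ^ 2 * wM u m ^ 2
      = (wM u m ^ 2 - p0 u * wM u m + 3 * u) ^ 2 * (wM u m + m) ^ 2 := by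
    rw [← mul_pow, h2, mul_pow]
  linear_combination -h3 - (wM u m ^ 2 - p0 u * wM u m + 3 * u) ^ 2 * h1

/-- the field facts about a parameter `m` transcendental over a closed subfield. -/
theorem generic_m {k Ω : Type*} [Field k] [CharZero k] [IsAlgClosed k] [Field Ω] [Algebra k Ω]
    (u : k) (m : Ω) (hu : u ≠ 0) (hm : Transcendental k m) :
    2 * m - e0 (algebraMap k Ω u) ≠ 0 ∧ wM (algebraMap k Ω u) m ≠ 0 ∧
      tM (algebraMap k Ω u) m ≠ 0 ∧
      Transcendental k (wM (algebraMap k Ω u) m) ∧ Transcendental k (sM (algebraMap k Ω u) m) := by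
  have : CharZero Ω := charZero_of_injective_algebraMap (algebraMap k Ω).injective
  have he : e0 (algebraMap k Ω u) = algebraMap k Ω (e0 u) := by simp [e0, map_ofNat]
  have hp : p0 (algebraMap k Ω u) = algebraMap k Ω (p0 u) := by simp [p0, map_ofNat]
  have hnot : ∀ c : k, m ≠ algebraMap k Ω c := by
    intro c hc; apply hm; rw [hc]; exact isAlgebraic_algebraMap c
  -- a monic quadratic equation over `k` forces `m ∈ k`
  have hquad : ∀ b c : k, m ^ 2 + algebraMap k Ω b * m + algebraMap k Ω c ≠ 0 := by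
    intro b c h
    apply hm
    refine ⟨X ^ 2 + C b * X + C c, ?_, ?_⟩
    · have : (X ^ 2 + C b * X + C c : k[X]) = C 1 * X ^ 2 + C b * X + C c := by simp
      rw [this]
      intro h0
      have := congrArg (fun p => coeff p 2) h0
      simp [coeff_X] at this
    · simpa using h
  set û := algebraMap k Ω u with hû
  have hûn : û ≠ 0 := by rw [hû, Ne, map_eq_zero]; exact hu
  have h1 : 2 * m - e0 û ≠ 0 := by
    intro h
    apply hnot (e0 u / 2)
    rw [he] at h
    have : m = algebraMap k Ω (e0 u) / 2 := by linear_combination (1/2) * h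
    rw [this]; simp [map_ofNat]
  have hwe : wM û m * (2 * m - e0 û) = 3 / û ^ 2 - m ^ 2 := by
    unfold wM; rw [div_mul_cancel₀ _ h1]
  have h2 : wM û m ≠ 0 := by
    intro h
    rw [h, zero_mul] at hwe
    apply hquad 0 (-(3 / u ^ 2))
    simp only [map_zero, zero_mul, add_zero, map_neg, map_div₀, map_pow, map_ofNat]
    rw [← hû]
    linear_combination hwe
  have hwtr : ∀ c : k, wM û m ≠ algebraMap k Ω c := by
    intro c hc
    rw [hc, he] at hwe
    apply hquad (2 * c) (-(e0 u * c) - 3 / u ^ 2)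
    simp only [map_mul, map_neg, map_sub, map_div₀, map_pow, map_ofNat]
    rw [← hû]
    linear_combination hwe
  have h4 : Transcendental k (wM û m) := transc_of_mem (by rintro ⟨c, hc⟩; exact hwtr c hc.symm)
  have h3 : tM û m ≠ 0 := by
    unfold tM
    refine div_ne_zero (mul_ne_zero ?_ ?_) h2
    · intro h
      apply h4
      refine ⟨X ^ 2 + C (-p0 u) * X + C (3 * u), ?_, ?_⟩
      · have : (X ^ 2 + C (-p0 u) * X + C (3 * u) : k[X])
            = C 1 * X ^ 2 + C (-p0 u) * X + C (3 * u) := by simp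
        rw [this]
        intro h0
        have := congrArg (fun p => coeff p 2) h0
        simp [coeff_X] at this
      · simp only [map_add, map_mul, map_pow, aeval_X, aeval_C, map_neg, map_ofNat]
        rw [← hp, ← hû]
        linear_combination h
    · intro h
      have hw : wM û m = -m := by linear_combination h
      rw [hw, he] at hwe
      apply hquad (-(e0 u)) (3 / u ^ 2)
      simp only [map_neg, map_div₀, map_pow, map_ofNat]
      rw [← hû]
      linear_combination -hwe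
  refine ⟨h1, h2, h3, h4, ?_⟩
  apply transc_of_mem
  rintro ⟨c, hc⟩
  apply h4
  have hr := root_wM hûn h1 h2
  rw [← hc] at hr
  refine ⟨fp (nu u) c, ?_, ?_⟩
  · have hm : (fp (nu u) c).Monic := by unfold fp; monicity!
    exact hm.ne_zero
  · rw [IsRoot, hû, ← map_nu (algebraMap k Ω) u, ← map_fp, eval_map_algebraMap] at hr
    exact hr

end Param

section Germs

variable {F ι : Type} [Field F] (U : Ultrafilter ι)

theorem germ_nu (a : ι → F) : ((fun i => nu (a i) : ι → F) : Germ (U : Filter ι) F)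
    = nu (a : Germ (U : Filter ι) F) := rfl

theorem germ_yp (ν a b : ι → F) : ((fun i => yp (ν i) (a i) (b i) : ι → F) :
    Germ (U : Filter ι) F) = yp (ν : Germ (U : Filter ι) F) a b := rfl

theorem germ_TT (u t y : ι → F) : ((fun i => TT (u i) (t i) (y i) : ι → F) :
    Germ (U : Filter ι) F) = TT (u : Germ (U : Filter ι) F) t y := rfl

theorem germ_xE (u t y : ι → F) : ((fun i => xE (u i) (t i) (y i) : ι → F) :
    Germ (U : Filter ι) F) = xE (u : Germ (U : Filter ι) F) t y := rfl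

theorem germ_yE (u t y z : ι → F) : ((fun i => yE (u i) (t i) (y i) (z i) : ι → F) :
    Germ (U : Filter ι) F) = yE (u : Germ (U : Filter ι) F) t y z := rfl

theorem germ_wM (u t : ι → F) : ((fun i => wM (u i) (t i) : ι → F) : Germ (U : Filter ι) F)
    = wM (u : Germ (U : Filter ι) F) t := rfl

theorem germ_tM (u t : ι → F) : ((fun i => tM (u i) (t i) : ι → F) : Germ (U : Filter ι) F)
    = tM (u : Germ (U : Filter ι) F) t := rfl

theorem germ_sM (u t : ι → F) : ((fun i => sM (u i) (t i) : ι → F) : Germ (U : Filter ι) F)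
    = sM (u : Germ (U : Filter ι) F) t := rfl

end Germs

end Pool.MP_bfb583_al.EC
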