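import Pool.Agent.Lib.MP_bfb583_al.EC.Defs

set_option autoImplicit false

namespace Pool.MP_bfb583_al.EC

open Polynomial

section Basic

variable {F : Type*} [Field F]

theorem eval_fp (ν s a : F) : (fp ν s).eval a = a ^ 6 + 12 * ν * a ^ 5
    + (48 * ν ^ 2 - 18 * ν + 9) * a ^ 4 + (64 * ν ^ 3 - 72 * ν ^ 2 + 18 * ν) * a ^ 3
    - s * a ^ 2 + (54 * ν ^ 2 - 54 * ν) * a + 27 := by
  simp [fp]

variable [CharZero F]

theorem fp_root_ne_zero {ν s a : F} (ha : (fp ν s).IsRoot a) : a ≠ 0 := by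
  rintro rfl
  rw [IsRoot, eval_fp] at ha
  norm_num at ha

theorem eval_fact (u W : F) (hu : u ≠ 0) (s : F) :
    (fp (nu u) s).eval W = (W ^ 2 - p0 u * W + 3 * u) ^ 2 * (W ^ 2 + e0 u * W + 3 / u ^ 2)
      + (s0 u - s) * W ^ 2 := by
  rw [eval_fp]
  unfold nu p0 e0 s0
  field_simp
  ring

theorem pair_F {ν s a b : F} (hab : a ≠ b) (ha : (fp ν s).IsRoot a) (hb : (fp ν s).IsRoot b) :
    (a * b) ^ 2 * ((a + b) ^ 3 + 12 * ν * (a + b) ^ 2 + (48 * ν ^ 2 - 18 * ν + 9) * (a + b)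
      + (64 * ν ^ 3 - 72 * ν ^ 2 + 18 * ν)) - 2 * (a + b) * (a * b) ^ 3 - 12 * ν * (a * b) ^ 3
      - (54 * ν ^ 2 - 54 * ν) * (a * b) - 27 * (a + b) = 0 := by
  rw [IsRoot, eval_fp] at ha hb
  have h : (a - b) * ((a * b) ^ 2 * ((a + b) ^ 3 + 12 * ν * (a + b) ^ 2
      + (48 * ν ^ 2 - 18 * ν + 9) * (a + b)
      + (64 * ν ^ 3 - 72 * ν ^ 2 + 18 * ν)) - 2 * (a + b) * (a * b) ^ 3 - 12 * ν * (a * b) ^ 3
      - (54 * ν ^ 2 - 54 * ν) * (a * b) - 27 * (a + b)) = 0 := by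
    linear_combination b ^ 2 * ha - a ^ 2 * hb
  exact (mul_eq_zero.mp h).resolve_left (sub_ne_zero.mpr hab)

theorem pair_s {ν s a b : F} (hab : a ≠ b) (ha : (fp ν s).IsRoot a) (hb : (fp ν s).IsRoot b) :
    s * (a * b) ^ 2 = -((a + b) ^ 2 - a * b) * (a * b) ^ 3 - 12 * ν * (a + b) * (a * b) ^ 3
      - (48 * ν ^ 2 - 18 * ν + 9) * (a * b) ^ 3 + (54 * ν ^ 2 - 54 * ν) * (a + b) * (a * b)
      + 27 * ((a + b) ^ 2 - a * b) := by
  rw [IsRoot, eval_fp] at ha hb
  have h : (a - b) * (s * (a * b) ^ 2 - (-((a + b) ^ 2 - a * b) * (a * b) ^ 3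
      - 12 * ν * (a + b) * (a * b) ^ 3
      - (48 * ν ^ 2 - 18 * ν + 9) * (a * b) ^ 3 + (54 * ν ^ 2 - 54 * ν) * (a + b) * (a * b)
      + 27 * ((a + b) ^ 2 - a * b))) = 0 := by
    linear_combination b ^ 3 * ha - a ^ 3 * hb
  exact sub_eq_zero.mp ((mul_eq_zero.mp h).resolve_left (sub_ne_zero.mpr hab))

/-- the quantity `Z + M`. -/
def zz (ν a b : F) : F :=
  (a * b / 3) * (a + b + 4 * ν) + (a * b / 3 - 1) * (2 * (a * b / 3) + 1)

theorem pair_cubic {ν s a b : F} (hab : a ≠ b) (ha : (fp ν s).IsRoot a)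
    (hb : (fp ν s).IsRoot b) {x M : F} (hx : x = a * b / 3) (hM : M = (x - 1) * (2 * x + 1)) :
    2 * zz ν a b ^ 3 - 6 * M * zz ν a b ^ 2 - 12 * x * zz ν a b * (3 * ν * x - (x - 1) * M)
      - 4 * (3 * ν * x - (x - 1) * M) ^ 2 = 0 := by
  have h := pair_F hab ha hb
  have hQ : a * b = 3 * x := by rw [hx]; ring
  unfold zz
  rw [← hx, ← hM]
  rw [hQ] at h
  generalize a + b = P at *
  subst hM
  linear_combination (2 * x / 9) * h

theorem deriv_root_ne_zero {ν s a : F} (hsep : (fp ν s).Separable) (ha : (fp ν s).IsRoot a) :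
    (fp ν s).derivative.eval a ≠ 0 := by
  intro h
  obtain ⟨p, q, hpq⟩ := hsep
  have := congrArg (eval a) hpq
  rw [eval_add, eval_mul, eval_mul, IsRoot.def.mp ha, h] at this
  simp at this

theorem zz_ne_zero {ν s a b : F} (hsep : (fp ν s).Separable) (hab : a ≠ b)
    (ha : (fp ν s).IsRoot a) (hb : (fp ν s).IsRoot b) : zz ν a b ≠ 0 := by
  intro hz
  set x : F := a * b / 3 with hx
  set M : F := (x - 1) * (2 * x + 1) with hM
  have ha0 := fp_root_ne_zero ha
  have hb0 := fp_root_ne_zero hb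
  have hx0 : x ≠ 0 := div_ne_zero (mul_ne_zero ha0 hb0) three_ne_zero
  have h1 := pair_cubic hab ha hb hx hM
  rw [hz] at h1
  have h2 : 3 * ν * x - (x - 1) * M = 0 := by
    have : (3 * ν * x - (x - 1) * M) ^ 2 = 0 := by linear_combination (-1/4) * h1
    exact pow_eq_zero_iff (two_ne_zero) |>.mp this
  have hν : ν = nu x := by
    unfold nu
    rw [eq_div_iff (mul_ne_zero three_ne_zero hx0)]
    linear_combination h2 + (x-1) * hM
  have hP : x * (a + b) = - M - 4 * ν * x := by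
    have : zz ν a b = x * (a + b + 4 * ν) + M := by rw [hM, hx]; rfl
    rw [this] at hz
    linear_combination hz
  have hP2 : p0 x = a + b := by
    unfold p0
    rw [div_eq_iff (mul_ne_zero three_ne_zero hx0)]
    linear_combination (-3) * hP + 4 * h2 - (1 - 4 * x) * hM
  have key : ∀ W, (fp ν s).eval W = ((W - a) * (W - b)) ^ 2 * (W ^ 2 + e0 x * W + 3 / x ^ 2)
      + (s0 x - s) * W ^ 2 := by
    intro W
    rw [hν, eval_fact x W hx0 s, hP2]
    have : 3 * x = a * b := by rw [hx]; ring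
    rw [this]; ring
  have hs : s0 x = s := by
    have := key a
    rw [IsRoot.def.mp ha] at this
    have h3 : (s0 x - s) * a ^ 2 = 0 := by linear_combination -this
    exact sub_eq_zero.mp ((mul_eq_zero.mp h3).resolve_right (pow_ne_zero 2 ha0))
  have hpoly : fp ν s = ((X - C a) * (X - C b)) ^ 2 * (X ^ 2 + C (e0 x) * X + C (3 / x ^ 2)) := by
    apply Polynomial.funext
    intro W
    rw [key W, hs]
    simp
  apply deriv_root_ne_zero hsep ha
  rw [hpoly]
  simp [derivative_pow]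

/-- Main facts about pairs of roots. -/
theorem pair_main {ν s a b : F} (hν : ν ≠ 0) (hν2 : 2 * ν ^ 2 - 6 * ν + 3 ≠ 0)
    (hsep : (fp ν s).Separable) (hab : a ≠ b)
    (ha : (fp ν s).IsRoot a) (hb : (fp ν s).IsRoot b) :
    yp ν a b - 1 ≠ 0 ∧ DD (yp ν a b) ≠ 0 ∧ yp ν a b + ν - 1 ≠ 0 ∧
    (a + b) * DD (yp ν a b) = 2 * (yp ν a b - 1) * NN ν (yp ν a b) ∧
    a * b * (yp ν a b + ν - 1) = (yp ν a b - 1) * DD (yp ν a b) ∧
    s * BB ν (yp ν a b) = AA ν (yp ν a b) := by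
  have hz := zz_ne_zero hsep hab ha hb
  set x : F := a * b / 3 with hx
  set M : F := (x - 1) * (2 * x + 1) with hM
  have ha0 := fp_root_ne_zero ha
  have hb0 := fp_root_ne_zero hb
  have hx0 : x ≠ 0 := div_ne_zero (mul_ne_zero ha0 hb0) three_ne_zero
  have h1 := pair_cubic hab ha hb hx hM
  have hQ : a * b = 3 * x := by rw [hx]; ring
  set z := zz ν a b with hzdef
  have hz1 : z = x * (a + b + 4 * ν) + M := by rw [hzdef, hM, hx]; rfl
  set y := yp ν a b with hy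
  have hyz : (y - x) * z = 3 * ν * x - (x - 1) * M := by
    have : y = (x * (x * (a + b + 4 * ν)) + ν * (a * b) + M) / z := by
      rw [hy, hM, hz1, hx]; rfl
    have h2 : y * z = x * (x * (a + b + 4 * ν)) + ν * (a * b) + M := by
      rw [this, div_mul_cancel₀ _ hz]
    linear_combination h2 + ν * hQ - x * hz1
  have hzk : z = 3 * M + 6 * x * (y - x) + 2 * (y - x) ^ 2 := by
    rw [← hyz] at h1
    have : z ^ 2 * (z - (3 * M + 6 * x * (y - x) + 2 * (y - x) ^ 2)) = 0 := by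
      linear_combination (1/2) * h1
    exact sub_eq_zero.mp ((mul_eq_zero.mp this).resolve_left (pow_ne_zero 2 hz))
  have hR1 : 3 * x * (y + ν - 1) = (y - 1) * DD y := by
    unfold DD
    rw [hzk] at hyz
    linear_combination -hyz - (x - 1 - 3 * (y - x)) * hM
  have hR2 : x * (a + b + 4 * ν) = 2 * (y - 1) * (x + y + 1) := by
    linear_combination -hz1 + hzk - 2 * hM
  have hQe : a * b * (y + ν - 1) = (y - 1) * DD y := by rw [hQ]; exact hR1
  have he : y + ν - 1 ≠ 0 := by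
    intro h
    rw [h, mul_zero] at hQe
    rcases mul_eq_zero.mp hQe.symm with h3 | h3
    · apply hν; linear_combination h - h3
    · apply hν2
      have hy1 : y = 1 - ν := by linear_combination h
      rw [hy1] at h3
      unfold DD at h3
      linear_combination h3
  have hyD : (y - 1) * DD y ≠ 0 := by
    rw [← hQe]; exact mul_ne_zero (mul_ne_zero ha0 hb0) he
  have hy1 : y - 1 ≠ 0 := left_ne_zero_of_mul hyD
  have hD : DD y ≠ 0 := right_ne_zero_of_mul hyD
  have hPD : (a + b) * DD y = 2 * (y - 1) * NN ν y := by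
    have : x * ((a + b) * DD y - 2 * (y - 1) * NN ν y) = 0 := by
      have h4 : (a + b + 4 * ν) * x = 2 * (y - 1) * (x + y + 1) := by rw [mul_comm]; exact hR2
      unfold NN
      have h5 : DD y = 2 * y ^ 2 + 2 * y - 1 := rfl
      rw [h5] at hR1 ⊢
      linear_combination (2 * y ^ 2 + 2 * y - 1) * h4 - 2 * (y + 1) * hR1
    exact sub_eq_zero.mp ((mul_eq_zero.mp this).resolve_left hx0)
  refine ⟨hy1, hD, he, hPD, hQe, ?_⟩
  have hs := pair_s hab ha hb
  have hP' : a + b = 2 * (y - 1) * NN ν y / DD y := by rw [eq_div_iff hD]; exact hPD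
  have hQ' : a * b = (y - 1) * DD y / (y + ν - 1) := by rw [eq_div_iff he]; exact hQe
  rw [hP', hQ'] at hs
  unfold AA BB
  generalize NN ν y = N at *
  generalize DD y = D at *
  generalize hE : y + ν - 1 = e at *
  generalize hY : y - 1 = Y at *
  field_simp at hs
  linear_combination hs

/-- The key identity between `s`, `G` and `B₃`. -/
theorem key_GG (u y : F) (hu : u ≠ 0) :
    27 * u ^ 6 * (AA (nu u) y - s0 u * BB (nu u) y) = - GG u y ^ 2 * B3 u y := by
  unfold AA BB NN DD nu s0 GG B3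
  field_simp
  ring

theorem idT (u t y s : F) (hu : u ≠ 0)
    (hs : s * BB (nu u) y = AA (nu u) y) (ht : t ^ 2 = s - s0 u) (hG : GG u y ≠ 0) :
    TT u t y ^ 2 = -(y - 1) * B3 u y / (3 * u ^ 2) := by
  have key := key_GG u y hu
  unfold TT
  rw [div_pow, div_eq_div_iff (pow_ne_zero 2 hG) (by simpa using hu)]
  have h2 : (y-1) * (s - s0 u) * BB (nu u) y
      = (y-1) * (AA (nu u) y - s0 u * BB (nu u) y) := by
    rw [← hs]; ring
  have : (3 * u ^ 2 * t * (y - 1) * DD y ^ 2 * (y + nu u - 1)) ^ 2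
      = 9 * u^4 * (y-1) * (t^2 * BB (nu u) y) := by
    unfold BB; ring
  rw [this, ht]
  linear_combination (27 * u^6) * h2 + (y-1) * key

theorem idE (u μ y T : F) (hu : u ≠ 0) (hy : y - 1 ≠ 0)
    (hT : T ^ 2 = -(y - 1) * B3 u y / (3 * u ^ 2)) :
    yE u μ y T ^ 2 = xE u μ y ^ 3 + cA u μ * xE u μ y + cB u μ := by
  have h1 : yE u μ y T ^ 2 = (81 * u ^ 4 * (2 * u + 1) * μ ^ 3)^2 * (T^2) / (y - 1) ^ 4 := by
    unfold yE; rw [div_pow, ← pow_mul, mul_pow]
  rw [h1, hT]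
  unfold xE cA cB B3 an
  field_simp
  ring

end Basic

end Pool.MP_bfb583_al.EC
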