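import Pool.Agent.Lib.MP_bfb583_al.EC.Stmts
import Pool.Agent.Lib.MP_bfb583_al.EC.Ident

set_option autoImplicit false

/-!
GEO: the sum over a pentagon is not constant; the point of a pair is not constant.
-/

namespace Pool.MP_bfb583_al.EC

open Polynomial WeierstrassCurve Filter
open scoped Classical

noncomputable section

namespace Geo

section Maps

variable {F G : Type} [Field F] [Field G] (f : F →+* G)

lemma f_nu (u : F) : f (nu u) = nu (f u) := by simp [nu, _root_.map_ofNat]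

lemma f_fp (ν s : F) : (fp ν s).map f = fp (f ν) (f s) := by
  simp only [fp, Polynomial.map_add, Polynomial.map_sub, Polynomial.map_mul, Polynomial.map_pow,
    Polynomial.map_X, Polynomial.map_C, map_mul, map_add, map_sub, map_pow, _root_.map_ofNat,
    Polynomial.map_ofNat]

lemma f_DD (y : F) : f (DD y) = DD (f y) := by simp [DD, _root_.map_ofNat]

lemma f_NN (ν y : F) : f (NN ν y) = NN (f ν) (f y) := by simp [NN, _root_.map_ofNat]

lemma f_AA (ν y : F) : f (AA ν y) = AA (f ν) (f y) := by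
  simp [AA, f_DD, f_NN, _root_.map_ofNat]

lemma f_BB (ν y : F) : f (BB ν y) = BB (f ν) (f y) := by
  simp [BB, f_DD]

lemma f_GG (u y : F) : f (GG u y) = GG (f u) (f y) := by simp [GG, _root_.map_ofNat]

lemma f_yp (ν a b : F) : f (yp ν a b) = yp (f ν) (f a) (f b) := by simp [yp, _root_.map_ofNat]

lemma f_s0 (u : F) : f (s0 u) = s0 (f u) := by simp [s0, _root_.map_ofNat]

lemma f_TT (u t y : F) : f (TT u t y) = TT (f u) (f t) (f y) := by
  simp [TT, f_DD, f_GG, f_nu, _root_.map_ofNat]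

lemma f_xE (u μ y : F) : f (xE u μ y) = xE (f u) (f μ) (f y) := by simp [xE, _root_.map_ofNat]

lemma f_yE (u μ y T : F) : f (yE u μ y T) = yE (f u) (f μ) (f y) (f T) := by simp [yE, _root_.map_ofNat]

lemma f_p0 (u : F) : f (p0 u) = p0 (f u) := by simp [p0, _root_.map_ofNat]

lemma f_e0 (u : F) : f (e0 u) = e0 (f u) := by simp [e0, _root_.map_ofNat]

lemma f_wM (u m : F) : f (wM u m) = wM (f u) (f m) := by simp [wM, f_e0, _root_.map_ofNat]

lemma f_tM (u m : F) : f (tM u m) = tM (f u) (f m) := by simp [tM, f_wM, f_p0, _root_.map_ofNat]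

lemma f_sM (u m : F) : f (sM u m) = sM (f u) (f m) := by simp [sM, f_s0, f_tM]

lemma f_cA (u μ : F) : f (cA u μ) = cA (f u) (f μ) := by simp [cA, an, _root_.map_ofNat]

lemma f_cB (u μ : F) : f (cB u μ) = cB (f u) (f μ) := by simp [cB, an, _root_.map_ofNat]

lemma f_good {u : F} (h : GoodU u) : GoodU (f u) := by
  have hi := f.injective
  have z : ∀ x : F, x ≠ 0 → f x ≠ 0 := fun x hx => (map_ne_zero f).2 hx
  refine ⟨z _ h.u0, ?_, ?_, ?_, ?_, ?_⟩
  · intro h1; exact h.u1 (hi (by rw [h1, map_one]))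
  · have := z _ h.u2; simpa [_root_.map_ofNat] using this
  · have := z _ h.q1; simpa [_root_.map_ofNat] using this
  · have := z _ h.q2; simpa [_root_.map_ofNat] using this
  · have := z _ h.q3; simpa [_root_.map_ofNat] using this

lemma f_Rts {ν s : F} {v : Fin 6 → F} : Rts (f ν) (f s) (fun i => f (v i)) ↔ Rts ν s v := by
  constructor
  · rintro ⟨h1, h2⟩
    refine ⟨fun i j h => h1 (by simp only [h]), ?_⟩
    apply Polynomial.map_injective f f.injective
    rw [f_fp, h2, Polynomial.map_prod]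
    simp
  · rintro ⟨h1, h2⟩
    refine ⟨fun i j h => h1 (f.injective h), ?_⟩
    rw [← f_fp, h2, Polynomial.map_prod]
    simp

end Maps

section Pts

variable {K : Type} [Field K] {Ω₁ Ω₂ : Type} [Field Ω₁] [Algebra K Ω₁] [Field Ω₂] [Algebra K Ω₂]
  (W : WeierstrassCurve K)

lemma map_mkPt (f : Ω₁ →ₐ[K] Ω₂) (x y : Ω₁) :
    Affine.Point.map (W' := W) f (mkPt (W.baseChange Ω₁) x y) =
      mkPt (W.baseChange Ω₂) (f x) (f y) := by
  unfold mkPt
  by_cases h : (W.baseChange Ω₁).toAffine.Nonsingular x y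
  · have h2 : (W.baseChange Ω₂).toAffine.Nonsingular (f x) (f y) :=
      (W.toAffine.baseChange_nonsingular (f := f) f.injective x y).2 h
    rw [dif_pos h, dif_pos h2]
    rfl
  · have h2 : ¬ (W.baseChange Ω₂).toAffine.Nonsingular (f x) (f y) := fun h3 =>
      h ((W.toAffine.baseChange_nonsingular (f := f) f.injective x y).1 h3)
    rw [dif_neg h, dif_neg h2]
    rfl

lemma map_bpt (f : Ω₁ →ₐ[K] Ω₂) (u μ t a b : Ω₁) :
    Affine.Point.map (W' := W) f (bpt (W.baseChange Ω₁) u μ t a b) =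
      bpt (W.baseChange Ω₂) (f u) (f μ) (f t) (f a) (f b) := by
  unfold bpt
  rw [map_mkPt]
  have e1 := f_xE (f : Ω₁ →+* Ω₂) u μ (yp (nu u) a b)
  have e2 := f_yE (f : Ω₁ →+* Ω₂) u μ (yp (nu u) a b) (TT u t (yp (nu u) a b))
  have e3 := f_yp (f : Ω₁ →+* Ω₂) (nu u) a b
  have e4 := f_nu (f : Ω₁ →+* Ω₂) u
  have e5 := f_TT (f : Ω₁ →+* Ω₂) u t (yp (nu u) a b)
  simp only [RingHom.coe_coe] at e1 e2 e3 e4 e5
  rw [e1, e2, e5, e3, e4]

end Pts


section Trans

variable {k Ω : Type} [Field k] [CharZero k] [IsAlgClosed k] [Field Ω] [Algebra k Ω]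

/-- an element of `Ω` algebraic over the algebraically closed `k` is in `k` -/
lemma alg_mem {x : Ω} (h : IsAlgebraic k x) : ∃ c : k, algebraMap k Ω c = x := by
  obtain ⟨p, hp, hx⟩ := h
  have hs := IsAlgClosed.splits p
  have h1 : x ∈ (p.map (algebraMap k Ω)).roots := by
    rw [mem_roots (Polynomial.map_ne_zero hp)]
    rw [IsRoot, eval_map_algebraMap]; exact hx
  rw [hs.roots_map (algebraMap k Ω)] at h1
  obtain ⟨c, _, hc⟩ := Multiset.mem_map.1 h1
  exact ⟨c, hc⟩

variable {u : k} {m : Ω} (hu : u ≠ 0) (hm : Transcendental k m)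

include hm in
lemma poly_ne (p : k[X]) (hp : p ≠ 0) : aeval m p ≠ 0 := by
  intro h
  exact hm ⟨p, hp, h⟩

include hm in
lemma B_ne : 2 * m - e0 (algebraMap k Ω u) ≠ 0 := by
  have h := poly_ne hm (2 * X - C (e0 u)) (by
    intro h0
    have := congrArg (fun q => coeff q 1) h0
    simp [coeff_X, coeff_C] at this)
  simp only [map_sub, map_mul, aeval_X, aeval_C, _root_.map_ofNat] at h
  rwa [f_e0] at h

include hm in
lemma A_ne : 3 / (algebraMap k Ω u) ^ 2 - m ^ 2 ≠ 0 := by
  have h := poly_ne hm (C (3 / u ^ 2) - X ^ 2) (by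
    intro h0
    have := congrArg (fun q => coeff q 2) h0
    simp [coeff_C] at this)
  simp only [map_sub, map_pow, aeval_X, aeval_C, map_div₀, _root_.map_ofNat] at h
  exact h

include hm in
lemma w_ne : wM (algebraMap k Ω u) m ≠ 0 := div_ne_zero (A_ne hm) (B_ne hm)

include hm in
/-- the equation of `m` over `k(t)` -/
lemma m_eq : ((3 / (algebraMap k Ω u) ^ 2 - m ^ 2) ^ 2 - p0 (algebraMap k Ω u) *
      (3 / (algebraMap k Ω u) ^ 2 - m ^ 2) * (2 * m - e0 (algebraMap k Ω u)) +
      3 * (algebraMap k Ω u) * (2 * m - e0 (algebraMap k Ω u)) ^ 2) *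
      (m ^ 2 - e0 (algebraMap k Ω u) * m + 3 / (algebraMap k Ω u) ^ 2) =
    tM (algebraMap k Ω u) m * (3 / (algebraMap k Ω u) ^ 2 - m ^ 2) *
      (2 * m - e0 (algebraMap k Ω u)) ^ 2 := by
  have hA := A_ne (u := u) hm
  have hB := B_ne (u := u) hm
  have key : ∀ A B p U M : Ω, A ≠ 0 → B ≠ 0 →
      ((A / B) ^ 2 - p * (A / B) + U) * ((A / B) + M) / (A / B) * A * B ^ 2 =
        (A ^ 2 - p * A * B + U * B ^ 2) * (A + M * B) := by
    intro A B p U M hA hB
    field_simp
  have h := key _ _ (p0 (algebraMap k Ω u)) (3 * algebraMap k Ω u) m hA hB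
  have h2 : tM (algebraMap k Ω u) m * (3 / (algebraMap k Ω u) ^ 2 - m ^ 2) *
      (2 * m - e0 (algebraMap k Ω u)) ^ 2 = _ := h
  rw [h2]
  ring


/-- The polynomial of `m`. -/
def MPol {F : Type} [Field F] (c e p U t : F) : F[X] :=
  ((C c - X ^ 2) ^ 2 - C p * (C c - X ^ 2) * (2 * X - C e) + C U * (2 * X - C e) ^ 2) *
    (X ^ 2 - C e * X + C c) - C t * (C c - X ^ 2) * (2 * X - C e) ^ 2

lemma MPol_monic {F : Type} [Field F] (c e p U t : F) : (MPol c e p U t).Monic := by
  unfold MPol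
  monicity!

include hm in
lemma m_int {F : Type} [Field F] [Algebra F Ω] (u' t' : F)
    (hu' : algebraMap F Ω u' = algebraMap k Ω u)
    (ht' : algebraMap F Ω t' = tM (algebraMap k Ω u) m) : IsIntegral F m := by
  refine ⟨MPol (3 / u' ^ 2) (e0 u') (p0 u') (3 * u') t', MPol_monic _ _ _ _ _, ?_⟩
  have h := m_eq (u := u) hm
  rw [← ht', ← hu', ← f_e0, ← f_p0] at h
  unfold MPol
  simp only [eval₂_sub, eval₂_add, eval₂_mul, eval₂_pow, eval₂_X, eval₂_C, eval₂_ofNat, map_div₀,
    map_pow, _root_.map_ofNat, map_mul]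
  linear_combination h

include hm in
lemma s_trans : Transcendental k (sM (algebraMap k Ω u) m) := by
  intro h
  have h3 : IsAlgebraic k ((tM (algebraMap k Ω u) m) ^ 2) := by
    have e : (tM (algebraMap k Ω u) m) ^ 2 =
        sM (algebraMap k Ω u) m - algebraMap k Ω (s0 u) := by
      rw [f_s0]; simp [sM]
    rw [e]; exact h.sub (isAlgebraic_algebraMap _)
  have h2 : IsAlgebraic k (tM (algebraMap k Ω u) m) := IsAlgebraic.of_pow two_pos h3
  obtain ⟨t', ht'⟩ := alg_mem h2
  exact hm (m_int hm u t' rfl ht').isAlgebraic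

include hm in
lemma t_ne : tM (algebraMap k Ω u) m ≠ 0 := by
  intro h
  apply s_trans (u := u) hm
  have e : sM (algebraMap k Ω u) m = algebraMap k Ω (s0 u) := by
    rw [f_s0]; simp [sM, h]
  rw [e]
  exact isAlgebraic_algebraMap _

include hm in
lemma alg_s (hA : Algebra.IsAlgebraic (IntermediateField.adjoin k {m}) Ω) :
    Algebra.IsAlgebraic (IntermediateField.adjoin k {sM (algebraMap k Ω u) m}) Ω := by
  set s := sM (algebraMap k Ω u) m with hs
  let L := IntermediateField.adjoin k {s}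
  let M := algebraicClosure L Ω
  have hk : ∀ c : k, algebraMap k Ω c ∈ M := fun c => by
    have e : algebraMap k Ω c = algebraMap L Ω (algebraMap k L c) := rfl
    rw [e]; exact M.algebraMap_mem _
  have hsM : s ∈ M := by
    have : s = algebraMap L Ω ⟨s, IntermediateField.mem_adjoin_simple_self k s⟩ := rfl
    rw [this]; exact M.algebraMap_mem _
  have ht : tM (algebraMap k Ω u) m ∈ M := by
    rw [mem_algebraicClosure_iff]
    have e : (tM (algebraMap k Ω u) m) ^ 2 = s - algebraMap k Ω (s0 u) := by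
      rw [f_s0]; simp [hs, sM]
    apply IsAlgebraic.of_pow two_pos
    rw [e]
    exact (mem_algebraicClosure_iff).1 (sub_mem hsM (hk _))
  have hmM : m ∈ M := by
    rw [mem_algebraicClosure_iff]
    have h1 : IsIntegral M m := m_int (F := M) hm ⟨algebraMap k Ω u, hk u⟩ ⟨_, ht⟩ rfl rfl
    have h2 : IsAlgebraic M m := h1.isAlgebraic
    exact h2.restrictScalars L
  have hle : IntermediateField.adjoin k {m} ≤ M.restrictScalars k := by
    rw [IntermediateField.adjoin_simple_le_iff]; exact hmM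
  refine ⟨fun x => ?_⟩
  have h1 : IsAlgebraic (IntermediateField.adjoin k {m}) x := hA.isAlgebraic x
  have h2 : IsAlgebraic M x := by
    have := h1.ringHom_of_comp_eq (S := M) (B := Ω)
      (IntermediateField.inclusion hle : _ →ₐ[k] (M.restrictScalars k)).toRingHom
      (RingHom.id Ω) (RingHom.injective _) rfl
    exact this
  exact h2.restrictScalars L

end Trans

section Core

variable {K k Ω : Type} [Field K] [Field k] [CharZero k] [IsAlgClosed k] [Field Ω] [Algebra K k]
    [Algebra K Ω] [Algebra k Ω] [IsScalarTower K k Ω]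
    (W : WeierstrassCurve K) [W.IsShortNF] (u μ : k) (m : Ω) (v : Fin 6 → Ω)

instance snf : (W.baseChange Ω).IsShortNF where
  a₁ := by
    have : (W.baseChange Ω).a₁ = algebraMap K Ω W.a₁ := rfl
    rw [this, W.a₁_of_isShortNF, map_zero]
  a₂ := by
    have : (W.baseChange Ω).a₂ = algebraMap K Ω W.a₂ := rfl
    rw [this, W.a₂_of_isShortNF, map_zero]
  a₃ := by
    have : (W.baseChange Ω).a₃ = algebraMap K Ω W.a₃ := rfl
    rw [this, W.a₃_of_isShortNF, map_zero]

/-- the output of BPT over `Ω` -/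
lemma bptΩ (hBpt : StBpt) (hu : GoodU u) (hμ : μ ≠ 0) (h4 : algebraMap K k W.a₄ = cA u μ)
    (h6 : algebraMap K k W.a₆ = cB u μ) (hm : Transcendental k m)
    (hv : Rts (nu (algebraMap k Ω u)) (sM (algebraMap k Ω u) m) v) :
    (W.baseChange Ω).IsElliptic ∧
    (∀ i j, i ≠ j → ∃ h, bpt (W.baseChange Ω) (algebraMap k Ω u) (algebraMap k Ω μ)
        (tM (algebraMap k Ω u) m) (v i) (v j) =
      .some (xE (algebraMap k Ω u) (algebraMap k Ω μ) (yp (nu (algebraMap k Ω u)) (v i) (v j)))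
        (yE (algebraMap k Ω u) (algebraMap k Ω μ) (yp (nu (algebraMap k Ω u)) (v i) (v j))
          (TT (algebraMap k Ω u) (tM (algebraMap k Ω u) m)
            (yp (nu (algebraMap k Ω u)) (v i) (v j)))) h) ∧
    (∀ i j, bpt (W.baseChange Ω) (algebraMap k Ω u) (algebraMap k Ω μ)
        (tM (algebraMap k Ω u) m) (v i) (v j) =
      bpt (W.baseChange Ω) (algebraMap k Ω u) (algebraMap k Ω μ)
        (tM (algebraMap k Ω u) m) (v j) (v i)) ∧
    (∀ i j i' j', i ≠ j → i' ≠ j' →
      bpt (W.baseChange Ω) (algebraMap k Ω u) (algebraMap k Ω μ)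
        (tM (algebraMap k Ω u) m) (v i) (v j) =
      bpt (W.baseChange Ω) (algebraMap k Ω u) (algebraMap k Ω μ)
        (tM (algebraMap k Ω u) m) (v i') (v j') →
      (i = i' ∧ j = j') ∨ (i = j' ∧ j = i')) ∧
    (∀ i j, i ≠ j → sM (algebraMap k Ω u) m * BB (nu (algebraMap k Ω u))
        (yp (nu (algebraMap k Ω u)) (v i) (v j)) =
          AA (nu (algebraMap k Ω u)) (yp (nu (algebraMap k Ω u)) (v i) (v j)) ∧
      BB (nu (algebraMap k Ω u)) (yp (nu (algebraMap k Ω u)) (v i) (v j)) ≠ 0) := by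
  haveI : CharZero Ω := charZero_of_injective_algebraMap (algebraMap k Ω).injective
  refine hBpt Ω (W.baseChange Ω) (algebraMap k Ω u) (algebraMap k Ω μ) _ _ v
    (f_good (algebraMap k Ω) hu) ((_root_.map_ne_zero _).2 hμ) ?_ ?_ (t_ne hm) ?_ hv
  · have e : (W.baseChange Ω).a₄ = algebraMap K Ω W.a₄ := rfl
    rw [e, IsScalarTower.algebraMap_apply K k Ω, h4, f_cA]
  · have e : (W.baseChange Ω).a₆ = algebraMap K Ω W.a₆ := rfl
    rw [e, IsScalarTower.algebraMap_apply K k Ω, h6, f_cB]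
  · simp [sM]

lemma part1 (hBpt : StBpt) (hu : GoodU u) (hμ : μ ≠ 0) (h4 : algebraMap K k W.a₄ = cA u μ)
    (h6 : algebraMap K k W.a₆ = cB u μ) (hm : Transcendental k m)
    (hv : Rts (nu (algebraMap k Ω u)) (sM (algebraMap k Ω u) m) v) (R : Pt W k) :
    Affine.Point.baseChange k Ω R ≠
      bpt (W.baseChange Ω) (algebraMap k Ω u) (algebraMap k Ω μ)
        (tM (algebraMap k Ω u) m) (v 0) (v 1) := by
  obtain ⟨-, h1, -, -, h5⟩ := bptΩ W u μ m v hBpt hu hμ h4 h6 hm hv
  intro hR
  obtain ⟨hn, e1⟩ := h1 0 1 (by decide)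
  rw [e1] at hR
  obtain ⟨hs, hB⟩ := h5 0 1 (by decide)
  set Y := yp (nu (algebraMap k Ω u)) (v 0) (v 1) with hY
  have hZ := f_good (algebraMap k Ω) hu
  haveI : CharZero Ω := charZero_of_injective_algebraMap (algebraMap k Ω).injective
  -- `Y` is constant
  have hYk : ∃ y0 : k, algebraMap k Ω y0 = Y := by
    rcases R with _ | ⟨x', y', h'⟩
    · exact absurd hR.symm (Affine.Point.some_ne_zero _)
    · simp only [Affine.Point.baseChange, Affine.Point.map_some, Affine.Point.some.injEq] at hR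
      have hx : algebraMap k Ω x' = xE (algebraMap k Ω u) (algebraMap k Ω μ) Y := hR.1
      unfold xE at hx
      have hY1 : Y - 1 ≠ 0 := by
        intro h0
        apply hB
        unfold BB
        rw [h0]; ring
      have hc : 27 * (algebraMap k Ω u) ^ 3 * (2 * algebraMap k Ω u + 1) ≠ 0 :=
        mul_ne_zero (mul_ne_zero (by norm_num) (pow_ne_zero _ hZ.u0)) hZ.u2
      have hμ' : (algebraMap k Ω μ) ≠ 0 := (_root_.map_ne_zero _).2 hμ
      have key : (algebraMap k Ω) (1 + 27 * u ^ 3 * (2 * u + 1) /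
          (-x' / μ ^ 2 - (17 * u ^ 4 + 4 * u ^ 3 + 12 * u ^ 2 + 4 * u - 1))) = Y := by
        simp only [map_add, map_sub, map_mul, map_div₀, map_pow, map_neg, _root_.map_ofNat, map_one]
        rw [hx]
        have e2 : -(-(algebraMap k Ω μ) ^ 2 *
            (27 * (algebraMap k Ω u) ^ 3 * (2 * (algebraMap k Ω u) + 1) / (Y - 1) +
              17 * (algebraMap k Ω u) ^ 4 + 4 * (algebraMap k Ω u) ^ 3 +
              12 * (algebraMap k Ω u) ^ 2 + 4 * (algebraMap k Ω u) - 1)) /
              (algebraMap k Ω μ) ^ 2 -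
            (17 * (algebraMap k Ω u) ^ 4 + 4 * (algebraMap k Ω u) ^ 3 +
              12 * (algebraMap k Ω u) ^ 2 + 4 * (algebraMap k Ω u) - 1) =
            27 * (algebraMap k Ω u) ^ 3 * (2 * (algebraMap k Ω u) + 1) / (Y - 1) := by
          field_simp
          ring
        rw [e2, div_div_cancel₀ hc]
        ring
      exact ⟨_, key⟩
  obtain ⟨y0, hy0⟩ := hYk
  rw [← hy0] at hs hB
  rw [← f_nu, ← f_BB, ← f_AA] at hs
  rw [← f_nu, ← f_BB] at hB
  apply s_trans (u := u) hm
  have : sM (algebraMap k Ω u) m = algebraMap k Ω (AA (nu u) y0 / BB (nu u) y0) := by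
    rw [map_div₀, eq_div_iff hB, hs]
  rw [this]
  exact isAlgebraic_algebraMap _

lemma part2 (hC1 : StC1) (hStar : StStar) (hHalf : StHalf) (hComb : StComb) (hBpt : StBpt)
    [IsAlgClosed Ω] (hA : Algebra.IsAlgebraic (IntermediateField.adjoin k {m}) Ω)
    (hu : GoodU u) (hμ : μ ≠ 0) (h4 : algebraMap K k W.a₄ = cA u μ)
    (h6 : algebraMap K k W.a₆ = cB u μ) (hm : Transcendental k m)
    (hv : Rts (nu (algebraMap k Ω u)) (sM (algebraMap k Ω u) m) v)
    (h5w : v 5 = wM (algebraMap k Ω u) m) (R : Pt W k) :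
    Affine.Point.baseChange k Ω R ≠
      ∑ i : Fin 5, bpt (W.baseChange Ω) (algebraMap k Ω u) (algebraMap k Ω μ)
        (tM (algebraMap k Ω u) m) (v (Fin.castSucc i)) (v (Fin.castSucc (i + 1))) := by
  obtain ⟨hell, h1, hsym, hinj, h5⟩ := bptΩ W u μ m v hBpt hu hμ h4 h6 hm hv
  intro hR
  haveI hWE : W.IsElliptic := by
    refine ⟨?_⟩
    rw [isUnit_iff_ne_zero]
    intro h0
    have h2 := hell.isUnit
    have e : (W.baseChange Ω).Δ = algebraMap K Ω W.Δ := W.map_Δ _
    rw [e, h0, map_zero] at h2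
    exact not_isUnit_zero h2
  obtain ⟨R0, hR0⟩ := hStar K k Ω W u μ m v hu hμ h4 h6 hm hA hv h5w
  have key := hComb (Pt W Ω) (Affine.Point.baseChange (W' := W) k Ω).range
    (fun i j => bpt (W.baseChange Ω) (algebraMap k Ω u) (algebraMap k Ω μ)
        (tM (algebraMap k Ω u) m) (v i) (v j)) (Affine.Point.baseChange k Ω R0)
    (fun i j => hsym i j) ?_ ?_ ⟨R0, rfl⟩ (fun i => (hR0 i).symm) ?_
  · have := hinj 0 1 0 2 (by decide) (by decide) key
    rcases this with h | h
    · exact absurd h.2 (by decide)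
    · exact absurd h.1 (by decide)
  · intro π hπ
    obtain ⟨σ, hσt, hσ⟩ := hC1 k Ω u (sM (algebraMap k Ω u) m) (tM (algebraMap k Ω u) m) v hu
      (s_trans hm) (alg_s hm hA) (by simp [sM]) hv π hπ
    refine ⟨Affine.Point.map (W' := W) ((σ : Ω →ₐ[k] Ω).restrictScalars K), ?_, ?_⟩
    · rintro x ⟨P, rfl⟩
      rcases P with _ | ⟨x', y', h'⟩
      · exact map_zero _
      · simp [Affine.Point.baseChange, Affine.Point.map_some]
    · intro i j _
      have e := map_bpt W ((σ : Ω →ₐ[k] Ω).restrictScalars K) (algebraMap k Ω u)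
        (algebraMap k Ω μ) (tM (algebraMap k Ω u) m) (v i) (v j)
      have a1 : ((σ : Ω →ₐ[k] Ω).restrictScalars K) (algebraMap k Ω u) = algebraMap k Ω u :=
        σ.commutes u
      have a2 : ((σ : Ω →ₐ[k] Ω).restrictScalars K) (algebraMap k Ω μ) = algebraMap k Ω μ :=
        σ.commutes μ
      have a3 : ((σ : Ω →ₐ[k] Ω).restrictScalars K) (tM (algebraMap k Ω u) m) =
        tM (algebraMap k Ω u) m := hσt
      have a4 : ∀ i, ((σ : Ω →ₐ[k] Ω).restrictScalars K) (v i) = v (π i) := hσ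
      rw [a1, a2, a3, a4, a4] at e
      exact e
  · rintro x ⟨P, hP⟩
    obtain ⟨R', hR'⟩ := hHalf K k Ω W x P hP.symm
    exact ⟨R', hR'⟩
  · refine ⟨R, ?_⟩
    rw [hR, Fin.sum_univ_five]
    rfl

end Core

section Red

variable {k Ω : Type} [Field k] [Field Ω] [Algebra k Ω]

/-- the elements algebraic over `k(m)` -/
def EE (k : Type) {Ω : Type} [Field k] [Field Ω] [Algebra k Ω] (m : Ω) : IntermediateField k Ω :=
  (algebraicClosure (IntermediateField.adjoin k {m}) Ω).restrictScalars k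

lemma mem_EE {m x : Ω} : x ∈ EE k m ↔ IsAlgebraic (IntermediateField.adjoin k {m}) x :=
  mem_algebraicClosure_iff

lemma acl_EE [IsAlgClosed Ω] (m : Ω) : IsAlgClosed (EE k m) :=
  (inferInstance : IsAlgClosure (IntermediateField.adjoin k {m})
    (algebraicClosure (IntermediateField.adjoin k {m}) Ω)).isAlgClosed

lemma self_EE (m : Ω) : m ∈ EE k m := by
  rw [mem_EE]
  exact isAlgebraic_algebraMap
    (⟨m, IntermediateField.mem_adjoin_simple_self k m⟩ : IntermediateField.adjoin k {m})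

lemma alg_EE (m : Ω) : Algebra.IsAlgebraic
    (IntermediateField.adjoin k {(⟨m, self_EE m⟩ : EE k m)}) (EE k m) := by
  have hmap : (IntermediateField.adjoin k {(⟨m, self_EE m⟩ : EE k m)}).map (EE k m).val =
      IntermediateField.adjoin k {m} := by
    rw [IntermediateField.adjoin_map]
    simp
  have hf : ∀ x : IntermediateField.adjoin k {(⟨m, self_EE m⟩ : EE k m)},
      (EE k m).val x.1 ∈ IntermediateField.adjoin k {m} := fun x => by
    rw [← hmap]
    exact ⟨x.1, x.2, rfl⟩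
  let f : IntermediateField.adjoin k {(⟨m, self_EE m⟩ : EE k m)} →+*
      IntermediateField.adjoin k {m} :=
    { toFun := fun x => ⟨(EE k m).val x.1, hf x⟩
      map_one' := rfl
      map_mul' := fun _ _ => rfl
      map_zero' := rfl
      map_add' := fun _ _ => rfl }
  have hfs : Function.Surjective f := by
    rintro ⟨y, hy⟩
    have hy' := hy
    rw [← hmap] at hy'
    obtain ⟨x, hx, hxy⟩ := hy'
    exact ⟨⟨x, hx⟩, Subtype.ext hxy⟩
  refine ⟨fun x => ?_⟩
  have h1 : IsAlgebraic (IntermediateField.adjoin k {m}) ((EE k m).val x) := mem_EE.1 x.2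
  exact h1.of_ringHom_of_comp_eq f (EE k m).val.toRingHom hfs (EE k m).val.injective rfl

end Red

section Final

variable {K k Ω : Type} [Field K] [Field k] [CharZero k] [IsAlgClosed k] [Field Ω] [Algebra K k]
    [Algebra K Ω] [Algebra k Ω] [IsScalarTower K k Ω]
    (W : WeierstrassCurve K) [W.IsShortNF] (u μ : k) (m : Ω) (v : Fin 6 → Ω)

/-- transfer of the roots to `EE` -/
lemma root_EE {Λ : Type} [Field Λ] [Algebra k Λ] (u : k) (m' x : Λ)
    (hx : (fp (nu (algebraMap k Λ u)) (sM (algebraMap k Λ u) m')).IsRoot x) : x ∈ EE k m' := by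
  rw [mem_EE]
  let F := IntermediateField.adjoin k {m'}
  let mF : F := ⟨m', IntermediateField.mem_adjoin_simple_self k m'⟩
  let uF : F := algebraMap k F u
  have e1 : algebraMap F Λ uF = algebraMap k Λ u := rfl
  have e2 : algebraMap F Λ mF = m' := rfl
  have hint : IsIntegral F x := by
    refine ⟨fp (nu uF) (sM uF mF), ?_, ?_⟩
    · unfold fp
      monicity!
    · rw [eval₂_eq_eval_map, f_fp, f_nu, f_sM, e1, e2]
      exact hx
  exact hint.isAlgebraic

lemma transfer {E Λ : Type} [Field E] [Algebra K E] [Algebra k E] [IsScalarTower K k E]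
    [Field Λ] [Algebra K Λ] [Algebra k Λ] [IsScalarTower K k Λ] [IsAlgClosed E]
    (g : Ω →ₐ[k] Λ) (h : E →ₐ[k] Λ) (mE : E) (vE : Fin 6 → E) (hE : h mE = g m)
    (hvi : ∀ i, h (vE i) = g (v i))
    (hA : Algebra.IsAlgebraic (IntermediateField.adjoin k {mE}) E)
    (hC1 : StC1) (hStar : StStar) (hHalf : StHalf) (hComb : StComb) (hBpt : StBpt)
    (hu : GoodU u) (hμ : μ ≠ 0) (h4 : algebraMap K k W.a₄ = cA u μ)
    (h6 : algebraMap K k W.a₆ = cB u μ) (hm : Transcendental k m)
    (hv : Rts (nu (algebraMap k Ω u)) (sM (algebraMap k Ω u) m) v)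
    (h5w : v 5 = wM (algebraMap k Ω u) m) (R : Pt W k) :
    Affine.Point.baseChange k Ω R ≠
      ∑ i : Fin 5, bpt (W.baseChange Ω) (algebraMap k Ω u) (algebraMap k Ω μ)
        (tM (algebraMap k Ω u) m) (v (Fin.castSucc i)) (v (Fin.castSucc (i + 1))) := by
  intro hR
  have gu : g (algebraMap k Ω u) = algebraMap k Λ u := g.commutes u
  have gμ : g (algebraMap k Ω μ) = algebraMap k Λ μ := g.commutes μ
  have hcu : h (algebraMap k E u) = algebraMap k Λ u := h.commutes u
  have hcμ : h (algebraMap k E μ) = algebraMap k Λ μ := h.commutes μ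
  have hvΛ : Rts (nu (algebraMap k Λ u)) (sM (algebraMap k Λ u) (g m)) (fun i => g (v i)) := by
    have := (f_Rts (g : Ω →+* Λ)).2 hv
    rw [f_nu, f_sM] at this
    simp only [RingHom.coe_coe] at this
    rw [gu] at this
    exact this
  have hvE : Rts (nu (algebraMap k E u)) (sM (algebraMap k E u) mE) vE := by
    apply (f_Rts (h : E →+* Λ)).1
    rw [f_nu, f_sM]
    simp only [RingHom.coe_coe]
    rw [hcu, hE]
    simp only [hvi]
    exact hvΛ
  have hmE : Transcendental k mE := by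
    intro ha
    have h1 : IsAlgebraic k (g m) := by rw [← hE]; exact ha.algHom h
    exact hm ((isAlgebraic_algHom_iff g g.injective).1 h1)
  have hwE : vE 5 = wM (algebraMap k E u) mE := by
    apply h.injective
    have e := f_wM (h : E →+* Λ) (algebraMap k E u) mE
    simp only [RingHom.coe_coe] at e
    have e2 := f_wM (g : Ω →+* Λ) (algebraMap k Ω u) m
    simp only [RingHom.coe_coe] at e2
    exact (hvi 5).trans ((congrArg g h5w).trans (e2.trans (by rw [gu, ← hE, ← hcu]; exact e.symm)))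
  have key := part2 (K := K) (k := k) (Ω := E) W u μ mE vE hC1 hStar hHalf hComb hBpt
    hA hu hμ h4 h6 hmE hvE hwE R
  apply key
  apply Affine.Point.map_injective (W' := W) (h.restrictScalars K)
  rw [_root_.map_sum]
  have e1 : ∀ i j, Affine.Point.map (W' := W) (h.restrictScalars K)
      (bpt (W.baseChange E) (algebraMap k E u) (algebraMap k E μ)
        (tM (algebraMap k E u) mE) (vE i) (vE j)) =
      bpt (W.baseChange Λ) (algebraMap k Λ u) (algebraMap k Λ μ)
        (tM (algebraMap k Λ u) (g m)) (g (v i)) (g (v j)) := fun i j => by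
    rw [map_bpt]
    have e := f_tM (h : E →+* Λ) (algebraMap k E u) mE
    simp only [RingHom.coe_coe] at e
    rw [hcu, hE] at e
    have e' : (h.restrictScalars K) (tM (algebraMap k E u) mE) =
      tM (algebraMap k Λ u) (g m) := e
    have e3 : (h.restrictScalars K) (algebraMap k E u) = algebraMap k Λ u := hcu
    have e4 : (h.restrictScalars K) (algebraMap k E μ) = algebraMap k Λ μ := hcμ
    have e5 : ∀ i, (h.restrictScalars K) (vE i) = g (v i) := hvi
    rw [e', e3, e4, e5, e5]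
  have e2 : ∀ i j, Affine.Point.map (W' := W) (g.restrictScalars K)
      (bpt (W.baseChange Ω) (algebraMap k Ω u) (algebraMap k Ω μ)
        (tM (algebraMap k Ω u) m) (v i) (v j)) =
      bpt (W.baseChange Λ) (algebraMap k Λ u) (algebraMap k Λ μ)
        (tM (algebraMap k Λ u) (g m)) (g (v i)) (g (v j)) := fun i j => by
    rw [map_bpt]
    have e := f_tM (g : Ω →+* Λ) (algebraMap k Ω u) m
    simp only [RingHom.coe_coe] at e
    rw [gu] at e
    have e' : (g.restrictScalars K) (tM (algebraMap k Ω u) m) =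
      tM (algebraMap k Λ u) (g m) := e
    have e3 : (g.restrictScalars K) (algebraMap k Ω u) = algebraMap k Λ u := gu
    have e4 : (g.restrictScalars K) (algebraMap k Ω μ) = algebraMap k Λ μ := gμ
    rw [e', e3, e4]
    rfl
  have e3 := congrArg (Affine.Point.map (W' := W) (g.restrictScalars K)) hR
  rw [_root_.map_sum] at e3
  simp only [e2] at e3
  simp only [e1]
  rw [← e3]
  rcases R with _ | ⟨x', y', h'⟩
  · rfl
  · simp [Affine.Point.baseChange, Affine.Point.map_some]

lemma final (hC1 : StC1) (hStar : StStar) (hHalf : StHalf) (hComb : StComb) (hBpt : StBpt)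
    (hu : GoodU u) (hμ : μ ≠ 0) (h4 : algebraMap K k W.a₄ = cA u μ)
    (h6 : algebraMap K k W.a₆ = cB u μ) (hm : Transcendental k m)
    (hv : Rts (nu (algebraMap k Ω u)) (sM (algebraMap k Ω u) m) v)
    (h5w : v 5 = wM (algebraMap k Ω u) m) (R : Pt W k) :
    Affine.Point.baseChange k Ω R ≠
      ∑ i : Fin 5, bpt (W.baseChange Ω) (algebraMap k Ω u) (algebraMap k Ω μ)
        (tM (algebraMap k Ω u) m) (v (Fin.castSucc i)) (v (Fin.castSucc (i + 1))) := by
  let Λ := AlgebraicClosure Ω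
  let g : Ω →ₐ[k] Λ := IsScalarTower.toAlgHom k Ω Λ
  haveI : IsAlgClosed (EE k (g m)) := acl_EE (g m)
  -- the roots in `Λ`
  have gu : g (algebraMap k Ω u) = algebraMap k Λ u := g.commutes u
  have hvΛ : Rts (nu (algebraMap k Λ u)) (sM (algebraMap k Λ u) (g m)) (fun i => g (v i)) := by
    have := (f_Rts (g : Ω →+* Λ)).2 hv
    rw [f_nu, f_sM] at this
    simp only [RingHom.coe_coe] at this
    rw [gu] at this
    exact this
  have hroot : ∀ i, g (v i) ∈ EE k (g m) := fun i => by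
    apply root_EE u (g m)
    rw [hvΛ.2]
    rw [IsRoot, eval_prod]
    apply Finset.prod_eq_zero (Finset.mem_univ i)
    simp
  exact transfer (E := EE k (g m)) (Λ := Λ) W u μ m v g (EE k (g m)).val ⟨g m, self_EE (g m)⟩
    (fun i => ⟨g (v i), hroot i⟩) rfl (fun i => rfl) (alg_EE (g m)) hC1 hStar hHalf hComb hBpt
    hu hμ h4 h6 hm hv h5w R

end Final

end Geo

theorem stGeo (hC1 : StC1) (hStar : StStar) (hHalf : StHalf) (hComb : StComb) (hBpt : StBpt) :
    StGeo := by
  intro K k Ω _ _ _ _ _ _ _ _ _ W _ u μ m v hu hμ h4 h6 hm hv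
  exact ⟨Geo.part1 W u μ m v hBpt hu hμ h4 h6 hm hv,
    fun h5w => Geo.final W u μ m v hC1 hStar hHalf hComb hBpt hu hμ h4 h6 hm hv h5w⟩

end

end Pool.MP_bfb583_al.EC
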