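import Pool.Agent.Lib.MP_bfb583_al.EC.Stmts

set_option autoImplicit false

/-!
GERM: the group law of the points over an ultrapower is computed pointwise.
-/

open WeierstrassCurve Filter
open scoped Classical

noncomputable section

namespace Pool.MP_bfb583_al.EC.GermAux

section basic
variable {F : Type} [Field F] {W : WeierstrassCurve F}

theorem mkPt_some {x y : F} (h : W.toAffine.Nonsingular x y) : mkPt W x y = .some x y h :=
  dif_pos h

theorem mkPt_zero {x y : F} (h : ¬ W.toAffine.Nonsingular x y) : mkPt W x y = 0 := dif_neg h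

theorem ns_of_ne {P : W.toAffine.Point} (hP : P ≠ 0) : W.toAffine.Nonsingular (pX P) (pY P) := by
  rcases P with _ | ⟨x, y, h⟩
  · exact absurd rfl hP
  · exact h

theorem eq_some {P : W.toAffine.Point} (hP : P ≠ 0) : P = .some (pX P) (pY P) (ns_of_ne hP) := by
  rcases P with _ | ⟨x, y, h⟩
  · exact absurd rfl hP
  · rfl

end basic

variable {K F ι : Type} [Field K] [Field F] [Algebra K F] (W : WeierstrassCurve K)
  (U : Ultrafilter ι)

theorem eq_iff (x y : ι → F) :
    (W.baseChange (Germ (U : Filter ι) F)).toAffine.Equation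
      (x : Germ (U : Filter ι) F) (y : Germ (U : Filter ι) F) ↔
    ∀ᶠ i in U, (W.baseChange F).toAffine.Equation (x i) (y i) := by
  rw [Affine.equation_iff]
  simp only [Affine.equation_iff]
  exact Germ.coe_eq

theorem ns_iff (x y : ι → F) :
    (W.baseChange (Germ (U : Filter ι) F)).toAffine.Nonsingular
      (x : Germ (U : Filter ι) F) (y : Germ (U : Filter ι) F) ↔
    ∀ᶠ i in U, (W.baseChange F).toAffine.Nonsingular (x i) (y i) := by
  rw [Affine.nonsingular_iff]
  simp only [Affine.nonsingular_iff, eventually_and, Ultrafilter.eventually_or]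
  refine and_congr (eq_iff W U x y) (or_congr ?_ ?_)
  · rw [Ne, ← not_iff_not, not_not, ← Ultrafilter.eventually_not]
    simp only [not_not]
    exact Germ.coe_eq
  · rw [Ne, ← not_iff_not, not_not, ← Ultrafilter.eventually_not]
    simp only [not_not]
    exact Germ.coe_eq

theorem negY_coe (x y : ι → F) :
    (W.baseChange (Germ (U : Filter ι) F)).toAffine.negY
      (x : Germ (U : Filter ι) F) (y : Germ (U : Filter ι) F) =
    ((fun i => (W.baseChange F).toAffine.negY (x i) (y i) : ι → F) : Germ (U : Filter ι) F) := rfl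

theorem addX_coe (x₁ x₂ l : ι → F) :
    (W.baseChange (Germ (U : Filter ι) F)).toAffine.addX
      (x₁ : Germ (U : Filter ι) F) (x₂ : Germ (U : Filter ι) F) (l : Germ (U : Filter ι) F) =
    ((fun i => (W.baseChange F).toAffine.addX (x₁ i) (x₂ i) (l i) : ι → F) :
      Germ (U : Filter ι) F) := rfl

theorem addY_coe (x₁ x₂ y₁ l : ι → F) :
    (W.baseChange (Germ (U : Filter ι) F)).toAffine.addY
      (x₁ : Germ (U : Filter ι) F) (x₂ : Germ (U : Filter ι) F) (y₁ : Germ (U : Filter ι) F)
      (l : Germ (U : Filter ι) F) =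
    ((fun i => (W.baseChange F).toAffine.addY (x₁ i) (x₂ i) (y₁ i) (l i) : ι → F) :
      Germ (U : Filter ι) F) := rfl

theorem slope_coe (x₁ x₂ y₁ y₂ : ι → F) :
    (W.baseChange (Germ (U : Filter ι) F)).toAffine.slope
      (x₁ : Germ (U : Filter ι) F) (x₂ : Germ (U : Filter ι) F) (y₁ : Germ (U : Filter ι) F)
      (y₂ : Germ (U : Filter ι) F) =
    ((fun i => (W.baseChange F).toAffine.slope (x₁ i) (x₂ i) (y₁ i) (y₂ i) : ι → F) :
      Germ (U : Filter ι) F) := by
  by_cases h1 : (x₁ : Germ (U : Filter ι) F) = x₂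
  · have e1 : ∀ᶠ i in (U : Filter ι), x₁ i = x₂ i := Germ.coe_eq.mp h1
    by_cases h2 : (y₁ : Germ (U : Filter ι) F) =
        (W.baseChange (Germ (U : Filter ι) F)).toAffine.negY
          (x₂ : Germ (U : Filter ι) F) (y₂ : Germ (U : Filter ι) F)
    · rw [Affine.slope_of_Y_eq h1 h2]
      have e2 : ∀ᶠ i in (U : Filter ι), y₁ i = (W.baseChange F).toAffine.negY (x₂ i) (y₂ i) :=
        Germ.coe_eq.mp h2
      refine Germ.coe_eq.mpr ?_
      filter_upwards [e1, e2] with i k1 k2
      exact (Affine.slope_of_Y_eq k1 k2).symm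
    · have e2 : ∀ᶠ i in (U : Filter ι), ¬ y₁ i = (W.baseChange F).toAffine.negY (x₂ i) (y₂ i) := by
        refine Ultrafilter.eventually_not.mpr fun h => h2 ?_
        exact Germ.coe_eq.mpr h
      rw [Affine.slope, if_pos h1, if_neg h2]
      refine Germ.coe_eq.mpr ?_
      filter_upwards [e1, e2] with i k1 k2
      rw [Affine.slope, if_pos k1, if_neg k2]
      rfl
  · have e1 : ∀ᶠ i in (U : Filter ι), ¬ x₁ i = x₂ i := by
      refine Ultrafilter.eventually_not.mpr fun h => h1 ?_
      exact Germ.coe_eq.mpr h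
    rw [Affine.slope, if_neg h1]
    refine Germ.coe_eq.mpr ?_
    filter_upwards [e1] with i k1
    rw [Affine.slope, if_neg k1]

theorem germPt_of_zero {p : ι → Pt W F} (h : ∀ᶠ i in U, p i = 0) : germPt W U p = 0 := if_pos h

theorem germPt_of_ne {p : ι → Pt W F} (h : ∀ᶠ i in U, p i ≠ 0) :
    ∃ hn : (W.baseChange (Germ (U : Filter ι) F)).toAffine.Nonsingular
      ((fun i => pX (p i) : ι → F) : Germ (U : Filter ι) F)
      ((fun i => pY (p i) : ι → F) : Germ (U : Filter ι) F),
      germPt W U p = .some _ _ hn := by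
  have h1 : ¬ ∀ᶠ i in U, p i = 0 := Ultrafilter.eventually_not.mp h
  have hn : (W.baseChange (Germ (U : Filter ι) F)).toAffine.Nonsingular
      ((fun i => pX (p i) : ι → F) : Germ (U : Filter ι) F)
      ((fun i => pY (p i) : ι → F) : Germ (U : Filter ι) F) := by
    rw [ns_iff]
    filter_upwards [h] with i hi using ns_of_ne hi
  refine ⟨hn, ?_⟩
  rw [germPt, if_neg h1]
  exact mkPt_some hn

theorem germPt_congr {p q : ι → Pt W F} (h : ∀ᶠ i in U, p i = q i) :
    germPt W U p = germPt W U q := by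
  by_cases hq : ∀ᶠ i in U, q i = 0
  · have hp : ∀ᶠ i in U, p i = 0 := by
      filter_upwards [h, hq] with i k1 k2
      rw [k1, k2]
    rw [germPt_of_zero W U hp, germPt_of_zero W U hq]
  · have hq' : ∀ᶠ i in U, q i ≠ 0 := Ultrafilter.eventually_not.mpr hq
    have hp' : ∀ᶠ i in U, p i ≠ 0 := by
      filter_upwards [h, hq'] with i k1 k2
      rw [k1]; exact k2
    obtain ⟨n1, e1⟩ := germPt_of_ne W U hp'
    obtain ⟨n2, e2⟩ := germPt_of_ne W U hq'
    rw [e1, e2]
    have k1 : ((fun i => pX (p i) : ι → F) : Germ (U : Filter ι) F) =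
        ((fun i => pX (q i) : ι → F) : Germ (U : Filter ι) F) := by
      refine Germ.coe_eq.mpr ?_
      filter_upwards [h] with i hi
      rw [hi]
    have k2 : ((fun i => pY (p i) : ι → F) : Germ (U : Filter ι) F) =
        ((fun i => pY (q i) : ι → F) : Germ (U : Filter ι) F) := by
      refine Germ.coe_eq.mpr ?_
      filter_upwards [h] with i hi
      rw [hi]
    simp only [Affine.Point.some.injEq]
    exact ⟨k1, k2⟩

theorem germPt_inj {p q : ι → Pt W F} (h : germPt W U p = germPt W U q) :
    ∀ᶠ i in U, p i = q i := by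
  by_cases hp : ∀ᶠ i in U, p i = 0
  · by_cases hq : ∀ᶠ i in U, q i = 0
    · filter_upwards [hp, hq] with i k1 k2
      rw [k1, k2]
    · have hq' : ∀ᶠ i in U, q i ≠ 0 := Ultrafilter.eventually_not.mpr hq
      obtain ⟨n2, e2⟩ := germPt_of_ne W U hq'
      rw [germPt_of_zero W U hp, e2] at h
      exact absurd h.symm (Affine.Point.some_ne_zero n2)
  · have hp' : ∀ᶠ i in U, p i ≠ 0 := Ultrafilter.eventually_not.mpr hp
    obtain ⟨n1, e1⟩ := germPt_of_ne W U hp'
    by_cases hq : ∀ᶠ i in U, q i = 0
    · rw [germPt_of_zero W U hq, e1] at h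
      exact absurd h (Affine.Point.some_ne_zero n1)
    · have hq' : ∀ᶠ i in U, q i ≠ 0 := Ultrafilter.eventually_not.mpr hq
      obtain ⟨n2, e2⟩ := germPt_of_ne W U hq'
      rw [e1, e2] at h
      simp only [Affine.Point.some.injEq] at h
      have k1 : ∀ᶠ i in (U : Filter ι), pX (p i) = pX (q i) := Germ.coe_eq.mp h.1
      have k2 : ∀ᶠ i in (U : Filter ι), pY (p i) = pY (q i) := Germ.coe_eq.mp h.2
      filter_upwards [hp', hq', k1, k2] with i a1 a2 a3 a4
      rw [eq_some a1, eq_some a2]
      simp only [Affine.Point.some.injEq]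
      exact ⟨a3, a4⟩

theorem germPt_add (p q : ι → Pt W F) :
    germPt W U (fun i => p i + q i) = germPt W U p + germPt W U q := by
  by_cases hp : ∀ᶠ i in U, p i = 0
  · rw [germPt_of_zero W U hp, zero_add]
    refine germPt_congr W U ?_
    filter_upwards [hp] with i hi
    rw [hi, zero_add]
  by_cases hq : ∀ᶠ i in U, q i = 0
  · rw [germPt_of_zero W U hq, add_zero]
    refine germPt_congr W U ?_
    filter_upwards [hq] with i hi
    rw [hi, add_zero]
  have hp' : ∀ᶠ i in U, p i ≠ 0 := Ultrafilter.eventually_not.mpr hp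
  have hq' : ∀ᶠ i in U, q i ≠ 0 := Ultrafilter.eventually_not.mpr hq
  obtain ⟨n1, e1⟩ := germPt_of_ne W U hp'
  obtain ⟨n2, e2⟩ := germPt_of_ne W U hq'
  rw [e1, e2]
  by_cases hxy : ∀ᶠ i in U, pX (p i) = pX (q i) ∧
      pY (p i) = (W.baseChange F).toAffine.negY (pX (q i)) (pY (q i))
  · have h0 : ∀ᶠ i in U, p i + q i = 0 := by
      filter_upwards [hp', hq', hxy] with i a1 a2 a3
      rw [eq_some a1, eq_some a2]
      exact Affine.Point.add_of_Y_eq a3.1 a3.2
    rw [germPt_of_zero W U h0]
    rw [eventually_and] at hxy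
    have k1 : ((fun i => pX (p i) : ι → F) : Germ (U : Filter ι) F) =
        ((fun i => pX (q i) : ι → F) : Germ (U : Filter ι) F) := Germ.coe_eq.mpr hxy.1
    have k2 : ((fun i => pY (p i) : ι → F) : Germ (U : Filter ι) F) =
        (W.baseChange (Germ (U : Filter ι) F)).toAffine.negY
          ((fun i => pX (q i) : ι → F) : Germ (U : Filter ι) F)
          ((fun i => pY (q i) : ι → F) : Germ (U : Filter ι) F) := by
      rw [negY_coe]; exact Germ.coe_eq.mpr hxy.2
    exact (Affine.Point.add_of_Y_eq k1 k2).symm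
  · have hxy' : ∀ᶠ i in U, ¬ (pX (p i) = pX (q i) ∧
      pY (p i) = (W.baseChange F).toAffine.negY (pX (q i)) (pY (q i))) :=
      Ultrafilter.eventually_not.mpr hxy
    have hg : ¬ (((fun i => pX (p i) : ι → F) : Germ (U : Filter ι) F) =
        ((fun i => pX (q i) : ι → F) : Germ (U : Filter ι) F) ∧
        ((fun i => pY (p i) : ι → F) : Germ (U : Filter ι) F) =
        (W.baseChange (Germ (U : Filter ι) F)).toAffine.negY
          ((fun i => pX (q i) : ι → F) : Germ (U : Filter ι) F)
          ((fun i => pY (q i) : ι → F) : Germ (U : Filter ι) F)) := by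
      rintro ⟨k1, k2⟩
      apply hxy
      rw [negY_coe] at k2
      exact eventually_and.mpr ⟨Germ.coe_eq.mp k1, Germ.coe_eq.mp k2⟩
    rw [Affine.Point.add_some hg]
    have hs : ∀ᶠ i in U, ∃ h : (W.baseChange F).toAffine.Nonsingular
        ((W.baseChange F).toAffine.addX (pX (p i)) (pX (q i))
          ((W.baseChange F).toAffine.slope (pX (p i)) (pX (q i)) (pY (p i)) (pY (q i))))
        ((W.baseChange F).toAffine.addY (pX (p i)) (pX (q i)) (pY (p i))
          ((W.baseChange F).toAffine.slope (pX (p i)) (pX (q i)) (pY (p i)) (pY (q i)))),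
        p i + q i = .some _ _ h := by
      filter_upwards [hp', hq', hxy'] with i a1 a2 a3
      refine ⟨Affine.nonsingular_add (ns_of_ne a1) (ns_of_ne a2) a3, ?_⟩
      conv_lhs => rw [eq_some a1, eq_some a2]
      exact Affine.Point.add_some a3
    have hne : ∀ᶠ i in U, p i + q i ≠ 0 := by
      filter_upwards [hs] with i hi
      obtain ⟨h, e⟩ := hi
      rw [e]
      exact Affine.Point.some_ne_zero h
    obtain ⟨n3, e3⟩ := germPt_of_ne W U (p := fun i => p i + q i) hne
    rw [e3]
    simp only [Affine.Point.some.injEq]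
    rw [slope_coe, addX_coe, addY_coe]
    constructor
    · refine Germ.coe_eq.mpr ?_
      filter_upwards [hs] with i hi
      obtain ⟨h, e⟩ := hi
      rw [e]
      rfl
    · refine Germ.coe_eq.mpr ?_
      filter_upwards [hs] with i hi
      obtain ⟨h, e⟩ := hi
      rw [e]
      rfl

theorem germPt_mk (x y : ι → F) :
    germPt W U (fun i => mkPt (W.baseChange F) (x i) (y i)) =
        mkPt (W.baseChange (Germ (U : Filter ι) F)) (x : Germ (U : Filter ι) F)
          (y : Germ (U : Filter ι) F) := by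
  by_cases h : ∀ᶠ i in U, (W.baseChange F).toAffine.Nonsingular (x i) (y i)
  · rw [mkPt_some ((ns_iff W U x y).mpr h)]
    have hne : ∀ᶠ i in U, mkPt (W.baseChange F) (x i) (y i) ≠ 0 := by
      filter_upwards [h] with i hi
      rw [mkPt_some hi]
      exact Affine.Point.some_ne_zero hi
    obtain ⟨n3, e3⟩ := germPt_of_ne W U (p := fun i => mkPt (W.baseChange F) (x i) (y i)) hne
    rw [e3]
    simp only [Affine.Point.some.injEq]
    constructor
    · refine Germ.coe_eq.mpr ?_
      filter_upwards [h] with i hi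
      rw [mkPt_some hi]
      rfl
    · refine Germ.coe_eq.mpr ?_
      filter_upwards [h] with i hi
      rw [mkPt_some hi]
      rfl
  · rw [mkPt_zero (fun h' => h ((ns_iff W U x y).mp h'))]
    refine germPt_of_zero W U ?_
    filter_upwards [Ultrafilter.eventually_not.mpr h] with i hi
    exact mkPt_zero hi

end Pool.MP_bfb583_al.EC.GermAux

namespace Pool.MP_bfb583_al.EC

theorem stGerm : StGerm := fun _ _ _ _ _ _ W U =>
  ⟨GermAux.germPt_add W U, fun _ _ => ⟨GermAux.germPt_inj W U, GermAux.germPt_congr W U⟩,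
    GermAux.germPt_mk W U⟩

end Pool.MP_bfb583_al.EC

end
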