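import Pool.Agent.Lib.MP_bfb583_al.EC.Stmts

set_option autoImplicit false

/-!
GOOD: every short Weierstrass equation is a member of the family.
-/

namespace Pool.MP_bfb583_al.EC

open Polynomial

namespace Good

section Ring

variable {R : Type*} [CommRing R]

/-- `α(u)`. -/
def al (u : R) : R := 27 * u ^ 4 * (u ^ 2 - 2 * u - 2) ^ 2 - an u ^ 2

/-- `β(u)`. -/
def be (u : R) : R := an u * (81 * u ^ 4 * (u ^ 2 - 2 * u - 2) ^ 2 - 2 * an u ^ 2)

theorem cA_eq (u μ : R) : cA u μ = 3 * μ ^ 4 * al u := rfl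

theorem cB_eq (u μ : R) : cB u μ = μ ^ 6 * be u := rfl

theorem disc (u : R) : 4 * al u ^ 3 + be u ^ 2 = -2187 * (u ^ 8 * (u ^ 2 - 2 * u - 2) ^ 4 *
    (2 * u ^ 2 + 2 * u - 1) ^ 2 * (2 * u + 1) ^ 2 * (4 * u ^ 2 - 8 * u + 1)) := by
  unfold al be an
  ring

end Ring

variable {F : Type} [Field F] [CharZero F]

theorem not_both (u : F) (h1 : al u = 0) (h2 : be u = 0) : False := by
  unfold al at h1
  unfold be at h2
  have h3 : an u ^ 3 = 0 := by linear_combination h2 - 3 * an u * h1
  have h4 : an u = 0 := by simpa using h3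
  rw [h4] at h1
  have h5 : (u ^ 2 * (u ^ 2 - 2 * u - 2)) ^ 2 = 0 := by
    have h27 : (27 : F) ≠ 0 := by norm_num
    have h28 : 27 * (u ^ 2 * (u ^ 2 - 2 * u - 2)) ^ 2 = 0 := by linear_combination h1
    exact (mul_eq_zero.mp h28).resolve_left h27
  have h6 : u ^ 2 * (u ^ 2 - 2 * u - 2) = 0 := by simpa using h5
  rcases mul_eq_zero.mp h6 with h | h
  · have h7 : u = 0 := by simpa using h
    rw [h7] at h4
    unfold an at h4
    norm_num at h4
  · unfold an at h4
    have h8 : 4 * u + 3 = 0 := by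
      have h27 : (27 : F) ≠ 0 := by norm_num
      have h28 : 27 * (4 * u + 3) = 0 := by
        linear_combination -h4 - (10 * u ^ 2 + 16 * u + 40) * h
      exact (mul_eq_zero.mp h28).resolve_left h27
    have h9 : (1 : F) = 0 := by linear_combination 16 * h - (4 * u - 11) * h8
    exact one_ne_zero h9

/-- The polynomial whose roots are the possible parameters. -/
noncomputable def Psi (A B : F) : F[X] := C (A ^ 3) * be X ^ 2 - C (27 * B ^ 2) * al X ^ 3

omit [CharZero F] in
theorem eval_an (u : F) : (an (X : F[X])).eval u = an u := by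
  unfold an
  simp

omit [CharZero F] in
theorem eval_al (u : F) : (al (X : F[X])).eval u = al u := by
  unfold al
  simp [eval_an]

omit [CharZero F] in
theorem eval_be (u : F) : (be (X : F[X])).eval u = be u := by
  unfold be
  simp [eval_an]

omit [CharZero F] in
theorem eval_Psi (A B u : F) : (Psi A B).eval u = A ^ 3 * be u ^ 2 - 27 * B ^ 2 * al u ^ 3 := by
  unfold Psi
  rw [eval_sub, eval_mul, eval_mul, eval_pow, eval_pow, eval_C, eval_C, eval_al, eval_be]

theorem exists_root [IsAlgClosed F] (A B : F) (h : 4 * A ^ 3 + 27 * B ^ 2 ≠ 0) :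
    ∃ u : F, u ≠ 1 ∧ (Psi A B).eval u = 0 := by
  classical
  by_contra hcon
  push Not at hcon
  have h0 : (Psi A B).eval 0 = 4 * A ^ 3 + 27 * B ^ 2 := by
    rw [eval_Psi]
    unfold al be an
    ring
  have h1 : (Psi A B).eval (-1 / 2) = (4 * A ^ 3 + 27 * B ^ 2) * (81 / 256) ^ 3 := by
    rw [eval_Psi]
    unfold al be an
    ring
  have hne : Psi A B ≠ 0 := by
    intro h2
    rw [h2, eval_zero] at h0
    exact h h0.symm
  obtain ⟨e, he, hnd⟩ := exists_eq_pow_rootMultiplicity_mul_and_not_dvd (Psi A B) hne 1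
  have hconst : e.natDegree = 0 := by
    by_contra hd
    obtain ⟨x, hx⟩ := IsAlgClosed.exists_root e (by
      intro h0
      exact hd (natDegree_eq_of_degree_eq_some h0))
    by_cases hx1 : x = 1
    · rw [hx1] at hx
      exact hnd (dvd_iff_isRoot.mpr hx)
    · refine hcon x hx1 ?_
      rw [he, eval_mul, hx.eq_zero, mul_zero]
  obtain ⟨c, hc⟩ := natDegree_eq_zero.mp hconst
  set d := (Psi A B).rootMultiplicity 1 with hd
  rw [he, ← hc] at h0 h1
  simp only [eval_mul, eval_pow, eval_sub, eval_X, eval_C] at h0 h1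
  have hc0 : c ≠ 0 := by
    rintro rfl
    rw [mul_zero] at h0
    exact h h0.symm
  have h2 : (3 / 2 : F) ^ d = (81 / 256) ^ 3 := by
    rw [← h0] at h1
    have h3 : (-1 / 2 - 1 : F) ^ d = (3 / 2 : F) ^ d * (0 - 1) ^ d := by
      rw [← mul_pow]
      norm_num
    rw [h3] at h1
    have h4 : ((0 : F) - 1) ^ d * c ≠ 0 := mul_ne_zero (pow_ne_zero d (by norm_num)) hc0
    refine mul_right_cancel₀ h4 ?_
    linear_combination h1
  have h5 : ((3 / 2 : ℚ) ^ d : ℚ) = (81 / 256) ^ 3 := by
    have h6 : (((3 / 2 : ℚ) ^ d : ℚ) : F) = (((81 / 256 : ℚ) ^ 3 : ℚ) : F) := by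
      push_cast
      exact h2
    exact_mod_cast h6
  have h7 : (1 : ℚ) ≤ (3 / 2) ^ d := one_le_pow₀ (by norm_num)
  rw [h5] at h7
  norm_num at h7

end Good

open Good in
theorem stGood : StGood := by
  intro F _ _ _ A B h
  obtain ⟨u, hu1, hu⟩ := exists_root A B h
  rw [eval_Psi] at hu
  have hdisc : 4 * al u ^ 3 + be u ^ 2 ≠ 0 := by
    intro h0
    have h1 : (4 * A ^ 3 + 27 * B ^ 2) * al u ^ 3 = 0 := by
      linear_combination A ^ 3 * h0 - hu
    have h2 : al u = 0 := by
      rcases mul_eq_zero.mp h1 with h2 | h2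
      · exact absurd h2 h
      · simpa using h2
    have h3 : be u = 0 := by
      rw [h2] at h0
      have h4 : be u ^ 2 = 0 := by linear_combination h0
      simpa using h4
    exact not_both u h2 h3
  rw [disc] at hdisc
  have hg : GoodU u := by
    have h1 := right_ne_zero_of_mul hdisc
    have h2 := left_ne_zero_of_mul h1
    have h3 := left_ne_zero_of_mul h2
    have h4 := left_ne_zero_of_mul h3
    refine ⟨?_, hu1, ?_, ?_, ?_, right_ne_zero_of_mul h1⟩
    · exact ne_zero_pow (by norm_num) (left_ne_zero_of_mul h4)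
    · exact ne_zero_pow (by norm_num) (right_ne_zero_of_mul h2)
    · exact ne_zero_pow (by norm_num) (right_ne_zero_of_mul h4)
    · exact ne_zero_pow (by norm_num) (right_ne_zero_of_mul h3)
  by_cases ha : al u = 0
  · have hb : be u ≠ 0 := fun hb => not_both u ha hb
    have hA : A = 0 := by
      rw [ha] at hu
      have h1 : A ^ 3 * be u ^ 2 = 0 := by linear_combination hu
      rcases mul_eq_zero.mp h1 with h2 | h2
      · simpa using h2
      · exact absurd h2 (pow_ne_zero 2 hb)
    have hB : B ≠ 0 := by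
      rintro rfl
      rw [hA] at h
      norm_num at h
    obtain ⟨μ, hμ⟩ := IsAlgClosed.exists_pow_nat_eq (B / be u) (n := 6) (by norm_num)
    have hμ0 : μ ≠ 0 := by
      rintro rfl
      rw [zero_pow (by norm_num)] at hμ
      exact div_ne_zero hB hb hμ.symm
    refine ⟨u, μ, hg, hμ0, ?_, ?_⟩
    · rw [cA_eq, ha, hA, mul_zero]
    · rw [cB_eq, hμ, div_mul_cancel₀ _ hb]
  · by_cases hb : be u = 0
    · have hB : B = 0 := by
        rw [hb] at hu
        have h1 : (27 * B ^ 2) * al u ^ 3 = 0 := by linear_combination -hu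
        rcases mul_eq_zero.mp h1 with h2 | h2
        · simpa using h2
        · exact absurd h2 (pow_ne_zero 3 ha)
      have hA : A ≠ 0 := by
        rintro rfl
        rw [hB] at h
        norm_num at h
      obtain ⟨μ, hμ⟩ := IsAlgClosed.exists_pow_nat_eq (A / (3 * al u)) (n := 4) (by norm_num)
      have h3a : 3 * al u ≠ 0 := mul_ne_zero (by norm_num) ha
      have hμ0 : μ ≠ 0 := by
        rintro rfl
        rw [zero_pow (by norm_num)] at hμ
        exact div_ne_zero hA h3a hμ.symm
      refine ⟨u, μ, hg, hμ0, ?_, ?_⟩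
      · rw [cA_eq, hμ]
        field_simp
      · rw [cB_eq, hb, hB, mul_zero]
    · have hA : A ≠ 0 := by
        rintro rfl
        have h1 : (27 * B ^ 2) * al u ^ 3 = 0 := by linear_combination -hu
        rcases mul_eq_zero.mp h1 with h2 | h2
        · apply h
          linear_combination h2
        · exact absurd h2 (pow_ne_zero 3 ha)
      have hB : B ≠ 0 := by
        rintro rfl
        have h1 : A ^ 3 * be u ^ 2 = 0 := by linear_combination hu
        rcases mul_eq_zero.mp h1 with h2 | h2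
        · exact absurd h2 (pow_ne_zero 3 hA)
        · exact absurd h2 (pow_ne_zero 2 hb)
      obtain ⟨μ, hμ⟩ := IsAlgClosed.exists_pow_nat_eq (3 * B * al u / (A * be u)) (n := 2)
        (by norm_num)
      have hμ0 : μ ≠ 0 := by
        rintro rfl
        rw [zero_pow (by norm_num)] at hμ
        exact div_ne_zero (mul_ne_zero (mul_ne_zero (by norm_num) hB) ha) (mul_ne_zero hA hb)
          hμ.symm
      refine ⟨u, μ, hg, hμ0, ?_, ?_⟩
      · rw [cA_eq, show μ ^ 4 = (μ ^ 2) ^ 2 by ring, hμ]
        field_simp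
        linear_combination hu
      · rw [cB_eq, show μ ^ 6 = (μ ^ 2) ^ 3 by ring, hμ]
        field_simp
        linear_combination hu

end Pool.MP_bfb583_al.EC
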