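import Pool.Agent.Lib.MP_bfb583_al.EC.Bpt

set_option autoImplicit false

/-!
HALF: halves of constant points are constant.
-/

namespace Pool.MP_bfb583_al.EC.Half

open Polynomial WeierstrassCurve Pool.MP_bfb583_al.EC
open scoped Classical

theorem mem_range_of_integral {k Ω : Type} [Field k] [IsAlgClosed k] [Field Ω] [Algebra k Ω]
    {x : Ω} (h : IsIntegral k x) : ∃ a : k, algebraMap k Ω a = x := by
  have h1 := IsAlgClosed.degree_eq_one_of_irreducible k (minpoly.irreducible h)
  exact minpoly.mem_range_of_degree_eq_one k x h1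

theorem mem_range_of_quartic {k Ω : Type} [Field k] [IsAlgClosed k] [Field Ω] [Algebra k Ω]
    {x : Ω} (c3 c2 c1 c0 : k)
    (h : x ^ 4 + algebraMap k Ω c3 * x ^ 3 + algebraMap k Ω c2 * x ^ 2 + algebraMap k Ω c1 * x
      + algebraMap k Ω c0 = 0) : ∃ a : k, algebraMap k Ω a = x := by
  refine mem_range_of_integral
    ⟨X ^ 4 + C c3 * X ^ 3 + C c2 * X ^ 2 + C c1 * X + C c0, by monicity!, ?_⟩
  simp only [eval₂_add, eval₂_mul, eval₂_pow, eval₂_X, eval₂_C]
  exact h

/-- the coordinates of a half of a constant point are constant -/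
theorem coords {k Ω : Type} [Field k] [CharZero k] [IsAlgClosed k] [Field Ω] [Algebra k Ω]
    (A B : k) {x y : Ω} (h : y ^ 2 = x ^ 3 + algebraMap k Ω A * x + algebraMap k Ω B)
    (hx : ∃ a : k, algebraMap k Ω a = x) : ∃ b : k, algebraMap k Ω b = y := by
  obtain ⟨a, rfl⟩ := hx
  refine mem_range_of_quartic 0 0 0 (-(a ^ 3 + A * a + B) ^ 2) ?_
  simp only [map_neg, map_pow, map_add, map_mul, map_zero]
  linear_combination (y ^ 2 + (algebraMap k Ω a ^ 3 + algebraMap k Ω A * algebraMap k Ω a
    + algebraMap k Ω B)) * h

end Pool.MP_bfb583_al.EC.Half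

namespace Pool.MP_bfb583_al.EC

open Polynomial WeierstrassCurve Half
open scoped Classical

theorem stHalf : StHalf := by
  intro K k Ω _ _ _ _ _ _ _ _ _ W _ _ P R hPR
  have : CharZero Ω := charZero_of_injective_algebraMap (algebraMap k Ω).injective
  have hA : algebraMap K Ω W.a₄ = algebraMap k Ω (algebraMap K k W.a₄) :=
    IsScalarTower.algebraMap_apply K k Ω _
  have hB : algebraMap K Ω W.a₆ = algebraMap k Ω (algebraMap K k W.a₆) :=
    IsScalarTower.algebraMap_apply K k Ω _
  have e1 : (W.baseChange Ω).a₁ = 0 := (baseChange_short W).a₁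
  have e2 : (W.baseChange Ω).a₂ = 0 := (baseChange_short W).a₂
  have e3 : (W.baseChange Ω).a₃ = 0 := (baseChange_short W).a₃
  have e4 : (W.baseChange Ω).a₄ = algebraMap k Ω (algebraMap K k W.a₄) := by
    rw [baseChange_a4, hA]
  have e6 : (W.baseChange Ω).a₆ = algebraMap k Ω (algebraMap K k W.a₆) := by
    rw [baseChange_a6, hB]
  -- it is enough to find the coordinates in `k`
  have key : ∀ (x y : Ω) (h : (W.baseChange Ω).toAffine.Nonsingular x y),
      (∃ a : k, algebraMap k Ω a = x) →
      ∃ R' : Pt W k, Affine.Point.baseChange k Ω R' = Affine.Point.some x y h := by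
    intro x y h hx
    have heq := (equation_short (W.baseChange Ω) x y).mp h.1
    rw [e4, e6] at heq
    obtain ⟨b, hb⟩ := coords (algebraMap K k W.a₄) (algebraMap K k W.a₆) heq hx
    obtain ⟨a, ha⟩ := hx
    subst ha
    subst hb
    have h' : (W.baseChange k).toAffine.Nonsingular a b :=
      (W.toAffine.baseChange_nonsingular (f := Algebra.ofId k Ω) (algebraMap k Ω).injective
        a b).mp h
    exact ⟨Affine.Point.some a b h', rfl⟩
  rcases P with _ | ⟨x, y, h⟩
  · exact ⟨0, rfl⟩
  · apply key
    have heq := (equation_short (W.baseChange Ω) x y).mp h.1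
    rw [e4, e6] at heq
    by_cases hy : y = (W.baseChange Ω).toAffine.negY x y
    · have hy0 : y = 0 := by
        rw [Affine.negY, e1, e3] at hy
        have : (2 : Ω) * y = 0 := by linear_combination hy
        exact (mul_eq_zero.mp this).resolve_left two_ne_zero
      refine mem_range_of_quartic 0 (algebraMap K k W.a₄) (algebraMap K k W.a₆) 0 ?_
      rw [hy0] at heq
      simp only [map_zero]
      linear_combination (-x) * heq
    · rw [Affine.Point.add_of_Y_ne hy] at hPR
      rcases R with _ | ⟨x', y', h'⟩
      · exact absurd hPR (Affine.Point.some_ne_zero _)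
      · have h1 : (W.baseChange Ω).toAffine.addX x x ((W.baseChange Ω).toAffine.slope x x y y)
            = algebraMap k Ω x' := by
          have h2 := hPR
          simp only [Affine.Point.baseChange, Affine.Point.map_some, Affine.Point.some.injEq] at h2
          exact h2.1
        rw [Affine.slope_of_Y_ne rfl hy, Affine.addX, Affine.negY, e1, e2, e3, e4] at h1
        have hy0 : y ≠ 0 := by
          intro h0
          apply hy
          rw [Affine.negY, e1, e3, h0]
          ring
        have h3 : y - (-y - 0 * x - 0) = 2 * y := by ring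
        rw [h3] at h1
        refine mem_range_of_quartic (-(4 * x')) (-(2 * algebraMap K k W.a₄))
          (-(4 * algebraMap K k W.a₄ * x' + 8 * algebraMap K k W.a₆))
          (algebraMap K k W.a₄ ^ 2 - 4 * algebraMap K k W.a₆ * x') ?_
        simp only [map_neg, map_sub, map_add, map_mul, map_pow, map_ofNat]
        rw [← h1]
        field_simp
        linear_combination (4 * (3 * x ^ 2 + algebraMap k Ω (algebraMap K k W.a₄)) ^ 2) * heq

end Pool.MP_bfb583_al.EC
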