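import Pool.Agent.Lib.MP_bfb583_al.EC.Stmts

set_option autoImplicit false

/-!
INDEP: an ultrafilter making the conjugates of the generic element independent.
-/

namespace Pool.MP_bfb583_al.EC

open Polynomial WeierstrassCurve Filter
open scoped Classical

noncomputable section

namespace Indep

/-- algebraic independence of the automorphisms -/
theorem exists_ne {K L : Type} [Field K] [CharZero K] [Field L] [Algebra K L]
    [FiniteDimensional K L] [IsGalois K L] (F : MvPolynomial (L ≃ₐ[K] L) K) (hF : F ≠ 0) :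
    ∃ m : L, MvPolynomial.aeval (fun σ : L ≃ₐ[K] L => σ m) F ≠ 0 := by
  by_contra hcon
  push Not at hcon
  have : CharZero L := charZero_of_injective_algebraMap (algebraMap K L).injective
  let ι := Fin (Module.finrank K L)
  let b : Module.Basis ι K L := Module.finBasis K L
  -- the matrix of the automorphisms
  let M : Matrix (L ≃ₐ[K] L) ι L := fun σ k => σ (b k)
  have hrow : LinearIndependent L M.row := by
    have h1 : LinearIndependent L (fun σ : L ≃ₐ[K] L => (σ : L →ₐ[K] L).toLinearMap) :=
      (linearIndependent_toLinearMap K L L).comp (fun σ : L ≃ₐ[K] L => (σ : L →ₐ[K] L))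
        fun σ τ h => AlgEquiv.ext fun x => DFunLike.congr_fun h x
    rw [Fintype.linearIndependent_iff] at h1 ⊢
    intro g hg
    refine h1 g ?_
    apply b.ext
    intro k
    have h2 := congrFun hg k
    simp only [Finset.sum_apply, Pi.smul_apply, Pi.zero_apply, smul_eq_mul] at h2
    simpa using h2
  have hrank : M.rank = Fintype.card (L ≃ₐ[K] L) := hrow.rank_matrix
  have hsurj : Function.Surjective M.mulVecLin := by
    rw [← LinearMap.range_eq_top]
    apply Submodule.eq_top_of_finrank_eq
    rw [Module.finrank_fintype_fun_eq_card]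
    exact hrank
  -- the polynomial in the coordinates
  let G : MvPolynomial ι L := MvPolynomial.aeval
    (fun σ : L ≃ₐ[K] L => ∑ k, MvPolynomial.C (σ (b k)) * MvPolynomial.X k) F
  have hGeval : ∀ z : ι → L, MvPolynomial.eval z G =
      MvPolynomial.aeval (fun σ : L ≃ₐ[K] L => M.mulVecLin z σ) F := by
    intro z
    have h1 : (MvPolynomial.aeval z : MvPolynomial ι L →ₐ[L] L) G =
        ((MvPolynomial.aeval z : MvPolynomial ι L →ₐ[L] L).restrictScalars K) G := rfl
    rw [← MvPolynomial.coe_aeval_eq_eval, RingHom.coe_coe, h1]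
    change ((MvPolynomial.aeval z : MvPolynomial ι L →ₐ[L] L).restrictScalars K)
      (MvPolynomial.aeval _ F) = _
    rw [← AlgHom.comp_apply, MvPolynomial.comp_aeval]
    congr 2
    funext σ
    simp only [map_sum, map_mul, AlgHom.restrictScalars_apply, MvPolynomial.aeval_C,
      MvPolynomial.aeval_X, Algebra.algebraMap_self, RingHom.id_apply]
    rfl
  have hG : G = 0 := by
    refine MvPolynomial.funext_set (fun _ => Set.range (algebraMap K L)) (fun _ => ?_) ?_
    · exact Set.infinite_range_of_injective (algebraMap K L).injective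
    · intro x hx
      choose y hy using fun k => hx k trivial
      rw [hGeval, map_zero, ← hcon (∑ k, y k • b k)]
      congr 2
      funext σ
      rw [map_sum]
      simp only [Matrix.mulVecLin_apply, Matrix.mulVec, dotProduct]
      refine Finset.sum_congr rfl fun k _ => ?_
      rw [Algebra.smul_def, map_mul, AlgEquiv.commutes, ← hy k, mul_comm]
  have hF0 : MvPolynomial.map (algebraMap K L) F = 0 := by
    refine MvPolynomial.funext fun t => ?_
    obtain ⟨z, hz⟩ := hsurj t
    rw [map_zero, MvPolynomial.eval_map, ← MvPolynomial.aeval_def]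
    have h1 := hGeval z
    rw [hG, map_zero] at h1
    rw [← hz]
    exact h1.symm
  exact hF (MvPolynomial.map_injective _ (algebraMap K L).injective (by rw [hF0, map_zero]))

end Indep

open Indep in
theorem stIndep : StIndep := by
  intro K L Λ _ _ _ _ _ _ _ _ _ _
  -- the filter
  let A : MvPolynomial (L ≃ₐ[K] L) K → Set L := fun F =>
    {m | MvPolynomial.aeval (fun σ : L ≃ₐ[K] L => σ m) F ≠ 0}
  let I := {F : MvPolynomial (L ≃ₐ[K] L) K // F ≠ 0}
  let f : Filter L := ⨅ F : I, 𝓟 (A F.1)
  have hdir : Directed (· ≥ ·) fun F : I => 𝓟 (A F.1) := by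
    intro F G
    refine ⟨⟨F.1 * G.1, mul_ne_zero F.2 G.2⟩, ?_, ?_⟩
    · change 𝓟 _ ≤ 𝓟 _
      rw [principal_mono]
      intro m hm
      simp only [A, Set.mem_ofPred_eq, map_mul] at hm ⊢
      exact left_ne_zero_of_mul hm
    · change 𝓟 _ ≤ 𝓟 _
      rw [principal_mono]
      intro m hm
      simp only [A, Set.mem_ofPred_eq, map_mul] at hm ⊢
      exact right_ne_zero_of_mul hm
  have : Nonempty I := ⟨⟨1, one_ne_zero⟩⟩
  have hne : f.NeBot := by
    refine iInf_neBot_of_directed' hdir fun F => ?_
    rw [principal_neBot_iff]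
    exact exists_ne F.1 F.2
  let U : Ultrafilter L := Ultrafilter.of f
  refine ⟨U, ?_⟩
  rw [algebraicIndependent_iff]
  intro p hp
  by_contra hp0
  have hU : A p ∈ (U : Filter L) := by
    refine Ultrafilter.of_le f ?_
    exact mem_iInf_of_mem (⟨p, hp0⟩ : I) (mem_principal_self _)
  -- the coercion as an algebra homomorphism
  let φ : (L → Λ) →ₐ[K] Germ (U : Filter L) Λ :=
    { Germ.coeRingHom (U : Filter L) with
      commutes' := fun a => rfl }
  have h1 : MvPolynomial.aeval (fun σ : L ≃ₐ[K] L =>
      ((fun m => algebraMap L Λ (σ m) : L → Λ) : Germ (U : Filter L) Λ)) p =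
      φ (MvPolynomial.aeval (fun σ : L ≃ₐ[K] L => (fun m => algebraMap L Λ (σ m) : L → Λ)) p) := by
    rw [← AlgHom.comp_apply, MvPolynomial.comp_aeval]
    rfl
  rw [h1] at hp
  have h2 : ∀ᶠ m in (U : Filter L), MvPolynomial.aeval
      (fun σ : L ≃ₐ[K] L => (fun m => algebraMap L Λ (σ m) : L → Λ)) p m = 0 :=
    Germ.coe_eq.1 hp
  have h3 : ∀ m, MvPolynomial.aeval
      (fun σ : L ≃ₐ[K] L => (fun m => algebraMap L Λ (σ m) : L → Λ)) p m =
      algebraMap L Λ (MvPolynomial.aeval (fun σ : L ≃ₐ[K] L => σ m) p) := by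
    intro m
    have h4 : (Pi.evalAlgHom K (fun _ : L => Λ) m) (MvPolynomial.aeval
        (fun σ : L ≃ₐ[K] L => (fun m => algebraMap L Λ (σ m) : L → Λ)) p) =
        MvPolynomial.aeval (fun σ : L ≃ₐ[K] L => algebraMap L Λ (σ m)) p := by
      rw [← AlgHom.comp_apply, MvPolynomial.comp_aeval]
      rfl
    have h5 : (IsScalarTower.toAlgHom K L Λ) (MvPolynomial.aeval (fun σ : L ≃ₐ[K] L => σ m) p) =
        MvPolynomial.aeval (fun σ : L ≃ₐ[K] L => algebraMap L Λ (σ m)) p := by
      rw [← AlgHom.comp_apply, MvPolynomial.comp_aeval]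
      rfl
    exact h4.trans h5.symm
  obtain ⟨m, hm1, hm2⟩ := (h2.and hU).exists
  rw [h3] at hm1
  exact hm2 ((algebraMap L Λ).injective (by rw [hm1, map_zero]))

end

end Pool.MP_bfb583_al.EC
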