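import Pool.Agent.Lib.MP_bfb583_al.EC.Stmts

set_option autoImplicit false

/-!
PS: prosolvable fields have no `A₅`-extensions over finite extensions.
-/

namespace Pool.MP_bfb583_al.EC

private theorem a5_not_solvable : ¬ Group.IsSolvable (alternatingGroup (Fin 5)) := by
  intro h
  apply Equiv.Perm.not_isSolvable_fin_5
  have h2 : Group.IsSolvable ℤˣ := inferInstance
  exact Group.isSolvable_of_ker_le_range (alternatingGroup (Fin 5)).subtype
    (Equiv.Perm.sign : Equiv.Perm (Fin 5) →* ℤˣ) (by
      rw [Subgroup.range_subtype]; exact le_rfl)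

private theorem ps_aux (K L M N : Type) [Field K] [CharZero K] [Field L] [Field M] [Field N]
    [Algebra K L] [Algebra L M] [Algebra K M] [IsScalarTower K L M] [Algebra M N] [Algebra K N]
    [IsScalarTower K M N] [Algebra L N] [IsScalarTower L M N] [IsScalarTower K L N]
    [IsGalois K N] [Normal L M] (h : Group.IsSolvable (N ≃ₐ[K] N)) :
    Group.IsSolvable (M ≃ₐ[L] M) := by
  have h1 : IsGalois L N := IsGalois.tower_top_of_isGalois K L N
  let f : (N ≃ₐ[L] N) →* (N ≃ₐ[K] N) :=
    { toFun := fun σ => σ.restrictScalars K
      map_one' := rfl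
      map_mul' := fun _ _ => rfl }
  have hf : Function.Injective f := by
    intro σ τ e
    ext x
    exact DFunLike.congr_fun e x
  have h2 : Group.IsSolvable (N ≃ₐ[L] N) := Group.isSolvable_of_isSolvable_injective hf
  exact Group.isSolvable_of_surjective
    (AlgEquiv.restrictNormalHom_surjective (F := L) (K₁ := M) N)

theorem stPS : StPS := by
  intro K _ _ hK L _ _ _ M _ _ _ _
  rintro ⟨f, hf⟩
  let _ : Algebra K M := ((algebraMap L M).comp (algebraMap K L)).toAlgebra
  have _ : IsScalarTower K L M := IsScalarTower.of_algebraMap_eq' rfl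
  have _ : FiniteDimensional K M := FiniteDimensional.trans K L M
  have _ : Normal K (AlgebraicClosure M) := by
    have _ : Algebra.IsAlgebraic K (AlgebraicClosure M) := Algebra.IsAlgebraic.trans K M _
    have _ : IsAlgClosure K (AlgebraicClosure M) := ⟨inferInstance, inferInstance⟩
    exact IsAlgClosure.normal K _
  let N := IntermediateField.normalClosure K M (AlgebraicClosure M)
  have _ : FiniteDimensional K N := normalClosure.is_finiteDimensional K M (AlgebraicClosure M)
  have _ : Normal K N := normalClosure.normal K M (AlgebraicClosure M)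
  have _ : IsGalois K N := ⟨⟩
  let _ : Algebra L N := ((algebraMap M N).comp (algebraMap L M)).toAlgebra
  have _ : IsScalarTower L M N := IsScalarTower.of_algebraMap_eq' rfl
  have _ : IsScalarTower K L N := IsScalarTower.of_algebraMap_eq' (by
    rw [IsScalarTower.algebraMap_eq K M N]
    rfl)
  have h1 : Group.IsSolvable (N ≃ₐ[K] N) := hK N
  have h2 : Group.IsSolvable (M ≃ₐ[L] M) := ps_aux K L M N h1
  exact a5_not_solvable (Group.isSolvable_of_surjective hf)

end Pool.MP_bfb583_al.EC
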