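import Pool.Agent.Lib.MP_bfb583_al.EC.Stmts

set_option autoImplicit false

/-!
# No nonconstant points over `k(m)`
-/

namespace Pool.MP_bfb583_al.EC

open Polynomial

namespace Rat

variable {k : Type} [Field k]

/-- If `N - eᵢ q²` (`i = 1, 2, 3`) have a square as product then `N`, `q` are constant. -/
lemma core [CharZero k] {N q r : k[X]} (hq : q ≠ 0) {e1 e2 e3 : k} (h12 : e1 ≠ e2)
    (h13 : e1 ≠ e3) (h23 : e2 ≠ e3) (hco : IsCoprime N (q ^ 2))
    (h : r ^ 2 = (N - C e1 * q ^ 2) * (N - C e2 * q ^ 2) * (N - C e3 * q ^ 2)) :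
    derivative N = 0 ∧ derivative (q ^ 2) = 0 := by
  classical
  set Q := q ^ 2 with hQ
  have hQ0 : Q ≠ 0 := pow_ne_zero _ hq
  have hPQ : ∀ e : k, IsCoprime (N - C e * Q) Q := by
    intro e
    have h1 := hco.add_mul_right_left (-C e)
    have e' : N + -C e * Q = N - C e * Q := by ring
    rwa [e'] at h1
  have hPP : ∀ e e' : k, e ≠ e' → IsCoprime (N - C e * Q) (N - C e' * Q) := by
    intro e e' he
    have h1 : IsCoprime (N - C e * Q) (C (e - e') * Q) := by
      refine IsCoprime.mul_right ?_ (hPQ e)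
      exact ⟨0, C (e - e')⁻¹, by
        rw [zero_mul, zero_add, ← C_mul, inv_mul_cancel₀ (sub_ne_zero.2 he), C_1]⟩
    have h2 := h1.add_mul_left_right 1
    have e'' : C (e - e') * Q + (N - C e * Q) * 1 = N - C e' * Q := by
      rw [C_sub]
      ring
    rwa [e''] at h2
  have hW : ∀ e : k, wronskian (N - C e * Q) Q = wronskian N Q := by
    intro e
    unfold wronskian
    simp only [derivative_sub, derivative_mul, derivative_C, zero_mul, zero_add]
    ring
  -- a vanishing member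
  have hzero : ∀ e : k, N - C e * Q = 0 → derivative N = 0 ∧ derivative Q = 0 := by
    intro e he
    have h1 := hPQ e
    rw [he, isCoprime_zero_left] at h1
    have h2 : derivative Q = 0 := by
      obtain ⟨c, -, hc⟩ := Polynomial.isUnit_iff.1 h1
      rw [← hc, derivative_C]
    refine ⟨?_, h2⟩
    have h3 : N = C e * Q := by linear_combination he
    rw [h3, derivative_mul, derivative_C, h2]
    ring
  by_cases hz1 : N - C e1 * Q = 0
  · exact hzero _ hz1
  by_cases hz2 : N - C e2 * Q = 0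
  · exact hzero _ hz2
  by_cases hz3 : N - C e3 * Q = 0
  · exact hzero _ hz3
  set P1 := N - C e1 * Q with hP1
  set P2 := N - C e2 * Q with hP2
  set P3 := N - C e3 * Q with hP3
  have c12 : IsCoprime P1 P2 := hPP _ _ h12
  have c13 : IsCoprime P1 P3 := hPP _ _ h13
  have c23 : IsCoprime P2 P3 := hPP _ _ h23
  obtain ⟨a1, ha1⟩ := exists_associated_pow_of_mul_eq_pow' (c12.mul_right c13)
    (show P1 * (P2 * P3) = r ^ 2 by rw [h]; ring)
  obtain ⟨a2, ha2⟩ := exists_associated_pow_of_mul_eq_pow' (c12.symm.mul_right c23)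
    (show P2 * (P1 * P3) = r ^ 2 by rw [h]; ring)
  obtain ⟨a3, ha3⟩ := exists_associated_pow_of_mul_eq_pow' (c13.symm.mul_right c23.symm)
    (show P3 * (P1 * P2) = r ^ 2 by rw [h]; ring)
  have hdeg : ∀ {a P : k[X]}, Associated (a ^ 2) P → P.natDegree = 2 * a.natDegree := by
    intro a P haP
    have h1 := natDegree_eq_of_degree_eq (degree_eq_degree_of_associated haP)
    rw [natDegree_pow] at h1
    exact h1.symm
  have hdvd : ∀ {a P : k[X]} (R : k[X]), Associated (a ^ 2) P → a ∣ wronskian P R := by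
    intro a P R haP
    obtain ⟨s, hs⟩ := haP.dvd
    rw [hs]
    unfold wronskian
    refine dvd_sub ⟨a * s * derivative R, by ring⟩ ?_
    simp only [derivative_mul, derivative_pow]
    refine ⟨(C ((2 : ℕ) : k) * derivative a * s + a * derivative s) * R, ?_⟩
    simp only [Nat.add_one_sub_one, pow_one]
    ring
  by_cases hw : wronskian N Q = 0
  · exact (hco.wronskian_eq_zero_iff).1 hw
  exfalso
  have hWc : wronskian P1 P2 = C (e1 - e2) * wronskian N Q := by
    rw [hP1, hP2]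
    unfold wronskian
    simp only [derivative_sub, derivative_mul, derivative_C, zero_mul, zero_add, C_sub]
    ring
  have hc : C (e1 - e2) ≠ (0 : k[X]) := by
    rw [Ne, C_eq_zero]
    exact sub_ne_zero.2 h12
  have d1 : (wronskian N Q).natDegree < P1.natDegree + P2.natDegree := by
    have h1 : wronskian P1 P2 ≠ 0 := by
      rw [hWc]
      exact mul_ne_zero hc hw
    have h2 := natDegree_wronskian_lt_add h1
    rwa [hWc, natDegree_C_mul (sub_ne_zero.2 h12)] at h2
  have d2 : (wronskian N Q).natDegree < P3.natDegree + Q.natDegree := by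
    have h1 := natDegree_wronskian_lt_add (a := P3) (b := Q) (by rw [hP3, hW]; exact hw)
    rwa [hP3, hW] at h1
  have v1 : a1 ∣ wronskian N Q := by
    have := hdvd Q ha1
    rwa [hP1, hW] at this
  have v2 : a2 ∣ wronskian N Q := by
    have := hdvd Q ha2
    rwa [hP2, hW] at this
  have v3 : a3 ∣ wronskian N Q := by
    have := hdvd Q ha3
    rwa [hP3, hW] at this
  have v4 : q ∣ wronskian N Q := by
    have h1 : q ∣ wronskian Q N := hdvd N (by rw [hQ])
    have h2 : wronskian Q N = -wronskian N Q := by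
      unfold wronskian
      ring
    rw [h2] at h1
    exact (dvd_neg).1 h1
  have sub1 : a1 ∣ P1 := (dvd_pow_self a1 two_ne_zero).trans ha1.dvd
  have sub2 : a2 ∣ P2 := (dvd_pow_self a2 two_ne_zero).trans ha2.dvd
  have sub3 : a3 ∣ P3 := (dvd_pow_self a3 two_ne_zero).trans ha3.dvd
  have subq : q ∣ Q := dvd_pow_self q two_ne_zero
  have k12 : IsCoprime a1 a2 := IsCoprime.of_isCoprime_of_dvd_left
    (IsCoprime.of_isCoprime_of_dvd_right c12 sub2) sub1
  have k13 : IsCoprime a1 a3 := IsCoprime.of_isCoprime_of_dvd_left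
    (IsCoprime.of_isCoprime_of_dvd_right c13 sub3) sub1
  have k23 : IsCoprime a2 a3 := IsCoprime.of_isCoprime_of_dvd_left
    (IsCoprime.of_isCoprime_of_dvd_right c23 sub3) sub2
  have k1 : IsCoprime a1 q := IsCoprime.of_isCoprime_of_dvd_left
    (IsCoprime.of_isCoprime_of_dvd_right (hPQ e1) subq) sub1
  have k2 : IsCoprime a2 q := IsCoprime.of_isCoprime_of_dvd_left
    (IsCoprime.of_isCoprime_of_dvd_right (hPQ e2) subq) sub2
  have k3 : IsCoprime a3 q := IsCoprime.of_isCoprime_of_dvd_left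
    (IsCoprime.of_isCoprime_of_dvd_right (hPQ e3) subq) sub3
  have hall : a1 * a2 * (a3 * q) ∣ wronskian N Q := by
    refine IsCoprime.mul_dvd ?_ (k12.mul_dvd v1 v2) (k3.mul_dvd v3 v4)
    exact (IsCoprime.mul_left (k13.mul_right k1) (k23.mul_right k2))
  have n1 : a1 ≠ 0 := by
    rintro rfl
    rw [zero_dvd_iff] at v1
    exact hw v1
  have n2 : a2 ≠ 0 := by
    rintro rfl
    rw [zero_dvd_iff] at v2
    exact hw v2
  have n3 : a3 ≠ 0 := by
    rintro rfl
    rw [zero_dvd_iff] at v3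
    exact hw v3
  have hle := natDegree_le_of_dvd hall hw
  rw [natDegree_mul (mul_ne_zero n1 n2) (mul_ne_zero n3 hq), natDegree_mul n1 n2,
    natDegree_mul n3 hq] at hle
  rw [hdeg ha1, hdeg ha2] at d1
  have hQd : Q.natDegree = 2 * q.natDegree := by rw [hQ, natDegree_pow]
  rw [hdeg ha3, hQd] at d2
  omega

lemma exists_C_of_derivative [CharZero k] {p : k[X]} (h : derivative p = 0) : ∃ c, p = C c :=
  ⟨_, eq_C_of_natDegree_eq_zero (derivative_eq_zero.1 h)⟩

/-- The three roots of the cubic. -/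
lemma roots [CharZero k] [IsAlgClosed k] {A B : k} (hAB : 4 * A ^ 3 + 27 * B ^ 2 ≠ 0) :
    ∃ e1 e2 e3 : k, e1 ≠ e2 ∧ e1 ≠ e3 ∧ e2 ≠ e3 ∧ e1 + e2 + e3 = 0 ∧
      A = e1 * e2 + e1 * e3 + e2 * e3 ∧ B = -(e1 * e2 * e3) := by
  obtain ⟨e1, h1⟩ := IsAlgClosed.exists_root (X ^ 3 + C A * X + C B : k[X]) (by
    have : (X ^ 3 + C A * X + C B : k[X]).degree = 3 := by compute_degree!
    rw [this]
    norm_num)
  obtain ⟨e2, h2⟩ := IsAlgClosed.exists_root (X ^ 2 + C e1 * X + C (A + e1 ^ 2) : k[X]) (by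
    have : (X ^ 2 + C e1 * X + C (A + e1 ^ 2) : k[X]).degree = 2 := by compute_degree!
    rw [this]
    norm_num)
  simp only [IsRoot.def, eval_add, eval_pow, eval_X, eval_mul, eval_C] at h1 h2
  have hA : A = -(e2 ^ 2 + e1 * e2 + e1 ^ 2) := by linear_combination h2
  have hB : B = -(e1 ^ 3 + A * e1) := by linear_combination h1
  have hdisc : 4 * A ^ 3 + 27 * B ^ 2 =
      -((e1 - e2) ^ 2 * (e1 - (-e1 - e2)) ^ 2 * (e2 - (-e1 - e2)) ^ 2) := by
    rw [hB, hA]
    ring
  rw [hdisc] at hAB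
  refine ⟨e1, e2, -e1 - e2, ?_, ?_, ?_, by ring, ?_, ?_⟩
  · intro h
    apply hAB
    rw [h]
    ring
  · intro h
    apply hAB
    rw [← h]
    ring
  · intro h
    apply hAB
    rw [← h]
    ring
  · rw [hA]
    ring
  · rw [hB, hA]
    ring

/-- The coordinates of a point over `k(t)` are constant. -/
lemma const [CharZero k] [IsAlgClosed k] {A B : k} (hAB : 4 * A ^ 3 + 27 * B ^ 2 ≠ 0)
    (u y : RatFunc k) (h : y ^ 2 = u ^ 3 + RatFunc.C A * u + RatFunc.C B) :
    ∃ u0 y0 : k, u = RatFunc.C u0 ∧ y = RatFunc.C y0 := by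
  classical
  obtain ⟨e1, e2, e3, h12, h13, h23, hs, hA, hB⟩ := roots hAB
  set N := u.num with hNd
  set D := u.denom with hDd
  set N' := y.num with hNd'
  set D' := y.denom with hDd'
  have hD : D ≠ 0 := u.denom_ne_zero
  have hD' : D' ≠ 0 := y.denom_ne_zero
  have hDm : D.Monic := u.monic_denom
  have hDm' : D'.Monic := y.monic_denom
  have hinj : Function.Injective (algebraMap k[X] (RatFunc k)) := RatFunc.algebraMap_injective k
  have hu : algebraMap k[X] (RatFunc k) N = u * algebraMap k[X] (RatFunc k) D := by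
    have h1 := u.num_div_denom
    have h2 : algebraMap k[X] (RatFunc k) D ≠ 0 := by
      rw [Ne, map_eq_zero_iff _ hinj]
      exact hD
    rw [eq_comm, ← eq_div_iff h2]
    exact h1.symm
  have hyy : algebraMap k[X] (RatFunc k) N' = y * algebraMap k[X] (RatFunc k) D' := by
    have h1 := y.num_div_denom
    have h2 : algebraMap k[X] (RatFunc k) D' ≠ 0 := by
      rw [Ne, map_eq_zero_iff _ hinj]
      exact hD'
    rw [eq_comm, ← eq_div_iff h2]
    exact h1.symm
  have hcoN : IsCoprime N D := u.isCoprime_num_denom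
  have hcoN' : IsCoprime N' D' := y.isCoprime_num_denom
  have heq : N' ^ 2 * D ^ 3 = D' ^ 2 * (N ^ 3 + C A * N * D ^ 2 + C B * D ^ 3) := by
    apply hinj
    simp only [map_mul, map_pow, map_add, RatFunc.algebraMap_C]
    rw [hu, hyy]
    linear_combination (algebraMap k[X] (RatFunc k) D' ^ 2 * algebraMap k[X] (RatFunc k) D ^ 3) * h
  have hco1 : IsCoprime (N ^ 3 + C A * N * D ^ 2 + C B * D ^ 3) D := by
    have h1 : IsCoprime (N ^ 3) D := hcoN.pow_left
    have h2 := h1.add_mul_left_left (C A * N * D + C B * D ^ 2)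
    have e : N ^ 3 + D * (C A * N * D + C B * D ^ 2) =
        N ^ 3 + C A * N * D ^ 2 + C B * D ^ 3 := by ring
    rwa [e] at h2
  have hd1 : D ^ 3 ∣ D' ^ 2 := by
    have h1 : D ^ 3 ∣ D' ^ 2 * (N ^ 3 + C A * N * D ^ 2 + C B * D ^ 3) :=
      ⟨N' ^ 2, by rw [← heq]; ring⟩
    exact (hco1.symm.pow_left (m := 3)).dvd_of_dvd_mul_right h1
  have hd2 : D' ^ 2 ∣ D ^ 3 := by
    have h1 : D' ^ 2 ∣ N' ^ 2 * D ^ 3 := ⟨_, heq⟩
    exact ((hcoN'.symm).pow (m := 2) (n := 2)).dvd_of_dvd_mul_left h1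
  have hDD : D ^ 3 = D' ^ 2 :=
    eq_of_monic_of_associated (hDm.pow 3) (hDm'.pow 2) (associated_of_dvd_dvd hd1 hd2)
  have hdv : D ∣ D' := by
    have h1 : D ^ 2 ∣ D' ^ 2 := (pow_dvd_pow D (by norm_num : 2 ≤ 3)).trans hd1
    exact (UniqueFactorizationMonoid.pow_dvd_pow_iff_dvd two_ne_zero).1 h1
  obtain ⟨q, hq⟩ := hdv
  have hDq : D = q ^ 2 := by
    have h1 : D ^ 2 * D = D ^ 2 * q ^ 2 := by
      calc D ^ 2 * D = D ^ 3 := by ring
        _ = D' ^ 2 := hDD
        _ = D ^ 2 * q ^ 2 := by rw [hq]; ring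
    exact mul_left_cancel₀ (pow_ne_zero 2 hD) h1
  have hq0 : q ≠ 0 := by
    rintro rfl
    rw [mul_zero] at hq
    exact hD' hq
  have heq2 : N' ^ 2 = (N - C e1 * q ^ 2) * (N - C e2 * q ^ 2) * (N - C e3 * q ^ 2) := by
    have h1 : D ^ 3 * N' ^ 2 = D ^ 3 * (N ^ 3 + C A * N * D ^ 2 + C B * D ^ 3) := by
      rw [mul_comm, heq, hDD]
    have h2 := mul_left_cancel₀ (pow_ne_zero 3 hD) h1
    have h3 : C e1 + C e2 + C e3 = 0 := by rw [← C_add, ← C_add, hs, C_0]
    rw [h2, hA, hB, hDq]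
    simp only [C_add, C_mul, C_neg]
    linear_combination (N ^ 2 * q ^ 2) * h3
  obtain ⟨hc1, hc2⟩ := core hq0 h12 h13 h23 (by rw [← hDq]; exact hcoN) heq2
  obtain ⟨n0, hn0⟩ := exists_C_of_derivative hc1
  obtain ⟨d0, hd0⟩ := exists_C_of_derivative hc2
  rw [← hDq] at hd0
  have hdeg : D'.natDegree = 0 := by
    have h1 : (D ^ 3).natDegree = 0 := by rw [hd0, ← C_pow, natDegree_C]
    rw [hDD, natDegree_pow] at h1
    omega
  have hdegN : N'.natDegree = 0 := by
    have h1 : N' ^ 2 = C ((n0 - e1 * d0) * (n0 - e2 * d0) * (n0 - e3 * d0)) := by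
      rw [heq2, ← hDq, hn0, hd0]
      simp only [C_sub, C_mul]
    have h2 := congrArg natDegree h1
    rw [natDegree_C, natDegree_pow] at h2
    omega
  obtain ⟨n1, hn1⟩ : ∃ c, N' = C c := ⟨_, eq_C_of_natDegree_eq_zero hdegN⟩
  obtain ⟨d1, hd1'⟩ : ∃ c, D' = C c := ⟨_, eq_C_of_natDegree_eq_zero hdeg⟩
  refine ⟨n0 / d0, n1 / d1, ?_, ?_⟩
  · have h1 := u.num_div_denom
    rw [← hNd, ← hDd, hn0, hd0, RatFunc.algebraMap_C, RatFunc.algebraMap_C] at h1
    rw [map_div₀]
    exact h1.symm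
  · have h1 := y.num_div_denom
    rw [← hNd', ← hDd', hn1, hd1', RatFunc.algebraMap_C, RatFunc.algebraMap_C] at h1
    rw [map_div₀]
    exact h1.symm

end Rat

theorem stRat : StRat := by
  intro k Ω _ _ _ _ _ A B m x y hAB hm hx hy h
  have hφ : nonZeroDivisors k[X] ≤ (nonZeroDivisors Ω).comap (aeval m : k[X] →ₐ[k] Ω).toRingHom := by
    intro p hp
    rw [Submonoid.mem_comap, mem_nonZeroDivisors_iff_ne_zero]
    intro h0
    exact hm ⟨p, mem_nonZeroDivisors_iff_ne_zero.1 hp, h0⟩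
  set j : RatFunc k →+* Ω := RatFunc.liftRingHom (aeval m : k[X] →ₐ[k] Ω).toRingHom hφ with hj
  have hj1 : ∀ p q : k[X], j (algebraMap _ _ p / algebraMap _ _ q) = aeval m p / aeval m q :=
    fun p q => RatFunc.liftRingHom_apply_div _ hφ p q
  have hjC : ∀ c : k, j (RatFunc.C c) = algebraMap k Ω c := by
    intro c
    have h3 := hj1 (C c) 1
    rw [map_one, div_one, RatFunc.algebraMap_C, map_one, div_one, aeval_C] at h3
    exact h3
  obtain ⟨p1, q1, rfl⟩ := (IntermediateField.mem_adjoin_simple_iff k x).1 hx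
  obtain ⟨p2, q2, rfl⟩ := (IntermediateField.mem_adjoin_simple_iff k y).1 hy
  rw [← hj1, ← hj1, ← hjC, ← hjC, ← map_pow, ← map_pow, ← map_mul, ← map_add, ← map_add] at h
  obtain ⟨u0, y0, h1, h2⟩ := Rat.const hAB _ _ (j.injective h)
  rw [← hj1, ← hj1, h1, h2, hjC, hjC]
  exact ⟨⟨u0, rfl⟩, ⟨y0, rfl⟩⟩

end Pool.MP_bfb583_al.EC
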