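import Pool.Agent.Lib.MP_bfb583_al.EC.Half

set_option autoImplicit false

/-!
STAR: the sum of the five points through one root is constant.
-/

namespace Pool.MP_bfb583_al.EC

open Polynomial WeierstrassCurve
open scoped Classical

namespace StarAux

/-- one transcendental element is as good as another -/
theorem alg_of_trans {k Ω : Type} [Field k] [Field Ω] [Algebra k Ω] {m s : Ω}
    (hm : Algebra.IsAlgebraic (IntermediateField.adjoin k {m}) Ω) (hs : Transcendental k s) :
    Algebra.IsAlgebraic (IntermediateField.adjoin k {s}) Ω := by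
  have h1 : Algebra.IsAlgebraic (Algebra.adjoin k {m}) Ω :=
    IntermediateField.isAlgebraic_adjoin_iff_top.1 hm
  have h2 : Algebra.trdeg k Ω ≤ 1 := by
    have := Algebra.IsAlgebraic.trdeg_le_cardinalMk k ({m} : Set Ω)
    simpa using this
  have h3 : AlgebraicIndependent k (fun _ : Unit => s) := algebraicIndependent_unique_type_iff.2 hs
  have h4 : IsTranscendenceBasis k (fun _ : Unit => s) :=
    h3.isTranscendenceBasis_of_trdeg_le_of_finite (by simpa using h2)
  have h5 := h4.isAlgebraic_field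
  rwa [Set.range_const] at h5

/-- the fixed field -/
theorem mem_of_fixed {k Ω : Type} [Field k] [CharZero k] [Field Ω] [Algebra k Ω] [IsAlgClosed Ω]
    {m x : Ω} (hm : Algebra.IsAlgebraic (IntermediateField.adjoin k {m}) Ω)
    (hx : ∀ σ : Ω ≃ₐ[k] Ω, σ m = m → σ x = x) : x ∈ IntermediateField.adjoin k {m} := by
  have hcl : IsAlgClosure (IntermediateField.adjoin k {m}) Ω := ⟨inferInstance, hm⟩
  have hgal : IsGalois (IntermediateField.adjoin k {m}) Ω := inferInstance
  have h := (InfiniteGalois.mem_range_algebraMap_iff_fixed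
    (k := IntermediateField.adjoin k {m}) (K := Ω) x).2 fun τ => by
      have h1 := hx (τ.restrictScalars k) (by
        have h2 := τ.commutes ⟨m, IntermediateField.mem_adjoin_simple_self k m⟩
        exact h2)
      exact h1
  obtain ⟨e, he⟩ := h
  rw [← he]
  exact e.2

/-- an automorphism fixing the coefficients permutes the roots -/
theorem exists_perm {F : Type} [Field F] {ν s : F} {v : Fin 6 → F} (hv : Rts ν s v)
    (σ : F ≃+* F) (hν : σ ν = ν) (hs : σ s = s) :
    ∃ π : Equiv.Perm (Fin 6), ∀ i, σ (v i) = v (π i) := by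
  have h1 : ∀ i, ∃ j, σ (v i) = v j := by
    intro i
    have h2 : (fp ν s).eval (v i) = 0 := by
      rw [hv.2, eval_prod]
      exact Finset.prod_eq_zero (Finset.mem_univ i) (by simp)
    have h3 : (fp ν s).eval (σ (v i)) = 0 := by
      have h4 := congrArg σ h2
      rw [eval_fp] at h4 ⊢
      simpa [hν, hs, map_ofNat] using h4
    rw [hv.2, eval_prod, Finset.prod_eq_zero_iff] at h3
    obtain ⟨j, -, hj⟩ := h3
    refine ⟨j, ?_⟩
    simpa [sub_eq_zero] using hj
  choose π hπ using h1
  have hinj : Function.Injective π := by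
    intro i j hij
    apply hv.1
    apply σ.injective
    rw [hπ, hπ, hij]
  exact ⟨Equiv.ofBijective π (Finite.injective_iff_bijective.1 hinj), hπ⟩

/-- every root is the image of the last one under an even permutation -/
theorem exists_even (i : Fin 6) : ∃ π : Equiv.Perm (Fin 6), π ∈ alternatingGroup (Fin 6) ∧
    π 5 = i := by
  have key : ∀ a b : Fin 6, i ≠ 5 → a ≠ b → a ≠ 5 → b ≠ 5 → a ≠ i → b ≠ i →
      ∃ π : Equiv.Perm (Fin 6), π ∈ alternatingGroup (Fin 6) ∧ π 5 = i := by
    intro a b h1 h2 h3 h4 h5 h6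
    refine ⟨Equiv.swap 5 i * Equiv.swap a b, ?_, ?_⟩
    · rw [Equiv.Perm.mem_alternatingGroup, Equiv.Perm.sign_mul, Equiv.Perm.sign_swap h1.symm,
        Equiv.Perm.sign_swap h2]
      rfl
    · rw [Equiv.Perm.mul_apply, Equiv.swap_apply_of_ne_of_ne h3.symm h4.symm,
        Equiv.swap_apply_left]
  fin_cases i
  · exact key 1 2 (by decide) (by decide) (by decide) (by decide) (by decide) (by decide)
  · exact key 0 2 (by decide) (by decide) (by decide) (by decide) (by decide) (by decide)
  · exact key 0 1 (by decide) (by decide) (by decide) (by decide) (by decide) (by decide)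
  · exact key 0 1 (by decide) (by decide) (by decide) (by decide) (by decide) (by decide)
  · exact key 0 1 (by decide) (by decide) (by decide) (by decide) (by decide) (by decide)
  · exact ⟨1, one_mem _, rfl⟩

theorem const_map {K k Ω : Type} [Field K] [Field k] [Field Ω] [Algebra K k] [Algebra K Ω]
    [Algebra k Ω] [IsScalarTower K k Ω] (W : WeierstrassCurve K) (σ : Ω ≃ₐ[k] Ω) (R : Pt W k) :
    Affine.Point.map (W' := W) ((σ : Ω →ₐ[k] Ω).restrictScalars K)
      (Affine.Point.baseChange k Ω R) = Affine.Point.baseChange k Ω R := by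
  rcases R with _ | ⟨x, y, h⟩
  · rfl
  · rw [Affine.Point.map_some, Affine.Point.map_some, Affine.Point.some.injEq]
    exact ⟨σ.commutes x, σ.commutes y⟩

theorem good_map {k Ω : Type} [Field k] [Field Ω] [Algebra k Ω] {u : k} (h : GoodU u) :
    GoodU (algebraMap k Ω u) := by
  have hinj := (algebraMap k Ω).injective
  refine ⟨?_, ?_, ?_, ?_, ?_, ?_⟩
  · rw [Ne, map_eq_zero_iff _ hinj]; exact h.u0
  · intro h1
    exact h.u1 (hinj (by rw [h1, map_one]))
  · intro h1
    refine h.u2 (hinj ?_)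
    rw [map_zero, ← h1]
    simp [map_ofNat]
  · intro h1
    refine h.q1 (hinj ?_)
    rw [map_zero, ← h1]
    simp [map_ofNat]
  · intro h1
    refine h.q2 (hinj ?_)
    rw [map_zero, ← h1]
    simp [map_ofNat]
  · intro h1
    refine h.q3 (hinj ?_)
    rw [map_zero, ← h1]
    simp [map_ofNat]

theorem nu_map {k Ω : Type} [Field k] [Field Ω] [Algebra k Ω] (u : k) :
    nu (algebraMap k Ω u) = algebraMap k Ω (nu u) := by
  unfold nu
  simp [map_ofNat]

theorem fp_map {k Ω : Type} [Field k] [Field Ω] [Algebra k Ω] (ν s : k) :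
    (fp ν s).map (algebraMap k Ω) = fp (algebraMap k Ω ν) (algebraMap k Ω s) := by
  unfold fp
  simp [map_ofNat]

/-- the parameter `s(m)` is transcendental -/
theorem trans_s {k Ω : Type} [Field k] [CharZero k] [IsAlgClosed k] [Field Ω] [Algebra k Ω]
    (u : k) (m : Ω) (hm : Transcendental k m)
    (hw : (fp (nu (algebraMap k Ω u)) (sM (algebraMap k Ω u) m)).IsRoot
      (wM (algebraMap k Ω u) m)) : Transcendental k (sM (algebraMap k Ω u) m) := by
  have : CharZero Ω := charZero_of_injective_algebraMap (algebraMap k Ω).injective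
  intro hs
  obtain ⟨s', hs'⟩ := Half.mem_range_of_integral hs.isIntegral
  rw [← hs', nu_map, ← fp_map] at hw
  have hw1 : IsIntegral k (wM (algebraMap k Ω u) m) := by
    refine ⟨fp (nu u) s', ?_, ?_⟩
    · unfold fp
      monicity!
    · rw [← eval_map]
      exact hw
  obtain ⟨w', hw'⟩ := Half.mem_range_of_integral hw1
  apply hm
  by_cases h0 : 2 * m - e0 (algebraMap k Ω u) = 0
  · have h1 : m = algebraMap k Ω (e0 u / 2) := by
      have h2 : e0 (algebraMap k Ω u) = algebraMap k Ω (e0 u) := by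
        unfold e0
        simp [map_ofNat]
      rw [h2] at h0
      rw [map_div₀, map_ofNat]
      have h3 : (2 : Ω) ≠ 0 := two_ne_zero
      field_simp
      linear_combination h0
    rw [h1]
    exact isAlgebraic_algebraMap _
  · have h1 : algebraMap k Ω w' * (2 * m - e0 (algebraMap k Ω u)) =
        3 / (algebraMap k Ω u) ^ 2 - m ^ 2 := by
      rw [hw']
      unfold wM
      rw [div_mul_cancel₀ _ h0]
    have h2 : e0 (algebraMap k Ω u) = algebraMap k Ω (e0 u) := by
      unfold e0
      simp [map_ofNat]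
    have h3 : (3 : Ω) / (algebraMap k Ω u) ^ 2 = algebraMap k Ω (3 / u ^ 2) := by
      simp [map_ofNat]
    rw [h2, h3] at h1
    refine IsIntegral.isAlgebraic ⟨X ^ 2 + C (2 * w') * X + C (-(w' * e0 u + 3 / u ^ 2)),
      by monicity!, ?_⟩
    simp only [eval₂_add, eval₂_mul, eval₂_pow, eval₂_X, eval₂_C]
    simp only [map_mul, map_neg, map_add, map_ofNat]
    linear_combination h1

end StarAux

open StarAux in
theorem stStar (hC : StC1) (hR : StRat) (_hB : StBpt) : StStar := by
  intro K k Ω _ _ _ _ _ _ _ _ _ _ W _ u μ m v hu hμ h4 h6 hm halg hv hv5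
  have hchar : CharZero Ω := charZero_of_injective_algebraMap (algebraMap k Ω).injective
  obtain ⟨uΩ, huΩ⟩ : ∃ x, x = algebraMap k Ω u := ⟨_, rfl⟩
  obtain ⟨μΩ, hμΩ⟩ : ∃ x, x = algebraMap k Ω μ := ⟨_, rfl⟩
  have hroot5 := isRoot_of_rts hv 5
  rw [hv5] at hroot5
  have hs := trans_s u m hm hroot5
  have hsalg := alg_of_trans halg hs
  rw [← huΩ, ← hμΩ]
  rw [← huΩ] at hv hv5 hs hsalg
  obtain ⟨t, ht⟩ : ∃ x, x = tM uΩ m := ⟨_, rfl⟩
  obtain ⟨s, hss⟩ : ∃ x, x = sM uΩ m := ⟨_, rfl⟩
  rw [← ht]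
  rw [← hss] at hv hs hsalg
  have hts : t ^ 2 = s - s0 (algebraMap k Ω u) := by
    rw [hss, sM, ← ht, huΩ]
    ring
  -- action on the sums
  have hact : ∀ (σ : Ω ≃ₐ[k] Ω) (π : Equiv.Perm (Fin 6)), σ t = t → (∀ i, σ (v i) = v (π i)) →
      ∀ i, Affine.Point.map (W' := W) ((σ : Ω →ₐ[k] Ω).restrictScalars K)
        (∑ j ∈ Finset.univ.erase i, bpt (W.baseChange Ω) uΩ μΩ t (v i) (v j)) =
        ∑ j ∈ Finset.univ.erase (π i), bpt (W.baseChange Ω) uΩ μΩ t (v (π i)) (v j) := by
    intro σ π hσt hσ i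
    rw [map_sum]
    refine Finset.sum_equiv π (fun j => ?_) fun j _ => ?_
    · simp
    · rw [map_bpt]
      change bpt (W.baseChange Ω) (σ uΩ) (σ μΩ) (σ t) (σ (v i)) (σ (v j)) = _
      rw [hσt, hσ, hσ, huΩ, hμΩ, σ.commutes, σ.commutes]
  -- the sum at the last root
  obtain ⟨S, hS⟩ : ∃ S : Pt W Ω, S = ∑ j ∈ Finset.univ.erase (5 : Fin 6),
    bpt (W.baseChange Ω) uΩ μΩ t (v 5) (v j) := ⟨_, rfl⟩
  have hfix : ∀ σ : Ω ≃ₐ[k] Ω, σ m = m →
      Affine.Point.map (W' := W) ((σ : Ω →ₐ[k] Ω).restrictScalars K) S = S := by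
    intro σ hσm
    have hσu : σ uΩ = uΩ := by rw [huΩ, σ.commutes]
    have hσt : σ t = t := by
      rw [ht]
      simp [tM, wM, e0, p0, hσu, hσm, map_ofNat]
    have hσs : σ s = s := by
      rw [hss]
      rw [ht] at hσt
      simp [sM, s0, hσu, hσt, map_ofNat]
    have hσν : σ (nu uΩ) = nu uΩ := by simp [nu, hσu, map_ofNat]
    obtain ⟨π, hπ⟩ := exists_perm hv σ.toRingEquiv hσν hσs
    have hπ' : ∀ i, σ (v i) = v (π i) := hπ
    have h5 : π 5 = 5 := by
      apply hv.1
      rw [← hπ', hv5]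
      simp [wM, e0, hσu, hσm, map_ofNat]
    have := hact σ π hσt hπ' 5
    rw [h5] at this
    rw [hS]
    exact this
  have hconst : ∃ R : Pt W k, Affine.Point.baseChange k Ω R = S := by
    rcases S with _ | ⟨x, y, h⟩
    · exact ⟨0, rfl⟩
    · have hxy : ∀ σ : Ω ≃ₐ[k] Ω, σ m = m → σ x = x ∧ σ y = y := by
        intro σ hσ
        have h1 := hfix σ hσ
        rw [Affine.Point.map_some, Affine.Point.some.injEq] at h1
        exact h1
      have hx := mem_of_fixed halg fun σ hσ => (hxy σ hσ).1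
      have hy := mem_of_fixed halg fun σ hσ => (hxy σ hσ).2
      have heq := (equation_short (W.baseChange Ω) x y).mp h.1
      rw [baseChange_a4, baseChange_a6, IsScalarTower.algebraMap_apply K k Ω,
        IsScalarTower.algebraMap_apply K k Ω, h4, h6] at heq
      obtain ⟨⟨a, ha⟩, ⟨b, hb⟩⟩ := hR k Ω (cA u μ) (cB u μ) m x y (disc_ne_zero hu hμ) hm hx hy heq
      subst ha
      subst hb
      have h' : (W.baseChange k).toAffine.Nonsingular a b :=
        (W.toAffine.baseChange_nonsingular (f := Algebra.ofId k Ω) (algebraMap k Ω).injective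
          a b).mp h
      exact ⟨Affine.Point.some a b h', rfl⟩
  obtain ⟨R, hRS⟩ := hconst
  refine ⟨R, fun i => ?_⟩
  obtain ⟨π, hπ, hπ5⟩ := exists_even i
  obtain ⟨σ, hσt, hσ⟩ := hC k Ω u s t v hu hs hsalg hts (by rw [← huΩ]; exact hv) π hπ
  have h1 := hact σ π hσt hσ 5
  rw [hπ5, ← hS, ← hRS, const_map] at h1
  exact h1

end Pool.MP_bfb583_al.EC
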