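import Pool.Agent.Lib.MP_bfb583_al.EC.Stmts
import Pool.Agent.Lib.MP_bfb583_al.EC.Ident

set_option autoImplicit false

/-!
T2: over `k(y)`, the four remaining roots are conjugate.
-/

namespace Pool.MP_bfb583_al.EC

open Polynomial

namespace T2

section Coeffs

variable {R : Type*} [CommRing R]

/-- `(y - 1)⁻¹ · 27 · ` the coefficient of `U`. -/
def k1 (ν y : R) : R :=
  DD y ^ 6 * (y + ν - 1) ^ 5 * (12 * ν * DD y + 2 * (y - 1) * NN ν y)

/-- The coefficient of `U²`. -/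
def k2 (ν y : R) : R :=
  DD y ^ 5 * (y + ν - 1) ^ 3 * (48 * ν ^ 2 - 18 * ν + 9)
    + 2 * (y - 1) * NN ν y * (12 * ν * DD y + 2 * (y - 1) * NN ν y) * DD y ^ 3 * (y + ν - 1) ^ 3
    - (y - 1) * DD y ^ 6 * (y + ν - 1) ^ 2

/-- The coefficient of `U³`. -/
def k3 (ν y : R) : R :=
  DD y ^ 3 * (y + ν - 1) * (64 * ν ^ 3 - 72 * ν ^ 2 + 18 * ν)
    + 2 * (y - 1) * NN ν y * (DD y ^ 2 * (y + ν - 1) * (48 * ν ^ 2 - 18 * ν + 9)
      + 2 * (y + ν - 1) * (y - 1) * NN ν y * (12 * ν * DD y + 2 * (y - 1) * NN ν y)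
      - (y - 1) * DD y ^ 3)
    - (y - 1) * DD y ^ 3 * (12 * ν * DD y + 2 * (y - 1) * NN ν y)

/-- The constant coefficient. -/
def k0 (ν y : R) : R := DD y ^ 9 * (y + ν - 1) ^ 7

variable {S : Type*} [CommRing S] (f : R →+* S)

theorem map_DD (y : R) : f (DD y) = DD (f y) := by
  simp only [DD, map_add, map_sub, map_mul, map_pow, map_one, map_ofNat]

theorem map_NN (ν y : R) : f (NN ν y) = NN (f ν) (f y) := by
  simp only [NN, map_add, map_sub, map_mul, map_one, map_ofNat]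

theorem map_k0 (ν y : R) : f (k0 ν y) = k0 (f ν) (f y) := by
  simp only [k0, map_DD, map_add, map_sub, map_mul, map_pow, map_one]

theorem map_k1 (ν y : R) : f (k1 ν y) = k1 (f ν) (f y) := by
  simp only [k1, map_DD, map_NN, map_add, map_sub, map_mul, map_pow, map_one, map_ofNat]

theorem map_k2 (ν y : R) : f (k2 ν y) = k2 (f ν) (f y) := by
  simp only [k2, map_DD, map_NN, map_add, map_sub, map_mul, map_pow, map_one, map_ofNat]

theorem map_k3 (ν y : R) : f (k3 ν y) = k3 (f ν) (f y) := by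
  simp only [k3, map_DD, map_NN, map_add, map_sub, map_mul, map_pow, map_one, map_ofNat]

end Coeffs

section Field

variable {F : Type} [Field F]

/-- The relation between sum and product of a pair. -/
theorem rel2 {ν y P Q : F} (hD : DD y ≠ 0) (he : y + ν - 1 ≠ 0)
    (hP : P = 2 * (y - 1) * NN ν y / DD y) (hQ : Q = (y - 1) * DD y / (y + ν - 1)) :
    Q ^ 2 * (P ^ 3 + 12 * ν * P ^ 2 + (48 * ν ^ 2 - 18 * ν + 9) * P
      + (64 * ν ^ 3 - 72 * ν ^ 2 + 18 * ν)) - 2 * P * Q ^ 3 - 12 * ν * Q ^ 3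
      - (54 * ν ^ 2 - 54 * ν) * Q - 27 * P = 0 := by
  rw [hP, hQ]
  field_simp
  unfold DD NN
  ring

/-- The value of `s`. -/
theorem rels {ν y P Q s : F} (hD : DD y ≠ 0) (he : y + ν - 1 ≠ 0) (hy : y - 1 ≠ 0)
    (hP : P = 2 * (y - 1) * NN ν y / DD y) (hQ : Q = (y - 1) * DD y / (y + ν - 1))
    (hs : s * BB ν y = AA ν y) :
    s * Q ^ 2 = -(P ^ 2 - Q) * Q ^ 3 - 12 * ν * P * Q ^ 3
      - (48 * ν ^ 2 - 18 * ν + 9) * Q ^ 3 + (54 * ν ^ 2 - 54 * ν) * P * Q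
      + 27 * (P ^ 2 - Q) := by
  have hB : BB ν y ≠ 0 := by
    unfold BB
    exact mul_ne_zero (mul_ne_zero hy (pow_ne_zero 4 hD)) (pow_ne_zero 2 he)
  have hs' : s = AA ν y / BB ν y := by
    rw [← hs, mul_div_cancel_right₀ _ hB]
  rw [hs', hP, hQ]
  unfold AA BB
  generalize y - 1 = m at *
  generalize DD y = D at *
  generalize NN ν y = N at *
  generalize y + ν - 1 = e at *
  field_simp
  ring

/-- The quartic factor. -/
theorem quartic [CharZero F] {ν y P Q s a b c : F} (hD : DD y ≠ 0) (he : y + ν - 1 ≠ 0) (hy : y - 1 ≠ 0)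
    (hP : P = 2 * (y - 1) * NN ν y / DD y) (hQ : Q = (y - 1) * DD y / (y + ν - 1))
    (hab : a + b = P) (hab' : a * b = Q)
    (hs : s * BB ν y = AA ν y) (hc : (fp ν s).IsRoot c) (hca : c ≠ a) (hcb : c ≠ b) :
    Q * (c ^ 4 + (12 * ν + P) * c ^ 3 + (48 * ν ^ 2 - 18 * ν + 9 + P * (12 * ν + P) - Q) * c ^ 2
      + (64 * ν ^ 3 - 72 * ν ^ 2 + 18 * ν + P * (48 * ν ^ 2 - 18 * ν + 9 + P * (12 * ν + P) - Q)
        - Q * (12 * ν + P)) * c) + 27 = 0 := by
  have h1 := rel2 hD he hP hQ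
  have h2 := rels hD he hy hP hQ hs
  rw [IsRoot, eval_fp] at hc
  have hQ0 : Q ≠ 0 := by
    rw [hQ]
    exact div_ne_zero (mul_ne_zero hy hD) he
  have h3 : (c ^ 2 - P * c + Q) * Q * (Q * (c ^ 4 + (12 * ν + P) * c ^ 3
      + (48 * ν ^ 2 - 18 * ν + 9 + P * (12 * ν + P) - Q) * c ^ 2
      + (64 * ν ^ 3 - 72 * ν ^ 2 + 18 * ν + P * (48 * ν ^ 2 - 18 * ν + 9 + P * (12 * ν + P) - Q)
        - Q * (12 * ν + P)) * c) + 27) = 0 := by
    clear hP hQ
    linear_combination Q ^ 2 * hc + c ^ 2 * h2 + (Q * c - P * c ^ 2) * h1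
  have h4 : c ^ 2 - P * c + Q = (c - a) * (c - b) := by
    rw [← hab, ← hab']
    ring
  rw [h4] at h3
  exact (mul_eq_zero.mp h3).resolve_left (mul_ne_zero (mul_ne_zero (sub_ne_zero.mpr hca)
    (sub_ne_zero.mpr hcb)) hQ0)

/-- The equation for `U = Δ / c`. -/
theorem eqnU [CharZero F] {ν y P Q c : F} (hD : DD y ≠ 0) (he : y + ν - 1 ≠ 0)
    (hP : P = 2 * (y - 1) * NN ν y / DD y) (hQ : Q = (y - 1) * DD y / (y + ν - 1)) (hc : c ≠ 0)
    (h : Q * (c ^ 4 + (12 * ν + P) * c ^ 3 + (48 * ν ^ 2 - 18 * ν + 9 + P * (12 * ν + P) - Q) * c ^ 2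
      + (64 * ν ^ 3 - 72 * ν ^ 2 + 18 * ν + P * (48 * ν ^ 2 - 18 * ν + 9 + P * (12 * ν + P) - Q)
        - Q * (12 * ν + P)) * c) + 27 = 0) :
    (DD y ^ 2 * (y + ν - 1) ^ 2 / c) ^ 4
      + (y - 1) * k3 ν y / 27 * (DD y ^ 2 * (y + ν - 1) ^ 2 / c) ^ 3
      + (y - 1) * k2 ν y / 27 * (DD y ^ 2 * (y + ν - 1) ^ 2 / c) ^ 2
      + (y - 1) * k1 ν y / 27 * (DD y ^ 2 * (y + ν - 1) ^ 2 / c)
      + (y - 1) * k0 ν y / 27 = 0 := by
  have h27 : (27 : F) ≠ 0 := by norm_num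
  have key : (DD y ^ 2 * (y + ν - 1) ^ 2 / c) ^ 4
      + (y - 1) * k3 ν y / 27 * (DD y ^ 2 * (y + ν - 1) ^ 2 / c) ^ 3
      + (y - 1) * k2 ν y / 27 * (DD y ^ 2 * (y + ν - 1) ^ 2 / c) ^ 2
      + (y - 1) * k1 ν y / 27 * (DD y ^ 2 * (y + ν - 1) ^ 2 / c)
      + (y - 1) * k0 ν y / 27 = (DD y ^ 2 * (y + ν - 1) ^ 2 / c) ^ 4 / 27 *
      (Q * (c ^ 4 + (12 * ν + P) * c ^ 3
        + (48 * ν ^ 2 - 18 * ν + 9 + P * (12 * ν + P) - Q) * c ^ 2
      + (64 * ν ^ 3 - 72 * ν ^ 2 + 18 * ν + P * (48 * ν ^ 2 - 18 * ν + 9 + P * (12 * ν + P) - Q)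
        - Q * (12 * ν + P)) * c) + 27) := by
    rw [hP, hQ]
    unfold k0 k1 k2 k3
    generalize y - 1 = m at *
    generalize DD y = D at *
    generalize NN ν y = N at *
    generalize y + ν - 1 = e at *
    field_simp
    ring
  rw [key, h, mul_zero]

end Field

section Poly

variable {k : Type} [Field k] [CharZero k]

/-- The Eisenstein polynomial. -/
noncomputable def RR (ν : k) : k[X][X] :=
  X ^ 4 + C ((X - 1) * k3 (C ν) X * C (27⁻¹)) * X ^ 3 + C ((X - 1) * k2 (C ν) X * C (27⁻¹)) * X ^ 2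
    + C ((X - 1) * k1 (C ν) X * C (27⁻¹)) * X + C ((X - 1) * k0 (C ν) X * C (27⁻¹))

theorem coeffs {A : Type} [CommRing A] (a3 a2 a1 a0 : A) :
    (X ^ 4 + C a3 * X ^ 3 + C a2 * X ^ 2 + C a1 * X + C a0 : A[X]).coeff 0 = a0 ∧
    (X ^ 4 + C a3 * X ^ 3 + C a2 * X ^ 2 + C a1 * X + C a0 : A[X]).coeff 1 = a1 ∧
    (X ^ 4 + C a3 * X ^ 3 + C a2 * X ^ 2 + C a1 * X + C a0 : A[X]).coeff 2 = a2 ∧
    (X ^ 4 + C a3 * X ^ 3 + C a2 * X ^ 2 + C a1 * X + C a0 : A[X]).coeff 3 = a3 := by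
  simp [coeff_X, coeff_C, coeff_X_pow]

theorem natDegree_RR (ν : k) : (RR ν).natDegree = 4 := by
  unfold RR
  compute_degree!

theorem monic_RR (ν : k) : (RR ν).Monic := by
  unfold RR
  monicity!

theorem irreducible_RR {ν : k} (hν : ν ≠ 0) : Irreducible (RR ν) := by
  have hX1 : (X - 1 : k[X]) = X - C 1 := by rw [C_1]
  have hprime : Prime (X - 1 : k[X]) := by
    rw [hX1]
    exact prime_X_sub_C 1
  have hcoeff0 : (RR ν).coeff 0 = (X - 1) * k0 (C ν) X * C (27⁻¹) := (coeffs _ _ _ _).1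
  refine irreducible_of_eisenstein_criterion (P := Ideal.span {(X - 1 : k[X])})
    ((Ideal.span_singleton_prime hprime.ne_zero).mpr hprime) ?_ ?_ ?_ ?_ (monic_RR ν).isPrimitive
  · rw [(monic_RR ν).leadingCoeff, Ideal.mem_span_singleton]
    exact fun h => hprime.not_isUnit (isUnit_of_dvd_one h)
  · intro n hn
    rw [degree_eq_natDegree (monic_RR ν).ne_zero, natDegree_RR] at hn
    have hn' : n < 4 := by exact_mod_cast hn
    rw [Ideal.mem_span_singleton]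
    interval_cases n
    · rw [hcoeff0, mul_assoc]
      exact dvd_mul_right _ _
    · rw [show (RR ν).coeff 1 = (X - 1) * k1 (C ν) X * C (27⁻¹) from (coeffs _ _ _ _).2.1,
        mul_assoc]
      exact dvd_mul_right _ _
    · rw [show (RR ν).coeff 2 = (X - 1) * k2 (C ν) X * C (27⁻¹) from (coeffs _ _ _ _).2.2.1,
        mul_assoc]
      exact dvd_mul_right _ _
    · rw [show (RR ν).coeff 3 = (X - 1) * k3 (C ν) X * C (27⁻¹) from (coeffs _ _ _ _).2.2.2,
        mul_assoc]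
      exact dvd_mul_right _ _
  · rw [degree_eq_natDegree (monic_RR ν).ne_zero, natDegree_RR]
    norm_num
  · rw [hcoeff0, pow_two, Ideal.span_singleton_mul_span_singleton, Ideal.mem_span_singleton]
    rintro ⟨q, hq⟩
    have h1 : k0 (C ν) X * C (27⁻¹) = (X - 1) * q := by
      refine mul_left_cancel₀ hprime.ne_zero ?_
      rw [← mul_assoc, hq]
      ring
    have h2 := congrArg (eval 1) h1
    have h3 : (k0 (C ν) (X : k[X])).eval 1 = k0 ν 1 := by
      have := map_k0 (evalRingHom (1 : k)) (C ν) X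
      simpa using this
    rw [eval_mul, eval_mul, h3, eval_C, eval_sub, eval_X, eval_one, sub_self, zero_mul] at h2
    have h4 : k0 ν 1 = 3 ^ 9 * ν ^ 7 := by
      unfold k0 DD
      ring
    rw [h4] at h2
    have h27 : (27 : k) ≠ 0 := by norm_num
    have h3' : (3 : k) ≠ 0 := by norm_num
    exact mul_ne_zero (mul_ne_zero (pow_ne_zero 9 h3') (pow_ne_zero 7 hν)) (inv_ne_zero h27) h2

omit [CharZero k] in
theorem eval_RR {Ω : Type} [Field Ω] [Algebra k Ω] (ν : k) (y u : Ω) :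
    ((RR ν).map (Polynomial.aeval y : Polynomial k →ₐ[k] Ω).toRingHom).eval u =
      u ^ 4 + (y - 1) * k3 (algebraMap k Ω ν) y / 27 * u ^ 3
        + (y - 1) * k2 (algebraMap k Ω ν) y / 27 * u ^ 2
        + (y - 1) * k1 (algebraMap k Ω ν) y / 27 * u + (y - 1) * k0 (algebraMap k Ω ν) y / 27 := by
  obtain ⟨g, hg⟩ : ∃ g : k[X] →+* Ω, g = (Polynomial.aeval y : Polynomial k →ₐ[k] Ω).toRingHom :=
    ⟨_, rfl⟩
  have hgX : g X = y := by simp [hg]
  have hgC : ∀ c, g (C c) = algebraMap k Ω c := fun c => by simp [hg]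
  rw [← hg]
  unfold RR
  simp only [Polynomial.map_add, Polynomial.map_mul, Polynomial.map_pow, map_X, map_C, eval_add,
    eval_mul, eval_pow, eval_X, eval_C]
  simp only [map_mul g, map_sub g, map_one g, map_k0 g, map_k1 g, map_k2 g, map_k3 g, hgX, hgC,
    map_inv₀, map_ofNat, div_eq_mul_inv]

end Poly

end T2

open T2 in
theorem stT2 (hconj : StConj) : StT2 := by
  intro k Ω _ _ _ _ _ _ ν s y a b c c' hν _ hy halg hab hab' hs hc hc' hca hcb hca' hcb'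
  have : CharZero Ω := charZero_of_injective_algebraMap (algebraMap k Ω).injective
  have hpoly : ∀ p : k[X], p ≠ 0 → aeval y p ≠ 0 := fun p hp h => hy ⟨p, hp, h⟩
  have hD : DD y ≠ 0 := by
    have h1 := hpoly (DD X) (by
      intro h
      have := congrArg (eval 1) h
      simp [DD] at this
      norm_num at this)
    have h2 : aeval y (DD (X : k[X])) = DD y := by
      have := map_DD (aeval y : k[X] →ₐ[k] Ω).toRingHom X
      simpa using this
    rwa [h2] at h1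
  have he : y + algebraMap k Ω ν - 1 ≠ 0 := by
    have h1 := hpoly (X + C ν - 1) (by
      intro h
      have := congrArg (eval 1) h
      simp at this
      exact hν this)
    simpa using h1
  have hy1 : y - 1 ≠ 0 := by
    have h1 := hpoly (X - 1) (by
      intro h
      have := congrArg (eval 0) h
      simp at this)
    simpa using h1
  obtain ⟨P, hP⟩ : ∃ P, P = 2 * (y - 1) * NN (algebraMap k Ω ν) y / DD y := ⟨_, rfl⟩
  obtain ⟨Q, hQ⟩ : ∃ Q, Q = (y - 1) * DD y / (y + algebraMap k Ω ν - 1) := ⟨_, rfl⟩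
  have hab1 : a + b = P := by rw [hP, ← hab, mul_div_cancel_right₀ _ hD]
  have hab2 : a * b = Q := by rw [hQ, ← hab', mul_div_cancel_right₀ _ he]
  have hc0 := fp_root_ne_zero hc
  have hc0' := fp_root_ne_zero hc'
  have e1 := eqnU hD he hP hQ hc0 (quartic hD he hy1 hP hQ hab1 hab2 hs hc hca hcb)
  have e2 := eqnU hD he hP hQ hc0' (quartic hD he hy1 hP hQ hab1 hab2 hs hc' hca' hcb')
  rw [← eval_RR ν] at e1 e2
  obtain ⟨σ, h1, h2⟩ := hconj k Ω y hy halg (RR ν) (irreducible_RR hν)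
    (by rw [natDegree_RR]; norm_num) _ _ e1 e2
  refine ⟨σ, h1, ?_⟩
  have h3 : σ (DD y ^ 2 * (y + algebraMap k Ω ν - 1) ^ 2) =
      DD y ^ 2 * (y + algebraMap k Ω ν - 1) ^ 2 := by
    have h4 : σ (DD y) = DD y := by
      have := map_DD (σ : Ω →+* Ω) y
      simp only [RingHom.coe_coe] at this
      rw [this, h1]
    rw [map_mul, map_pow, map_pow, h4, map_sub, map_add, h1, AlgEquiv.commutes, map_one]
  rw [map_div₀, h3] at h2
  have hΔ : DD y ^ 2 * (y + algebraMap k Ω ν - 1) ^ 2 ≠ 0 :=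
    mul_ne_zero (pow_ne_zero 2 hD) (pow_ne_zero 2 he)
  have hσc : σ c ≠ 0 := by
    rw [Ne, map_eq_zero]
    exact hc0
  rw [div_eq_div_iff hσc hc0'] at h2
  exact (mul_left_cancel₀ hΔ h2).symm

end Pool.MP_bfb583_al.EC
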