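import Pool.Agent.Lib.MP_bfb583_al.EC.Stmts
import Pool.Agent.Lib.MP_bfb583_al.EC.Ident
import Pool.Agent.Lib.MP_bfb583_al.EC.Bpt

set_option autoImplicit false

/-!
Module TRAP of the project EC (problem MP_bfb583_al).
-/

namespace Pool.MP_bfb583_al.EC

open Polynomial WeierstrassCurve
open scoped Classical

namespace Trap

noncomputable section

/-- the permutation representation on a family of points preserved by the automorphisms -/
theorem perm_hom {n : ℕ} {L E : Type} [Field L] [Field E] [Algebra L E] (v : Fin n → E)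
    (hv : Function.Injective v) (hr : ∀ (σ : E ≃ₐ[L] E) i, ∃ j, σ (v i) = v j) :
    ∃ Φ : (E ≃ₐ[L] E) →* Equiv.Perm (Fin n), ∀ σ i, σ (v i) = v (Φ σ i) := by
  choose g hg using hr
  refine ⟨{ toFun := fun σ => ⟨g σ, g σ⁻¹, ?_, ?_⟩, map_one' := ?_, map_mul' := ?_ }, ?_⟩
  · intro i
    apply hv
    rw [← hg, ← hg]
    exact σ.symm_apply_apply (v i)
  · intro i
    apply hv
    rw [← hg, ← hg]
    exact σ.apply_symm_apply (v i)
  · ext i
    have : g 1 i = i := by
      apply hv
      rw [← hg]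
      rfl
    simp [this]
  · intro σ τ
    ext i
    have : g (σ * τ) i = g σ (g τ i) := by
      apply hv
      rw [← hg, ← hg, ← hg]
      rfl
    simp [this]
  · intro σ i
    exact hg σ i

theorem fp_monic {F : Type} [Field F] (ν s : F) : (fp ν s).Monic := by
  unfold fp
  monicity!

theorem fp_natDegree {F : Type} [Field F] (ν s : F) : (fp ν s).natDegree = 6 := by
  unfold fp
  compute_degree!

theorem exists_roots {F : Type} [Field F] [IsAlgClosed F] (p : F[X]) (hm : p.Monic)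
    (hd : p.natDegree = 6) (hs : p.Separable) (w : F) (hw : p.IsRoot w) :
    ∃ v : Fin 6 → F, Function.Injective v ∧ p = ∏ i, (X - C (v i)) ∧ v 5 = w := by
  have hsp : p.Splits := IsAlgClosed.splits p
  have hnd : p.roots.Nodup := nodup_roots hs
  have hcard : p.roots.card = 6 := by rw [← hsp.natDegree_eq_card_roots, hd]
  set S : Finset F := ⟨p.roots, hnd⟩ with hS
  have hSc : S.card = 6 := hcard
  have hprod : p = ∏ x ∈ S, (X - C x) := hsp.eq_prod_roots_of_monic hm
  let e : Fin 6 ≃ S := (S.equivFin.trans (finCongr hSc)).symm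
  have hwS : w ∈ S := by
    change w ∈ p.roots
    rw [mem_roots hm.ne_zero]
    exact hw
  let ρ : Equiv.Perm (Fin 6) := Equiv.swap (e.symm ⟨w, hwS⟩) 5
  refine ⟨fun i => (e (ρ i) : F), ?_, ?_, ?_⟩
  · intro i j hij
    exact ρ.injective (e.injective (Subtype.ext hij))
  · rw [Equiv.prod_comp ρ (fun i => (X - C (e i : F)))]
    rw [Equiv.prod_comp e (fun x : S => (X - C (x : F)))]
    rw [Finset.prod_coe_sort S (fun x => X - C x)]
    exact hprod
  · simp [ρ]

theorem det_sq_mem {L Λ : Type} [Field L] [Field Λ] [Algebra L Λ] {d : Λ} {c : L}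
    (h : d ^ 2 = algebraMap L Λ c ^ 2) (σ : Λ ≃ₐ[L] Λ) : σ d = d := by
  rcases sq_eq_sq_iff_eq_or_eq_neg.mp h with h | h
  · rw [h, AlgEquiv.commutes]
  · rw [h, map_neg, AlgEquiv.commutes]

/-- Galois descent for points -/
theorem descent {K L Λ : Type} [Field K] [Field L] [Field Λ] [Algebra K L] [Algebra K Λ]
    [Algebra L Λ] [IsScalarTower K L Λ] [IsGalois L Λ] (W : WeierstrassCurve K) (P : Pt W Λ)
    (hP : ∀ σ : Λ ≃ₐ[L] Λ,
      Affine.Point.map (W' := W) ((σ : Λ →ₐ[L] Λ).restrictScalars K) P = P) :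
    ∃ Q : Pt W L, Affine.Point.baseChange L Λ Q = P := by
  rcases P with _ | ⟨x, y, h⟩
  · exact ⟨0, rfl⟩
  · have hx : x ∈ Set.range (algebraMap L Λ) := by
      rw [InfiniteGalois.mem_range_algebraMap_iff_fixed]
      intro σ
      have := hP σ
      rw [Affine.Point.map_some] at this
      exact (Affine.Point.some.inj this).1
    have hy : y ∈ Set.range (algebraMap L Λ) := by
      rw [InfiniteGalois.mem_range_algebraMap_iff_fixed]
      intro σ
      have := hP σ
      rw [Affine.Point.map_some] at this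
      exact (Affine.Point.some.inj this).2
    obtain ⟨x0, rfl⟩ := hx
    obtain ⟨y0, rfl⟩ := hy
    have h0 : (W.baseChange L).toAffine.Nonsingular x0 y0 :=
      (Affine.baseChange_nonsingular (W := W) (f := Algebra.ofId L Λ)
        (Algebra.ofId L Λ).injective x0 y0).mp h
    exact ⟨.some x0 y0 h0, rfl⟩

theorem map_fp {F F' : Type} [Field F] [Field F'] (f : F →+* F') (ν s : F) :
    (fp ν s).map f = fp (f ν) (f s) := by
  simp [fp, map_ofNat]

/-- the pentagon sum is invariant -/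
theorem pent_inv {V : Type} [AddCommGroup V] (b : Fin 5 → Fin 5 → V)
    (hb : ∀ i j, b i j = b j i) (h : Equiv.Perm (Fin 5))
    (hh : (∀ k, h (k + 1) = h k + 1) ∨ (∀ k, h (k + 1) = h k - 1)) :
    ∑ k, b (h k) (h (k + 1)) = ∑ k, b k (k + 1) := by
  rcases hh with hh | hh
  · simp only [hh]
    exact Equiv.sum_comp h (fun k => b k (k + 1))
  · simp only [hh]
    rw [Equiv.sum_comp h (fun k => b k (k - 1))]
    rw [← Equiv.sum_comp (Equiv.addRight (1 : Fin 5)) (fun k => b k (k - 1))]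
    refine Finset.sum_congr rfl fun k _ => ?_
    simp only [Equiv.coe_addRight, add_sub_cancel_right]
    exact hb _ _

theorem goodU_map {F F' : Type} [Field F] [Field F'] (f : F →+* F') {u : F} (h : GoodU u) :
    GoodU (f u) := by
  have key : ∀ x : F, x ≠ 0 → f x ≠ 0 := fun x hx => (_root_.map_ne_zero f).mpr hx
  refine ⟨key _ h.u0, ?_, ?_, ?_, ?_, ?_⟩
  · intro h1
    exact h.u1 (f.injective (by rw [h1, map_one]))
  · have := key _ h.u2
    simpa [map_ofNat] using this
  · have := key _ h.q1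
    simpa [map_ofNat] using this
  · have := key _ h.q2
    simpa [map_ofNat] using this
  · have := key _ h.q3
    simpa [map_ofNat] using this

theorem nu_map {F F' : Type} [Field F] [Field F'] (f : F →+* F') (u : F) :
    f (nu u) = nu (f u) := by
  simp [nu, map_ofNat]

theorem s0_map {F F' : Type} [Field F] [Field F'] (f : F →+* F') (u : F) :
    f (s0 u) = s0 (f u) := by
  simp [s0, map_ofNat]

theorem trip_map {F F' : Type} [Field F] [Field F'] (f : F →+* F') {ν u₁ u₂ u₃ : F}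
    (h : Trip ν u₁ u₂ u₃) : Trip (f ν) (f u₁) (f u₂) (f u₃) := by
  refine ⟨?_, ?_, ?_⟩
  · have := congrArg f h.h1
    simpa [map_ofNat] using this
  · have := congrArg f h.h2
    simpa [map_ofNat] using this
  · have := congrArg f h.h3
    simpa [map_ofNat] using this

theorem rts_perm {F : Type} [Field F] {ν s : F} {v : Fin 6 → F} (h : Rts ν s v)
    (ρ : Equiv.Perm (Fin 6)) : Rts ν s (fun i => v (ρ i)) := by
  refine ⟨fun i j hij => ρ.injective (h.1 hij), ?_⟩
  rw [Equiv.prod_comp ρ (fun i => (X - C (v i)))]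
  exact h.2

theorem two_perm (a b : Fin 6) (hab : a ≠ b) : ∃ ρ : Equiv.Perm (Fin 6), ρ 0 = a ∧ ρ 1 = b := by
  set ρ1 : Equiv.Perm (Fin 6) := Equiv.swap 0 a with hρ1
  have h0 : ρ1 0 = a := Equiv.swap_apply_left _ _
  have h1 : ρ1 1 ≠ a := by
    rw [← h0]
    intro h
    exact absurd (ρ1.injective h) (by decide)
  refine ⟨Equiv.swap (ρ1 1) b * ρ1, ?_, ?_⟩
  · rw [Equiv.Perm.mul_apply, h0, Equiv.swap_apply_of_ne_of_ne (Ne.symm h1) hab]
  · rw [Equiv.Perm.mul_apply, Equiv.swap_apply_left]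

theorem ext6 {E : Type} (v : Fin 6 → E) (σ : E → E) (h : Equiv.Perm (Fin 5))
    (h5 : σ (v 5) = v 5) (hh : ∀ i : Fin 5, σ (v i.castSucc) = v (h i).castSucc) :
    ∀ i, σ (v i) = v (h.viaFintypeEmbedding (Fin.castSuccEmb : Fin 5 ↪ Fin 6) i) := by
  intro i
  refine Fin.lastCases ?_ ?_ i
  · rw [Equiv.Perm.viaFintypeEmbedding_apply_notMem_range]
    · exact h5
    · rintro ⟨j, hj⟩
      exact absurd hj (Fin.castSucc_lt_last j).ne
  · intro j
    have := Equiv.Perm.viaFintypeEmbedding_apply_image h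
      (Fin.castSuccEmb : Fin 5 ↪ Fin 6) j
    rw [show (Fin.castSucc j : Fin 6) = (Fin.castSuccEmb : Fin 5 ↪ Fin 6) j from rfl, this]
    exact hh j

/-- evenness -/
theorem even_of {L Λ : Type} [Field L] [Field Λ] [Algebra L Λ] [CharZero Λ] (v : Fin 6 → Λ)
    (hv : Function.Injective v) (c : L)
    (hc : (∏ i, ∏ j ∈ Finset.Ioi i, (v j - v i)) ^ 2 = algebraMap L Λ c ^ 2)
    (σ : Λ ≃ₐ[L] Λ) (π : Equiv.Perm (Fin 6)) (hπ : ∀ i, σ (v i) = v (π i)) :
    Equiv.Perm.sign π = 1 := by
  have hd : (Matrix.vandermonde v).det ≠ 0 := Matrix.det_vandermonde_ne_zero_iff.mpr hv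
  have h1 : σ (Matrix.vandermonde v).det = (Matrix.vandermonde v).det := by
    refine det_sq_mem (c := c) ?_ σ
    rw [Matrix.det_vandermonde]
    exact hc
  have h2 : σ (Matrix.vandermonde v).det
      = ((Equiv.Perm.sign π : ℤˣ) : ℤ) * (Matrix.vandermonde v).det := by
    rw [← Matrix.det_permute, AlgEquiv.map_det]
    congr 1
    ext i j
    simp [Matrix.vandermonde, hπ]
  rw [h1] at h2
  rcases Int.units_eq_one_or (Equiv.Perm.sign π) with h | h
  · exact h
  · exfalso
    rw [h] at h2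
    simp only [Units.val_neg, Units.val_one, Int.cast_neg, Int.cast_one, neg_mul, one_mul] at h2
    have : (2 : Λ) * (Matrix.vandermonde v).det = 0 := by linear_combination h2
    rcases mul_eq_zero.mp this with h | h
    · exact absurd h two_ne_zero
    · exact hd h

/-- the normaliser of the rotation -/
theorem rot_cases (h c g : Equiv.Perm (Fin 5)) (hg : g * finRotate 5 * g⁻¹ = c)
    (hh : h * c * h⁻¹ = c ∨ h * c * h⁻¹ = c⁻¹) :
    (∀ k, (g⁻¹ * h * g) (k + 1) = (g⁻¹ * h * g) k + 1) ∨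
      (∀ k, (g⁻¹ * h * g) (k + 1) = (g⁻¹ * h * g) k - 1) := by
  have hrot : ∀ k : Fin 5, finRotate 5 k = k + 1 := fun k => finRotate_apply k
  have hrot' : ∀ k : Fin 5, (finRotate 5)⁻¹ k = k - 1 := by
    intro k
    rw [Equiv.Perm.inv_eq_iff_eq, hrot, sub_add_cancel]
  set h' := g⁻¹ * h * g with hh'
  rcases hh with hh | hh
  · left
    have e : h' * finRotate 5 = finRotate 5 * h' := by
      have : h * c = c * h := mul_inv_eq_iff_eq_mul.mp hh
      rw [← hg] at this
      have h2 : g⁻¹ * (h * (g * finRotate 5 * g⁻¹)) * g = g⁻¹ * ((g * finRotate 5 * g⁻¹) * h) * g := by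
        rw [this]
      simpa [hh', mul_assoc] using h2
    intro k
    have := congrArg (fun p : Equiv.Perm (Fin 5) => p k) e
    simp only [Equiv.Perm.mul_apply, hrot] at this
    exact this
  · right
    have e : h' * finRotate 5 = (finRotate 5)⁻¹ * h' := by
      have : h * c = c⁻¹ * h := mul_inv_eq_iff_eq_mul.mp hh
      rw [← hg] at this
      have h2 : g⁻¹ * (h * (g * finRotate 5 * g⁻¹)) * g
          = g⁻¹ * ((g * finRotate 5 * g⁻¹)⁻¹ * h) * g := by
        rw [this]
      simpa [hh', mul_assoc] using h2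
    intro k
    have := congrArg (fun p : Equiv.Perm (Fin 5) => p k) e
    simp only [Equiv.Perm.mul_apply, hrot, hrot'] at this
    exact this

/-- the Galois group of the roots is not `A₅` -/
theorem ne_alt {L Λ : Type} [Field L] [CharZero L] [Field Λ] [Algebra L Λ] [IsAlgClosed Λ]
    [IsGalois L Λ] (hN : NoA5 L) (p : L[X]) (hp : p.Separable) (hp0 : p ≠ 0)
    (v : Fin 5 → Λ) (hv : Function.Injective v) (hroot : ∀ i, (p.map (algebraMap L Λ)).IsRoot (v i))
    (Φ : (Λ ≃ₐ[L] Λ) →* Equiv.Perm (Fin 5)) (hΦ : ∀ σ i, σ (v i) = v (Φ σ i))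
    (hle : Φ.range ≤ alternatingGroup (Fin 5)) : Φ.range ≠ alternatingGroup (Fin 5) := by
  intro heq
  let M := IntermediateField.adjoin L (p.rootSet Λ)
  have hsf : p.IsSplittingField L M :=
    IntermediateField.adjoin_rootSet_isSplittingField (IsAlgClosed.splits _)
  have : FiniteDimensional L M := IsSplittingField.finiteDimensional M p
  have : IsGalois L M := IsGalois.of_separable_splitting_field hp
  have hmem : ∀ i, v i ∈ M := by
    intro i
    apply IntermediateField.subset_adjoin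
    rw [mem_rootSet_of_ne hp0]
    have := hroot i
    rw [IsRoot, eval_map_algebraMap] at this
    exact this
  let vM : Fin 5 → M := fun i => ⟨v i, hmem i⟩
  have hvM : Function.Injective vM := fun i j hij => hv (congrArg Subtype.val hij)
  have hsurj := AlgEquiv.restrictNormalHom_surjective (F := L) (K₁ := M) Λ
  have hact : ∀ (σ : Λ ≃ₐ[L] Λ) i, (AlgEquiv.restrictNormalHom M σ) (vM i) = vM (Φ σ i) := by
    intro σ i
    apply Subtype.ext
    have := AlgEquiv.restrictNormal_commutes σ M (vM i)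
    change ((σ.restrictNormal M (vM i) : M) : Λ) = v (Φ σ i)
    rw [← hΦ]
    exact this
  obtain ⟨Ψ, hΨ⟩ := perm_hom vM hvM (fun τ i => by
    obtain ⟨σ, rfl⟩ := hsurj τ
    exact ⟨_, hact σ i⟩)
  have hΨΦ : ∀ σ : Λ ≃ₐ[L] Λ, Ψ (AlgEquiv.restrictNormalHom M σ) = Φ σ := by
    intro σ
    ext i
    have h1 := hΨ (AlgEquiv.restrictNormalHom M σ) i
    rw [hact] at h1
    exact congrArg Fin.val (hvM h1).symm
  have hΨle : ∀ τ, Ψ τ ∈ alternatingGroup (Fin 5) := by
    intro τ
    obtain ⟨σ, rfl⟩ := hsurj τ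
    rw [hΨΦ]
    exact hle ⟨σ, rfl⟩
  refine hN M ⟨Ψ.codRestrict (alternatingGroup (Fin 5)) hΨle, ?_⟩
  rintro ⟨a, ha⟩
  have ha' : a ∈ Φ.range := by rw [heq]; exact ha
  obtain ⟨σ, hσ⟩ := ha'
  refine ⟨AlgEquiv.restrictNormalHom M σ, ?_⟩
  apply Subtype.ext
  change Ψ (AlgEquiv.restrictNormalHom M σ) = a
  rw [hΨΦ, hσ]

end

end Trap

open Trap in
theorem stTrap (hG2 : StG2) (hDisc : StDisc) (hBpt : StBpt) : StTrap := by
  intro K L Λ _ _ _ _ _ _ _ _ _ W _ u u₂ u₃ μ r t s w hNoA hu hμ hA hB hu2 hu3 hn2 hn3 hT hr ht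
    hts hsep hw
  have : CharZero Λ := charZero_of_injective_algebraMap (algebraMap L Λ).injective
  have : IsAlgClosed Λ := IsAlgClosure.isAlgClosed L
  have : Algebra.IsAlgebraic L Λ := IsAlgClosure.isAlgebraic
  have : IsGalois L Λ := { to_isSeparable := inferInstance, to_normal := inferInstance }
  have hmap : (fp (nu u) s).map (algebraMap L Λ)
      = fp (nu (algebraMap L Λ u)) (algebraMap L Λ s) := by
    rw [map_fp, nu_map]
  have hw' : (fp (nu (algebraMap L Λ u)) (algebraMap L Λ s)).IsRoot (algebraMap L Λ w) := by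
    rw [← hmap]
    exact hw.map
  obtain ⟨v, hv, hprod, hv5⟩ := exists_roots (fp (nu (algebraMap L Λ u)) (algebraMap L Λ s))
    (fp_monic _ _) (fp_natDegree _ _) (hmap ▸ hsep.map) (algebraMap L Λ w) hw'
  have hRts : Rts (nu (algebraMap L Λ u)) (algebraMap L Λ s) v := ⟨hv, hprod⟩
  have hroot : ∀ i, ((fp (nu u) s).map (algebraMap L Λ)).IsRoot (v i) := by
    intro i
    rw [hmap]
    exact isRoot_of_rts hRts i
  have hGU : GoodU (algebraMap L Λ u) := goodU_map _ hu
  have hμ' : algebraMap L Λ μ ≠ 0 := (_root_.map_ne_zero _).mpr hμ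
  have ht' : algebraMap L Λ t ≠ 0 := (_root_.map_ne_zero _).mpr ht
  have hts' : algebraMap L Λ t ^ 2 = algebraMap L Λ s - s0 (algebraMap L Λ u) := by
    rw [← s0_map, ← map_sub, ← hts, map_pow]
  have hA' : (W.baseChange Λ).a₄ = cA (algebraMap L Λ u) (algebraMap L Λ μ) := by
    rw [baseChange_a4, IsScalarTower.algebraMap_apply K L Λ, hA]
    simp [cA, an, map_ofNat]
  have hB' : (W.baseChange Λ).a₆ = cB (algebraMap L Λ u) (algebraMap L Λ μ) := by
    rw [baseChange_a6, IsScalarTower.algebraMap_apply K L Λ, hB]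
    simp [cB, an, map_ofNat]
  obtain ⟨-, -, hsymm, -, -⟩ := hBpt Λ (W.baseChange Λ) (algebraMap L Λ u) (algebraMap L Λ μ)
    (algebraMap L Λ t) (algebraMap L Λ s) v hGU hμ' hA' hB' ht' hts' hRts
  -- the action on roots
  have hperm : ∀ (σ : Λ ≃ₐ[L] Λ) i, ∃ j, σ (v i) = v j := by
    intro σ i
    have h1 : ((fp (nu u) s).map (algebraMap L Λ)).eval (σ (v i)) = 0 := by
      rw [eval_map_algebraMap]
      have := aeval_algHom_apply (σ : Λ →ₐ[L] Λ) (v i) (fp (nu u) s)
      rw [show (σ : Λ →ₐ[L] Λ) (v i) = σ (v i) from rfl] at this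
      rw [this]
      have h2 := hroot i
      rw [IsRoot, eval_map_algebraMap] at h2
      rw [h2, map_zero]
    rw [hmap, hprod, eval_prod, Finset.prod_eq_zero_iff] at h1
    obtain ⟨j, -, hj⟩ := h1
    rw [eval_sub, eval_X, eval_C, sub_eq_zero] at hj
    exact ⟨j, hj⟩
  have h5 : ∀ σ : Λ ≃ₐ[L] Λ, σ (v 5) = v 5 := by
    intro σ
    rw [hv5, AlgEquiv.commutes]
  have hperm5 : ∀ (σ : Λ ≃ₐ[L] Λ) (i : Fin 5), ∃ j : Fin 5, σ (v i.castSucc) = v j.castSucc := by
    intro σ i
    obtain ⟨j, hj⟩ := hperm σ i.castSucc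
    have hne : j ≠ Fin.last 5 := by
      rintro rfl
      have : σ (v i.castSucc) = σ (v 5) := by rw [h5]; exact hj
      exact absurd (hv (σ.injective this)) (Fin.castSucc_lt_last i).ne
    obtain ⟨j', rfl⟩ := Fin.exists_castSucc_eq.mpr hne
    exact ⟨j', hj⟩
  have hv5i : Function.Injective (fun i : Fin 5 => v i.castSucc) := fun i j hij =>
    Fin.castSucc_injective _ (hv hij)
  obtain ⟨Φ, hΦ⟩ := perm_hom (fun i : Fin 5 => v i.castSucc) hv5i hperm5
  have hdisc := hDisc Λ (nu (algebraMap L Λ u)) (algebraMap L Λ s) (algebraMap L Λ u)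
    (algebraMap L Λ u₂) (algebraMap L Λ u₃) v hGU.u0 ((_root_.map_ne_zero _).mpr hu2)
    ((_root_.map_ne_zero _).mpr hu3) rfl (by rw [← nu_map, hn2, nu_map]) (by rw [← nu_map, hn3, nu_map])
    (by rw [← nu_map]; exact trip_map _ hT) hRts
  have heven : ∀ σ, Φ σ ∈ alternatingGroup (Fin 5) := by
    intro σ
    rw [Equiv.Perm.mem_alternatingGroup]
    have := even_of v hv (96 * r * ((s - s0 u) * (s - s0 u₂) * (s - s0 u₃))) (by
      rw [hdisc, ← s0_map, ← s0_map, ← s0_map]
      have hr' : algebraMap L Λ r ^ 2 = -3 := by rw [← map_pow, hr]; simp [map_ofNat]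
      simp only [map_mul, map_sub, map_ofNat]
      linear_combination (-9216 * ((algebraMap L Λ s - algebraMap L Λ (s0 u))
        * (algebraMap L Λ s - algebraMap L Λ (s0 u₂))
        * (algebraMap L Λ s - algebraMap L Λ (s0 u₃))) ^ 2) * hr') σ _
      (ext6 v σ (Φ σ) (h5 σ) (hΦ σ))
    rwa [Equiv.Perm.viaFintypeEmbedding_sign] at this
  have hle : Φ.range ≤ alternatingGroup (Fin 5) := by
    rintro _ ⟨σ, rfl⟩
    exact heven σ
  have hne := ne_alt hNoA (fp (nu u) s) hsep (fp_monic _ _).ne_zero _ hv5i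
    (fun i => hroot i.castSucc) Φ hΦ hle
  have hmapb : ∀ (σ : Λ ≃ₐ[L] Λ) (a b : Λ),
      Affine.Point.map (W' := W) ((σ : Λ →ₐ[L] Λ).restrictScalars K)
        (bpt (W.baseChange Λ) (algebraMap L Λ u) (algebraMap L Λ μ) (algebraMap L Λ t) a b)
      = bpt (W.baseChange Λ) (algebraMap L Λ u) (algebraMap L Λ μ) (algebraMap L Λ t)
        (σ a) (σ b) := by
    intro σ a b
    rw [map_bpt]
    have e1 : ∀ x : L, ((σ : Λ →ₐ[L] Λ).restrictScalars K) (algebraMap L Λ x)
        = algebraMap L Λ x := fun x => σ.commutes x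
    rw [e1, e1, e1]
    rfl
  -- the case of a pair
  have pair_case : ∀ a b : Fin 6, a ≠ b → (∀ σ : Λ ≃ₐ[L] Λ, (σ (v a) = v a ∧ σ (v b) = v b) ∨
      (σ (v a) = v b ∧ σ (v b) = v a)) → ∃ (v : Fin 6 → Λ) (Q : Pt W L),
      Rts (nu (algebraMap L Λ u)) (algebraMap L Λ s) v ∧
      (Affine.Point.baseChange L Λ Q =
          bpt (W.baseChange Λ) (algebraMap L Λ u) (algebraMap L Λ μ) (algebraMap L Λ t)
            (v 0) (v 1) ∨
        (v 5 = algebraMap L Λ w ∧ Affine.Point.baseChange L Λ Q =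
          ∑ i : Fin 5, bpt (W.baseChange Λ) (algebraMap L Λ u) (algebraMap L Λ μ)
            (algebraMap L Λ t) (v (Fin.castSucc i)) (v (Fin.castSucc (i + 1))))) := by
    intro a b hab hfix
    obtain ⟨ρ, h0, h1⟩ := two_perm a b hab
    obtain ⟨Q, hQ⟩ := descent W (bpt (W.baseChange Λ) (algebraMap L Λ u) (algebraMap L Λ μ)
      (algebraMap L Λ t) (v a) (v b)) (by
        intro σ
        rw [hmapb]
        rcases hfix σ with h | h
        · rw [h.1, h.2]
        · rw [h.1, h.2]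
          exact hsymm b a)
    refine ⟨fun i => v (ρ i), Q, rts_perm hRts ρ, Or.inl ?_⟩
    simp only [h0, h1]
    exact hQ
  rcases hG2 Φ.range hle hne with ⟨i, hi⟩ | ⟨i, j, hij, hfix⟩ | ⟨c, hc, hcs, hcn⟩
  · refine pair_case i.castSucc 5 (Fin.castSucc_lt_last i).ne fun σ => Or.inl ⟨?_, h5 σ⟩
    have := hΦ σ i
    rw [hi (Φ σ) ⟨σ, rfl⟩] at this
    exact this
  · refine pair_case i.castSucc j.castSucc (fun h => hij (Fin.castSucc_injective _ h)) fun σ => ?_
    have h1 := hΦ σ i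
    have h2 := hΦ σ j
    rcases hfix (Φ σ) ⟨σ, rfl⟩ with h | h
    · left
      rw [h.1] at h1
      rw [h.2] at h2
      exact ⟨h1, h2⟩
    · right
      rw [h.1] at h1
      rw [h.2] at h2
      exact ⟨h1, h2⟩
  · have hconj : IsConj (finRotate 5) c := Equiv.Perm.IsCycle.isConj isCycle_finRotate hc (by
      rw [support_finRotate, hcs])
    obtain ⟨g, hg⟩ := isConj_iff.mp hconj
    set G : Equiv.Perm (Fin 6) := g.viaFintypeEmbedding (Fin.castSuccEmb : Fin 5 ↪ Fin 6) with hG
    have hGc : ∀ k : Fin 5, G k.castSucc = (g k).castSucc := fun k =>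
      Equiv.Perm.viaFintypeEmbedding_apply_image g (Fin.castSuccEmb : Fin 5 ↪ Fin 6) k
    have hG5 : G 5 = 5 := by
      rw [hG, Equiv.Perm.viaFintypeEmbedding_apply_notMem_range]
      rintro ⟨j, hj⟩
      exact absurd hj (Fin.castSucc_lt_last j).ne
    obtain ⟨Q, hQ⟩ := descent W (∑ i : Fin 5, bpt (W.baseChange Λ) (algebraMap L Λ u)
      (algebraMap L Λ μ) (algebraMap L Λ t) (v (G (Fin.castSucc i)))
        (v (G (Fin.castSucc (i + 1))))) (by
        intro σ
        rw [map_sum]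
        have hrot := rot_cases (Φ σ) c g hg (hcn (Φ σ) ⟨σ, rfl⟩)
        have hact : ∀ k : Fin 5, σ (v (G k.castSucc))
            = v (G ((g⁻¹ * Φ σ * g) k).castSucc) := by
          intro k
          rw [hGc, hGc]
          have := hΦ σ (g k)
          rw [this]
          simp
        simp only [hmapb, hact]
        exact pent_inv (fun i j => bpt (W.baseChange Λ) (algebraMap L Λ u) (algebraMap L Λ μ)
          (algebraMap L Λ t) (v (G i.castSucc)) (v (G j.castSucc)))
          (fun i j => hsymm _ _) (g⁻¹ * Φ σ * g) hrot)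
    refine ⟨fun i => v (G i), Q, rts_perm hRts G, Or.inr ⟨?_, hQ⟩⟩
    simp only [hG5]
    exact hv5

end Pool.MP_bfb583_al.EC
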