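import Pool.Agent.Lib.MP_bfb583_al.EC.Short
import Pool.Agent.Lib.MP_bfb583_al.EC.Geo
import Pool.Agent.Lib.MP_bfb583_al.EC.Star
import Pool.Agent.Lib.MP_bfb583_al.EC.Trap
import Pool.Agent.Lib.MP_bfb583_al.EC.PS
import Pool.Agent.Lib.MP_bfb583_al.EC.Germ
import Pool.Agent.Lib.MP_bfb583_al.EC.Alg
import Pool.Agent.Lib.MP_bfb583_al.EC.Indep
import Pool.Agent.Lib.MP_bfb583_al.EC.G1
import Pool.Agent.Lib.MP_bfb583_al.EC.G2
import Pool.Agent.Lib.MP_bfb583_al.EC.T1
import Pool.Agent.Lib.MP_bfb583_al.EC.T2
import Pool.Agent.Lib.MP_bfb583_al.EC.Conj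
import Pool.Agent.Lib.MP_bfb583_al.EC.Disc
import Pool.Agent.Lib.MP_bfb583_al.EC.Rat
import Pool.Agent.Lib.MP_bfb583_al.EC.Half
import Pool.Agent.Lib.MP_bfb583_al.EC.Good
import Pool.Agent.Lib.MP_bfb583_al.EC.Comb

set_option autoImplicit false

/-!
The main theorem: over a field of characteristic zero without `A₅`-extensions (over finite
extensions), every elliptic curve has infinitely many points.
-/

namespace Pool.MP_bfb583_al.EC

open WeierstrassCurve

theorem equation_of_smul {K : Type} [Field K] (W : WeierstrassCurve K) (C : VariableChange K)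
    {x y : K} (h : (C • W).toAffine.Equation x y) :
    W.toAffine.Equation ((C.u : K) ^ 2 * x + C.r)
      ((C.u : K) ^ 3 * y + (C.u : K) ^ 2 * C.s * x + C.t) := by
  rw [Affine.equation_iff] at h ⊢
  rw [variableChange_a₁, variableChange_a₂, variableChange_a₃, variableChange_a₄,
    variableChange_a₆] at h
  have hu : (C.u : K) ≠ 0 := C.u.ne_zero
  rw [Units.val_inv_eq_inv_val] at h
  generalize (C.u : K) = v at h hu ⊢
  field_simp at h
  linear_combination h

theorem stMain (hShort : StShort) : StMain := by
  intro K _ _ W _ hA5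
  have i2 : Invertible (2 : K) := invertibleOfNonzero two_ne_zero
  have i3 : Invertible (3 : K) := invertibleOfNonzero three_ne_zero
  obtain ⟨C, hC⟩ := W.exists_variableChange_isShortNF
  have hinf : Infinite (Pt (C • W) K) := hShort K (C • W) hA5
  have hu : (C.u : K) ≠ 0 := C.u.ne_zero
  have key : ∀ x y : K, ((C • W).baseChange K).toAffine.Nonsingular x y →
      W.toAffine.Nonsingular ((C.u : K) ^ 2 * x + C.r)
        ((C.u : K) ^ 3 * y + (C.u : K) ^ 2 * C.s * x + C.t) := by
    intro x y h
    exact Affine.equation_iff_nonsingular.mp (equation_of_smul W C h.1)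
  let f : Pt (C • W) K → W.toAffine.Point := fun P => match P with
    | .zero => .zero
    | .some x y h => .some _ _ (key x y h)
  refine Infinite.of_injective f ?_
  intro P Q hPQ
  cases P with
  | zero =>
    cases Q with
    | zero => rfl
    | some x y h => cases hPQ
  | some x y h =>
    cases Q with
    | zero => cases hPQ
    | some x' y' h' =>
      have h1 := Affine.Point.some.inj hPQ
      obtain ⟨e1, e2⟩ := h1
      have e3 : x = x' := by
        have : (C.u : K) ^ 2 * x = (C.u : K) ^ 2 * x' := by linear_combination e1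
        exact mul_left_cancel₀ (pow_ne_zero 2 hu) this
      subst e3
      have e4 : y = y' := by
        have : (C.u : K) ^ 3 * y = (C.u : K) ^ 3 * y' := by linear_combination e2
        exact mul_left_cancel₀ (pow_ne_zero 3 hu) this
      subst e4
      rfl

theorem stGeo_all : StGeo :=
  have hC1 : StC1 := stC1 (stT1 stConj) (stT2 stConj) stG1
  stGeo hC1 (stStar hC1 stRat stBpt) stHalf stComb stBpt

theorem stUltra_all : StUltra := stUltra stGerm stAlg stIndep

theorem stTrap_all : StTrap := stTrap stG2 stDisc stBpt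

theorem main_short : StShort :=
  stShort stGeo_all stTrap_all stUltra_all stGerm stAlg stGood

theorem main : StMain := stMain main_short

end Pool.MP_bfb583_al.EC
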