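import Pool.Agent.Lib.MP_bfb583_al.EC.Stmts

set_option autoImplicit false

/-!
ULTRA: the trace argument.
-/

namespace Pool.MP_bfb583_al.EC

open Polynomial WeierstrassCurve Filter
open scoped Classical

noncomputable section

namespace Ultra

/-! ### Homomorphisms of the ultrapower -/

section Hom

variable {K Λ ι : Type} [Field K] [Field Λ] [Algebra K Λ]

/-- The endomorphism of the ultrapower induced by an endomorphism of the field. -/
def gmap (U : Ultrafilter ι) (τ : Λ →ₐ[K] Λ) :
    Germ (U : Filter ι) Λ →ₐ[K] Germ (U : Filter ι) Λ where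
  toFun := Germ.map τ
  map_one' := by
    show Germ.map τ ((1 : Λ) : Germ (U : Filter ι) Λ) = ((1 : Λ) : Germ (U : Filter ι) Λ)
    rw [Germ.map_const, map_one]
  map_zero' := by
    show Germ.map τ ((0 : Λ) : Germ (U : Filter ι) Λ) = ((0 : Λ) : Germ (U : Filter ι) Λ)
    rw [Germ.map_const, map_zero]
  map_mul' := by
    intro x y
    induction x using Germ.inductionOn with
    | _ f =>
      induction y using Germ.inductionOn with
      | _ g =>
        refine Germ.coe_eq.mpr (Eventually.of_forall fun i => ?_)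
        exact map_mul τ _ _
  map_add' := by
    intro x y
    induction x using Germ.inductionOn with
    | _ f =>
      induction y using Germ.inductionOn with
      | _ g =>
        refine Germ.coe_eq.mpr (Eventually.of_forall fun i => ?_)
        exact map_add τ _ _
  commutes' := by
    intro a
    show Germ.map τ ((algebraMap K Λ a : Λ) : Germ (U : Filter ι) Λ) =
      ((algebraMap K Λ a : Λ) : Germ (U : Filter ι) Λ)
    rw [Germ.map_const, AlgHom.commutes]

lemma gmap_coe (U : Ultrafilter ι) (τ : Λ →ₐ[K] Λ) (f : ι → Λ) :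
    gmap U τ (f : Germ (U : Filter ι) Λ) = ((fun i => τ (f i) : ι → Λ) : Germ (U : Filter ι) Λ) :=
  rfl

end Hom

/-! ### Points -/

section Pts

variable {K : Type} [Field K] (W : WeierstrassCurve K)

lemma mkPt_map {Ω Ω' : Type} [Field Ω] [Field Ω'] [Algebra K Ω] [Algebra K Ω']
    (φ : Ω →ₐ[K] Ω') (x y : Ω) :
    mkPt (W.baseChange Ω') (φ x) (φ y) = Affine.Point.map (W' := W) φ (mkPt (W.baseChange Ω) x y) := by
  unfold mkPt
  have hiff := W.toAffine.baseChange_nonsingular (f := φ) φ.injective x y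
  by_cases h : (W.baseChange Ω).toAffine.Nonsingular x y
  · have h' : (W.baseChange Ω').toAffine.Nonsingular (φ x) (φ y) := hiff.mpr h
    rw [dif_pos h, dif_pos h']
    rfl
  · have h' : ¬ (W.baseChange Ω').toAffine.Nonsingular (φ x) (φ y) := fun h1 => h (hiff.mp h1)
    rw [dif_neg h, dif_neg h']
    rfl

lemma pX_map {Ω Ω' : Type} [Field Ω] [Field Ω'] [Algebra K Ω] [Algebra K Ω']
    (φ : Ω →ₐ[K] Ω') (P : Pt W Ω) :
    pX (Affine.Point.map (W' := W) φ P) = φ (pX P) := by
  cases P with
  | zero => exact (map_zero φ).symm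
  | some x y h => rfl

lemma pY_map {Ω Ω' : Type} [Field Ω] [Field Ω'] [Algebra K Ω] [Algebra K Ω']
    (φ : Ω →ₐ[K] Ω') (P : Pt W Ω) :
    pY (Affine.Point.map (W' := W) φ P) = φ (pY P) := by
  cases P with
  | zero => exact (map_zero φ).symm
  | some x y h => rfl

lemma germPt_map {Λ ι : Type} [Field Λ] [Algebra K Λ] (U : Ultrafilter ι) (τ : Λ →ₐ[K] Λ)
    (p : ι → Pt W Λ) :
    germPt W U (fun i => Affine.Point.map (W' := W) τ (p i)) =
      Affine.Point.map (W' := W) (gmap U τ) (germPt W U p) := by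
  unfold germPt
  have hiff : ∀ i, Affine.Point.map (W' := W) τ (p i) = 0 ↔ p i = 0 := by
    intro i
    constructor
    · intro h
      exact Affine.Point.map_injective (W' := W) τ (by rw [h]; rfl)
    · intro h
      rw [h]; rfl
  simp only [hiff]
  by_cases h : ∀ᶠ i in (U : Filter ι), p i = 0
  · rw [if_pos h, if_pos h]
    rfl
  · rw [if_neg h, if_neg h, ← mkPt_map]
    simp only [pX_map, pY_map]
    rfl

lemma germPt_zero {Λ ι : Type} [Field Λ] [Algebra K Λ] (U : Ultrafilter ι) :
    germPt W U (fun _ => (0 : Pt W Λ)) = 0 := by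
  unfold germPt
  rw [if_pos (Eventually.of_forall fun _ => rfl)]

lemma germPt_sum (hG : StGerm) {Λ ι β : Type} [Field Λ] [Algebra K Λ] (U : Ultrafilter ι)
    (s : Finset β) (q : β → ι → Pt W Λ) :
    germPt W U (fun i => ∑ b ∈ s, q b i) = ∑ b ∈ s, germPt W U (q b) := by
  induction s using Finset.induction_on with
  | empty => simp only [Finset.sum_empty]; exact germPt_zero W U
  | insert a s ha ih =>
    simp only [Finset.sum_insert ha]
    rw [(hG K Λ ι W U).1 (q a) (fun i => ∑ b ∈ s, q b i), ih]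

end Pts

/-! ### Algebraic coordinates -/

section Alg

variable {K : Type} [Field K] (W : WeierstrassCurve K)

lemma isAlgebraic_map {Ω : Type} [Field Ω] [Algebra K Ω] (φ : Ω →ₐ[K] Ω) {S S' : Set Ω}
    (hS : ∀ s ∈ S, φ s ∈ S') {x : Ω} (hx : IsAlgebraic (Algebra.adjoin K S) x) :
    IsAlgebraic (Algebra.adjoin K S') (φ x) := by
  have hle : ∀ a ∈ Algebra.adjoin K S, φ a ∈ Algebra.adjoin K S' := by
    intro a ha
    have h1 : Algebra.adjoin K S ≤ (Algebra.adjoin K S').comap φ := by
      rw [Algebra.adjoin_le_iff]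
      intro s hs
      exact Algebra.subset_adjoin (hS s hs)
    exact h1 ha
  let f : Algebra.adjoin K S →+* Algebra.adjoin K S' :=
    { toFun := fun a => ⟨φ a, hle a a.2⟩
      map_one' := Subtype.ext (map_one φ)
      map_mul' := fun a b => Subtype.ext (map_mul φ _ _)
      map_zero' := Subtype.ext (map_zero φ)
      map_add' := fun a b => Subtype.ext (map_add φ _ _) }
  have hf : Function.Injective f := by
    intro a b hab
    have h1 : φ a = φ b := congrArg Subtype.val hab
    exact Subtype.ext (φ.injective h1)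
  exact hx.ringHom_of_comp_eq f (φ : Ω →+* Ω) hf rfl

lemma AlgOver.map {Ω : Type} [Field Ω] [Algebra K Ω] (φ : Ω →ₐ[K] Ω) {S S' : Set Ω}
    (hS : ∀ s ∈ S, φ s ∈ S') {P : Pt W Ω} (hP : AlgOver W S P) :
    AlgOver W S' (Affine.Point.map (W' := W) φ P) := by
  intro x y h he
  cases P with
  | zero => exact absurd he (by intro h1; cases h1)
  | some x0 y0 h0 =>
    obtain ⟨a1, a2⟩ := hP x0 y0 h0 rfl
    rw [Affine.Point.map_some] at he
    injection he with e1 e2
    rw [← e1, ← e2]
    exact ⟨isAlgebraic_map φ hS a1, isAlgebraic_map φ hS a2⟩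

lemma AlgOver.mono {Ω : Type} [Field Ω] [Algebra K Ω] {S S' : Set Ω} (hS : S ⊆ S')
    {P : Pt W Ω} (hP : AlgOver W S P) : AlgOver W S' P := by
  have h := AlgOver.map W (AlgHom.id K Ω) (S := S) (S' := S') (fun s hs => hS hs) hP
  have h2 : Affine.Point.map (W' := W) (AlgHom.id K Ω) P = P := by
    cases P <;> rfl
  rwa [h2] at h

lemma algOver_zero {Ω : Type} [Field Ω] [Algebra K Ω] (S : Set Ω) :
    AlgOver W S (0 : Pt W Ω) := by
  intro x y h he
  cases he

lemma algOver_sum (hA : StAlg) {Ω β : Type} [Field Ω] [Algebra K Ω] (S : Set Ω) (s : Finset β)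
    (q : β → Pt W Ω) (hq : ∀ b ∈ s, AlgOver W S (q b)) : AlgOver W S (∑ b ∈ s, q b) := by
  induction s using Finset.induction_on with
  | empty => simp only [Finset.sum_empty]; exact algOver_zero W S
  | insert a s ha ih =>
    rw [Finset.sum_insert ha]
    exact (hA K Ω W S _ _ (hq a (Finset.mem_insert_self _ _))
      (ih fun b hb => hq b (Finset.mem_insert_of_mem hb))).1

/-- Constant points with coordinates in `K`. -/
lemma algOver_const {Λ ι : Type} [Field Λ] [Algebra K Λ] (U : Ultrafilter ι)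
    (S : Set (Germ (U : Filter ι) Λ)) (R : Pt W K) :
    AlgOver W S (germPt W U (fun _ => Affine.Point.map (W' := W) (Algebra.ofId K Λ) R)) := by
  intro x y h he
  unfold germPt at he
  by_cases h1 : ∀ᶠ _i in (U : Filter ι), Affine.Point.map (W' := W) (Algebra.ofId K Λ) R = 0
  · rw [if_pos h1] at he
    cases he
  · rw [if_neg h1] at he
    unfold mkPt at he
    by_cases h2 : (W.baseChange (Germ (U : Filter ι) Λ)).toAffine.Nonsingular
        ((fun _ => pX (Affine.Point.map (W' := W) (Algebra.ofId K Λ) R) : ι → Λ) :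
          Germ (U : Filter ι) Λ)
        ((fun _ => pY (Affine.Point.map (W' := W) (Algebra.ofId K Λ) R) : ι → Λ) :
          Germ (U : Filter ι) Λ)
    · rw [dif_pos h2] at he
      injection he with e1 e2
      simp only [pX_map, pY_map] at e1 e2
      rw [← e1, ← e2]
      constructor
      · exact isAlgebraic_algebraMap (A := Germ (U : Filter ι) Λ)
          (algebraMap K (Algebra.adjoin K S) (pX R))
      · exact isAlgebraic_algebraMap (A := Germ (U : Filter ι) Λ)
          (algebraMap K (Algebra.adjoin K S) (pY R))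
    · rw [dif_neg h2] at he
      cases he

end Alg

/-! ### Galois descent -/

lemma descent {K L : Type} [Field K] [Field L] [Algebra K L] [FiniteDimensional K L]
    [IsGalois K L] (W : WeierstrassCurve K) (P : Pt W L)
    (hP : ∀ τ : L ≃ₐ[K] L, Affine.Point.map (W' := W) (τ : L →ₐ[K] L) P = P) :
    ∃ R : Pt W K, Affine.Point.map (W' := W) (Algebra.ofId K L) R = P := by
  cases P with
  | zero => exact ⟨0, rfl⟩
  | some x y h =>
    have hx : ∀ τ : L ≃ₐ[K] L, τ x = x ∧ τ y = y := by
      intro τ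
      have h1 := hP τ
      rw [Affine.Point.map_some] at h1
      injection h1 with e1 e2
      exact ⟨e1, e2⟩
    obtain ⟨x0, rfl⟩ := (IsGalois.mem_range_algebraMap_iff_fixed x).mpr fun τ => (hx τ).1
    obtain ⟨y0, rfl⟩ := (IsGalois.mem_range_algebraMap_iff_fixed y).mpr fun τ => (hx τ).2
    have h0 : (W.baseChange K).toAffine.Nonsingular x0 y0 :=
      (W.toAffine.baseChange_nonsingular (f := Algebra.ofId K L) (Algebra.ofId K L).injective
        x0 y0).mp h
    exact ⟨.some x0 y0 h0, rfl⟩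

/-- The trace of a point. -/
lemma trace_fixed {K L : Type} [Field K] [Field L] [Algebra K L] [FiniteDimensional K L]
    (W : WeierstrassCurve K) (P : Pt W L) (τ : L ≃ₐ[K] L) :
    Affine.Point.map (W' := W) (τ : L →ₐ[K] L)
      (∑ σ : L ≃ₐ[K] L, Affine.Point.map (W' := W) (σ : L →ₐ[K] L) P) =
      ∑ σ : L ≃ₐ[K] L, Affine.Point.map (W' := W) (σ : L →ₐ[K] L) P := by
  rw [map_sum]
  refine Fintype.sum_equiv (Equiv.mulLeft τ) _ _ fun σ => ?_
  rw [Affine.Point.map_map]
  congr 1

/-! ### Algebraic independence -/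

lemma indep_alg {K Ω ι : Type} [Field K] [Field Ω] [Algebra K Ω] (c : ι → Ω)
    (hc : AlgebraicIndependent K c) (i : ι) {x : Ω}
    (h1 : IsAlgebraic (Algebra.adjoin K {c i}) x)
    (h2 : IsAlgebraic (Algebra.adjoin K (c '' {j | j ≠ i})) x) : IsAlgebraic K x := by
  have hind : (AlgebraicIndependent.matroid K Ω).Indep ({c i} ∪ c '' {j | j ≠ i}) := by
    rw [AlgebraicIndependent.matroid_indep_iff]
    have h3 : ({c i} ∪ c '' {j | j ≠ i}) = Set.range c := by
      ext z
      constructor
      · rintro (h | ⟨j, _, rfl⟩)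
        · exact ⟨i, h.symm⟩
        · exact ⟨j, rfl⟩
      · rintro ⟨j, rfl⟩
        by_cases hj : j = i
        · left; rw [hj]; rfl
        · right; exact ⟨j, hj, rfl⟩
    rw [h3]
    exact hc.to_subtype_range
  have h3 := hind.closure_inter_eq_inter_closure
  have h4 : ({c i} ∩ c '' {j | j ≠ i} : Set Ω) = ∅ := by
    rw [Set.eq_empty_iff_forall_notMem]
    rintro z ⟨hz, j, hj, hjz⟩
    have : c j = c i := by rw [hjz]; exact hz
    exact hj (hc.injective this)
  rw [h4, AlgebraicIndependent.matroid_closure_eq, AlgebraicIndependent.matroid_closure_eq,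
    AlgebraicIndependent.matroid_closure_eq] at h3
  have h5 : x ∈ ((Subalgebra.algebraicClosure (Algebra.adjoin K (∅ : Set Ω)) Ω : Set Ω)) := by
    rw [h3]
    exact ⟨h1, h2⟩
  have h6 : IsAlgebraic (Algebra.adjoin K (∅ : Set Ω)) x := h5
  haveI : Algebra.IsAlgebraic K (Algebra.adjoin K (∅ : Set Ω)) := by
    refine ⟨fun a => ?_⟩
    have ha : (a : Ω) ∈ (⊥ : Subalgebra K Ω) := by
      rw [← Algebra.adjoin_empty]
      exact a.2
    obtain ⟨k, hk⟩ := Algebra.mem_bot.mp ha
    have h7 : a = algebraMap K _ k := Subtype.ext hk.symm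
    rw [h7]
    exact isAlgebraic_algebraMap k
  exact h6.restrictScalars K

/-- Elements of the ultrapower which are algebraic over `K` are constant. -/
lemma const_of_alg {K Λ ι : Type} [Field K] [Field Λ] [Algebra K Λ] [IsAlgClosure K Λ]
    (U : Ultrafilter ι) {x : Germ (U : Filter ι) Λ} (hx : IsAlgebraic K x) :
    ∃ a : Λ, x = (a : Germ (U : Filter ι) Λ) := by
  haveI : IsAlgClosed Λ := IsAlgClosure.isAlgClosed K
  obtain ⟨p, hp, hpx⟩ := hx
  let j : Λ →+* Germ (U : Filter ι) Λ :=
    { toFun := fun a => (a : Germ (U : Filter ι) Λ)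
      map_one' := rfl
      map_mul' := fun _ _ => rfl
      map_zero' := rfl
      map_add' := fun _ _ => rfl }
  have h1 : (p.map (algebraMap K Λ)).map j = p.map (algebraMap K (Germ (U : Filter ι) Λ)) := by
    rw [Polynomial.map_map]
    rfl
  have h2 := (IsAlgClosed.splits (p.map (algebraMap K Λ))).map j
  have h3 : ((p.map (algebraMap K Λ)).map j).eval x = 0 := by
    rw [h1, Polynomial.eval_map]
    exact hpx
  have h4 : p.map (algebraMap K Λ) ≠ 0 := by
    rw [Ne, Polynomial.map_eq_zero]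
    exact hp
  have h5 : x ∈ ((p.map (algebraMap K Λ)).map j).roots := by
    rw [Polynomial.mem_roots']
    refine ⟨?_, h3⟩
    rw [Ne, Polynomial.map_eq_zero]
    exact h4
  rw [(IsAlgClosed.splits (p.map (algebraMap K Λ))).roots_map j, Multiset.mem_map] at h5
  obtain ⟨a, _, ha⟩ := h5
  exact ⟨a, ha.symm⟩

end Ultra

open Ultra in
theorem stUltra (hG : StGerm) (hA : StAlg) (hI : StIndep) : StUltra := by
  intro K L Λ _ _ _ _ _ _ _ _ _ _ _ W hfin Q
  haveI := hfin
  obtain ⟨U, hU⟩ := hI K L Λ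
  haveI : Normal K Λ := IsAlgClosure.normal K Λ
  refine ⟨U, ?_, ?_⟩
  · exact hU.transcendental (AlgEquiv.refl)
  intro hP
  set c : (L ≃ₐ[K] L) → Germ (U : Filter L) Λ := fun σ =>
    ((fun m => algebraMap L Λ (σ m) : L → Λ) : Germ (U : Filter L) Λ) with hc
  set ιL : L →ₐ[K] Λ := IsScalarTower.toAlgHom K L Λ with hιL
  set q : (L ≃ₐ[K] L) → L → Pt W Λ := fun σ m =>
    Affine.Point.map (W' := W) ιL (Affine.Point.map (W' := W) (σ : L →ₐ[K] L) (Q m)) with hq
  set P1 := germPt W U (fun m => Affine.Point.map (W' := W) ιL (Q m)) with hP1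
  -- the conjugates
  have hconj : ∀ σ, AlgOver W {c σ} (germPt W U (q σ)) := by
    intro σ
    have h1 : q σ = fun m => Affine.Point.map (W' := W)
        ((σ.liftNormal Λ : Λ ≃ₐ[K] Λ) : Λ →ₐ[K] Λ) (Affine.Point.map (W' := W) ιL (Q m)) := by
      funext m
      simp only [hq]
      rw [Affine.Point.map_map, Affine.Point.map_map]
      congr 2
      ext a
      exact (σ.liftNormal_commutes Λ a).symm
    rw [h1, germPt_map]
    refine AlgOver.map W _ ?_ hP
    intro s hs
    rw [Set.mem_singleton_iff] at hs ⊢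
    rw [hs, gmap_coe]
    simp only [hc]
    congr 1
    funext m
    exact σ.liftNormal_commutes Λ m
  -- the trace
  have htr : ∀ m : L, ∃ R : Pt W K, Affine.Point.map (W' := W) (Algebra.ofId K L) R =
      ∑ σ : L ≃ₐ[K] L, Affine.Point.map (W' := W) (σ : L →ₐ[K] L) (Q m) := by
    intro m
    exact descent W _ fun τ => trace_fixed W (Q m) τ
  obtain ⟨R0, hR0⟩ := Ultrafilter.eventually_exists_iff.mp
    (Eventually.of_forall htr : ∀ᶠ m in (U : Filter L), _)
  have hsum : germPt W U (fun _ => Affine.Point.map (W' := W) (Algebra.ofId K Λ) R0) =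
      ∑ σ : L ≃ₐ[K] L, germPt W U (q σ) := by
    rw [← germPt_sum W hG, (hG K Λ L W U).2.1]
    filter_upwards [hR0] with m hm
    simp only [hq]
    rw [← map_sum, ← hm, Affine.Point.map_map]
    have h0 : Algebra.ofId K Λ = ιL.comp (Algebra.ofId K L) := Subsingleton.elim _ _
    rw [h0]
  have hone : germPt W U (q AlgEquiv.refl) = P1 := by
    rw [hP1]
    congr 1
    funext m
    simp only [hq]
    congr 1
    generalize Q m = Z
    cases Z <;> rfl
  -- `P1` is algebraic over the other conjugates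
  have halg : AlgOver W (c '' {σ | σ ≠ AlgEquiv.refl}) P1 := by
    have h1 : P1 = germPt W U (fun _ => Affine.Point.map (W' := W) (Algebra.ofId K Λ) R0) +
        -∑ σ ∈ Finset.univ.erase (AlgEquiv.refl : L ≃ₐ[K] L), germPt W U (q σ) := by
      rw [hsum, ← Finset.add_sum_erase _ _ (Finset.mem_univ (AlgEquiv.refl : L ≃ₐ[K] L)), hone]
      abel
    rw [h1]
    refine (hA K _ W _ _ _ (algOver_const W U _ R0)
      ((hA K _ W _ _ 0 (algOver_sum W hA _ _ _ ?_) (algOver_zero W _)).2)).1
    intro σ hσ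
    refine AlgOver.mono W ?_ (hconj σ)
    rintro z rfl
    exact ⟨σ, (Finset.mem_erase.mp hσ).1, rfl⟩
  -- the coordinates are algebraic over `K`, hence constant
  have hc1 : c AlgEquiv.refl = ((fun m => algebraMap L Λ m : L → Λ) : Germ (U : Filter L) Λ) := rfl
  rw [← hc1] at hP
  have hfinal : ∃ R : Pt W Λ, P1 = germPt W U (fun _ => R) := by
    rcases hP1c : P1 with _ | ⟨x, y, h⟩
    · exact ⟨0, (germPt_zero W U).symm⟩
    · obtain ⟨a1, a2⟩ := hP x y h hP1c
      obtain ⟨b1, b2⟩ := halg x y h hP1c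
      obtain ⟨x0, hx0⟩ := const_of_alg (K := K) U (indep_alg c hU _ a1 b1)
      obtain ⟨y0, hy0⟩ := const_of_alg (K := K) U (indep_alg c hU _ a2 b2)
      refine ⟨mkPt (W.baseChange Λ) x0 y0, ?_⟩
      rw [(hG K Λ L W U).2.2 (fun _ => x0) (fun _ => y0)]
      unfold mkPt
      subst hx0 hy0
      exact (dif_pos h).symm
  obtain ⟨R, hR⟩ := hfinal
  exact ⟨R, ((hG K Λ L W U).2.1 _ _).mp hR⟩

end

end Pool.MP_bfb583_al.EC
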