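import Pool.Agent.Lib.MP_bfb583_al.EC.Gen
import Pool.Agent.Lib.MP_bfb583_al.EC.Ultra

set_option autoImplicit false

/-!
Assembly: short Weierstrass equations.
-/

namespace Pool.MP_bfb583_al.EC

open Polynomial IntermediateField Filter WeierstrassCurve
open scoped Classical
open IntermediateField.algebraAdjoinAdjoin

namespace ShortAux

section Maps

variable {F F' : Type*} [Field F] [Field F'] (φ : F →+* F')

theorem map_e0 (u : F) : φ (e0 u) = e0 (φ u) := by
  simp [e0, map_ofNat]

theorem map_p0 (u : F) : φ (p0 u) = p0 (φ u) := by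
  simp [p0, map_ofNat]

theorem map_wM (u m : F) : φ (wM u m) = wM (φ u) (φ m) := by
  simp [wM, map_e0, map_ofNat]

theorem map_tM (u m : F) : φ (tM u m) = tM (φ u) (φ m) := by
  simp [tM, map_wM, map_p0, map_ofNat]

theorem map_sM (u m : F) : φ (sM u m) = sM (φ u) (φ m) := by
  simp [sM, map_tM, map_s0]

end Maps

section GermAux

variable {K F ι : Type} [Field K] [Field F] [Algebra K F] (U : Ultrafilter ι)

instance germTower : IsScalarTower K F (Germ (U : Filter ι) F) :=
  IsScalarTower.of_algebraMap_eq fun _ => rfl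

theorem germ_const_eq (a : F) : algebraMap F (Germ (U : Filter ι) F) a
    = ((fun _ => a : ι → F) : Germ (U : Filter ι) F) := rfl

omit [Field F] in
theorem germ_ne {a b : ι → F} (h : (a : Germ (U : Filter ι) F) ≠ b) :
    ∀ᶠ i in (U : Filter ι), a i ≠ b i := by
  by_contra h'
  rw [Ultrafilter.eventually_not, not_not] at h'
  exact h (Germ.coe_eq.mpr h')

omit [Field F] in
theorem germ_ne' {a b : ι → F} (h : ∀ᶠ i in (U : Filter ι), a i ≠ b i) :
    (a : Germ (U : Filter ι) F) ≠ b := by
  intro h'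
  have h2 := Germ.coe_eq.mp h'
  rw [Ultrafilter.eventually_not] at h
  exact h h2

/-- the germs of the roots are the roots. -/
theorem rts_germ [CharZero F] {ν s : ι → F} {v : ι → Fin 6 → F}
    (h : ∀ᶠ i in (U : Filter ι), Rts (ν i) (s i) (v i)) :
    Rts (ν : Germ (U : Filter ι) F) (s : Germ (U : Filter ι) F)
      (fun j => ((fun i => v i j : ι → F) : Germ (U : Filter ι) F)) := by
  have hcz : CharZero (Germ (U : Filter ι) F) :=
    charZero_of_injective_algebraMap (algebraMap F _).injective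
  constructor
  · intro j k hjk
    by_contra hne
    refine germ_ne' U ?_ hjk
    filter_upwards [h] with i hi
    exact fun h2 => hne (hi.1 h2)
  · apply Polynomial.funext
    intro z
    induction z using Germ.inductionOn with
    | _ z =>
      rw [eval_fp, eval_prod]
      simp only [eval_sub, eval_X, eval_C, Fin.prod_univ_six]
      refine Germ.coe_eq.mpr ?_
      filter_upwards [h] with i hi
      have h2 := congrArg (eval (z i)) hi.2
      rw [eval_fp, eval_prod] at h2
      simp only [eval_sub, eval_X, eval_C, Fin.prod_univ_six] at h2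
      exact h2

/-- germ of a constant point. -/
theorem germPt_const (W : WeierstrassCurve K) (R : Pt W F) :
    germPt W U (fun _ => R) = Affine.Point.baseChange F (Germ (U : Filter ι) F) R := by
  cases R with
  | zero =>
    have h0 : ∀ᶠ _i in (U : Filter ι), (Affine.Point.zero : Pt W F) = 0 :=
      Eventually.of_forall fun _ => rfl
    unfold germPt
    rw [if_pos h0]
    rfl
  | some x y h =>
    unfold germPt
    rw [if_neg]
    · unfold mkPt
      have h' : (W.baseChange (Germ (U : Filter ι) F)).toAffine.Nonsingular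
          ((fun _ => pX (Affine.Point.some x y h : Pt W F) : ι → F) : Germ (U : Filter ι) F)
          ((fun _ => pY (Affine.Point.some x y h : Pt W F) : ι → F) : Germ (U : Filter ι) F) :=
        (W.toAffine.baseChange_nonsingular (f := Algebra.ofId F (Germ (U : Filter ι) F))
          (Algebra.ofId F (Germ (U : Filter ι) F)).injective x y).mpr h
      rw [dif_pos h']
      rfl
    · rw [eventually_const]
      intro h1
      cases h1

end GermAux

section AlgAux

theorem algOver_bpt {K Ω : Type} [Field K] [Field Ω] [Algebra K Ω] [CharZero Ω]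
    (W : WeierstrassCurve K) (u μ m : Ω) (v : Fin 6 → Ω) (hu : IsAlgebraic K u)
    (hμ : IsAlgebraic K μ) (hv : Rts (nu u) (sM u m) v) (i j : Fin 6) :
    AlgOver W {m} (bpt (W.baseChange Ω) u μ (tM u m) (v i) (v j)) := by
  let E := algebraicClosure K⟮m⟯ Ω
  have hu' : u ∈ E := mem_algebraicClosure_iff.mpr (hu.tower_top K⟮m⟯)
  have hμ' : μ ∈ E := mem_algebraicClosure_iff.mpr (hμ.tower_top K⟮m⟯)
  have hm' : m ∈ E := mem_algebraicClosure_iff.mpr
    (isAlgebraic_algebraMap (A := Ω) (⟨m, mem_adjoin_simple_self K m⟩ : K⟮m⟯))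
  have hv' : ∀ i, v i ∈ E := by
    intro i
    apply mem_algebraicClosure_iff.mpr
    have h1 : IsAlgebraic E (v i) := by
      refine ⟨fp (nu (⟨u, hu'⟩ : E)) (sM (⟨u, hu'⟩ : E) ⟨m, hm'⟩), ?_, ?_⟩
      · have hm : (fp (nu (⟨u, hu'⟩ : E)) (sM (⟨u, hu'⟩ : E) ⟨m, hm'⟩)).Monic := by
          unfold fp; monicity!
        exact hm.ne_zero
      · have h2 := isRoot_of_rts hv i
        rw [IsRoot] at h2
        rw [← eval_map_algebraMap, map_fp, map_nu, map_sM]
        exact h2
    exact h1.restrictScalars K⟮m⟯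
  have htow : IsScalarTower K E Ω := IsScalarTower.of_algebraMap_eq fun _ => rfl
  intro x y h he
  have hbp := map_bpt W (IsScalarTower.toAlgHom K E Ω) ⟨u, hu'⟩ ⟨μ, hμ'⟩
    (tM (⟨u, hu'⟩ : E) ⟨m, hm'⟩) ⟨v i, hv' i⟩ ⟨v j, hv' j⟩
  have ht : (IsScalarTower.toAlgHom K E Ω) (tM (⟨u, hu'⟩ : E) ⟨m, hm'⟩) = tM u m :=
    map_tM (algebraMap E Ω) _ _
  rw [ht] at hbp
  have key : ∀ P : Pt W E, Affine.Point.map (W' := W) (IsScalarTower.toAlgHom K E Ω) P
      = .some x y h → x ∈ E ∧ y ∈ E := by
    intro P hP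
    cases P with
    | zero => cases hP
    | some x' y' h' =>
      rw [Affine.Point.map_some] at hP
      injection hP with e1 e2
      rw [← e1, ← e2]
      exact ⟨x'.2, y'.2⟩
  obtain ⟨hx, hy⟩ := key _ (hbp.trans he)
  exact ⟨(IsFractionRing.isAlgebraic_iff _ K⟮m⟯ Ω).mpr (mem_algebraicClosure_iff.mp hx),
    (IsFractionRing.isAlgebraic_iff _ K⟮m⟯ Ω).mpr (mem_algebraicClosure_iff.mp hy)⟩

end AlgAux

section Core

theorem map_cA {F F' : Type*} [Field F] [Field F'] (φ : F →+* F') (u μ : F) :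
    φ (cA u μ) = cA (φ u) (φ μ) := by
  simp [cA, an, map_ofNat]

theorem map_cB {F F' : Type*} [Field F] [Field F'] (φ : F →+* F') (u μ : F) :
    φ (cB u μ) = cB (φ u) (φ μ) := by
  simp [cB, an, map_ofNat]

theorem goodU_map {F F' : Type*} [Field F] [Field F'] (φ : F →+* F') {u : F} (h : GoodU u) :
    GoodU (φ u) where
  u0 := by
    rw [Ne, map_eq_zero]; exact h.u0
  u1 := by
    rw [← map_one φ, φ.injective.ne_iff]; exact h.u1
  u2 := by
    have h1 := (_root_.map_ne_zero φ).mpr h.u2
    simpa only [map_add, map_mul, map_ofNat, map_one] using h1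
  q1 := by
    have h1 := (_root_.map_ne_zero φ).mpr h.q1
    simpa only [map_sub, map_pow, map_mul, map_ofNat, map_one] using h1
  q2 := by
    have h1 := (_root_.map_ne_zero φ).mpr h.q2
    simpa only [map_sub, map_add, map_pow, map_mul, map_ofNat, map_one] using h1
  q3 := by
    have h1 := (_root_.map_ne_zero φ).mpr h.q3
    simpa only [map_sub, map_add, map_pow, map_mul, map_ofNat, map_one] using h1

theorem trip_map {F F' : Type*} [Field F] [Field F'] (φ : F →+* F') {ν u₁ u₂ u₃ : F}
    (h : Trip ν u₁ u₂ u₃) : Trip (φ ν) (φ u₁) (φ u₂) (φ u₃) where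
  h1 := by
    have := congrArg φ h.h1
    simpa only [map_add, map_div₀, map_ofNat] using this
  h2 := by
    have := congrArg φ h.h2
    simpa only [map_add, map_mul, map_neg, map_ofNat] using this
  h3 := by
    have := congrArg φ h.h3
    simpa only [map_mul, map_div₀, map_neg, map_one, map_ofNat] using this

theorem germ_bpt (hGerm : StGerm) {K F ι : Type} [Field K] [Field F] [Algebra K F]
    (W : WeierstrassCurve K) (U : Ultrafilter ι) (u μ : F) (t a b : ι → F) :
    germPt W U (fun i => bpt (W.baseChange F) u μ (t i) (a i) (b i))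
      = bpt (W.baseChange (Germ (U : Filter ι) F))
        (algebraMap F (Germ (U : Filter ι) F) u) (algebraMap F (Germ (U : Filter ι) F) μ)
        (t : Germ (U : Filter ι) F) (a : Germ (U : Filter ι) F) (b : Germ (U : Filter ι) F) := by
  unfold bpt
  rw [(hGerm K F ι W U).2.2]
  rfl

/-- the core of the proof, over a finite Galois extension containing all the constants. -/
theorem core (hGeo : StGeo) (hTrap : StTrap) (hUltra : StUltra) (hGerm : StGerm)
    (hAlg : StAlg) (K L Λ : Type) [Field K] [CharZero K] [Field L] [Field Λ] [Algebra K L]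
    [Algebra K Λ] [Algebra L Λ] [IsScalarTower K L Λ] [FiniteDimensional K L] [IsGalois K L]
    [IsAlgClosure K Λ] (W : WeierstrassCurve K) [W.IsShortNF] (u u₂ u₃ μ r : L)
    (hA5 : NoA5 L) (hu : GoodU u) (hμ : μ ≠ 0) (ha : algebraMap K L W.a₄ = cA u μ)
    (hb : algebraMap K L W.a₆ = cB u μ) (h2 : u₂ ≠ 0) (h3 : u₃ ≠ 0) (hν2 : nu u₂ = nu u)
    (hν3 : nu u₃ = nu u) (ht : Trip (nu u) u u₂ u₃) (hr : r ^ 2 = -3) :
    Infinite (Pt W K) := by
  have hcL : CharZero L := charZero_of_injective_algebraMap (algebraMap K L).injective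
  have hcΛ : CharZero Λ := charZero_of_injective_algebraMap (algebraMap K Λ).injective
  have hac : IsAlgClosed Λ := IsAlgClosure.isAlgClosed K
  have halg : Algebra.IsAlgebraic K Λ := IsAlgClosure.isAlgebraic
  have hclL : IsAlgClosure L Λ := ⟨hac, Algebra.IsAlgebraic.tower_top (K := K) L⟩
  by_contra hinf
  have hfin : Finite (Pt W K) := not_infinite_iff_finite.mp hinf
  have hex : ∀ m : L, ∃ (v : Fin 6 → Λ) (Q : Pt W L),
      (2 * m - e0 u ≠ 0 ∧ wM u m ≠ 0 ∧ tM u m ≠ 0 ∧ (fp (nu u) (sM u m)).Separable) →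
      Rts (nu (algebraMap L Λ u)) (algebraMap L Λ (sM u m)) v ∧
      (Affine.Point.baseChange L Λ Q =
          bpt (W.baseChange Λ) (algebraMap L Λ u) (algebraMap L Λ μ) (algebraMap L Λ (tM u m))
            (v 0) (v 1) ∨
        (v 5 = algebraMap L Λ (wM u m) ∧ Affine.Point.baseChange L Λ Q =
          ∑ i : Fin 5, bpt (W.baseChange Λ) (algebraMap L Λ u) (algebraMap L Λ μ)
            (algebraMap L Λ (tM u m)) (v (Fin.castSucc i)) (v (Fin.castSucc (i + 1))))) := by
    intro m
    by_cases hm : 2 * m - e0 u ≠ 0 ∧ wM u m ≠ 0 ∧ tM u m ≠ 0 ∧ (fp (nu u) (sM u m)).Separable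
    · obtain ⟨v, Q, h⟩ := hTrap K L Λ W u u₂ u₃ μ r (tM u m) (sM u m) (wM u m) hA5 hu hμ ha hb
        h2 h3 hν2 hν3 ht hr hm.2.2.1 (by unfold sM; ring) hm.2.2.2 (root_wM hu.u0 hm.1 hm.2.1)
      exact ⟨v, Q, fun _ => h⟩
    · exact ⟨fun _ => 0, 0, fun h => absurd h hm⟩
  choose v Q hvQ using hex
  obtain ⟨U, htr, hR⟩ := hUltra K L Λ W hfin Q
  set ms : Germ (U : Filter L) Λ :=
    ((fun m => algebraMap L Λ m : L → Λ) : Germ (U : Filter L) Λ) with hms
  have hcΩ : CharZero (Germ (U : Filter L) Λ) :=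
    charZero_of_injective_algebraMap (algebraMap Λ _).injective
  set uΛ : Λ := algebraMap L Λ u with huΛ
  set μΛ : Λ := algebraMap L Λ μ with hμΛ
  have htrΛ : Transcendental Λ ms := fun h => htr (h.restrictScalars K)
  have huΛg : GoodU uΛ := goodU_map _ hu
  obtain ⟨g1, g2, g3, g4, g5⟩ := generic_m (Ω := Germ (U : Filter L) Λ) uΛ ms huΛg.u0 htrΛ
  -- almost everywhere the parameter is good
  have a1 : ∀ᶠ m in (U : Filter L), 2 * m - e0 u ≠ 0 := by
    have h := germ_ne U (a := fun m => 2 * algebraMap L Λ m - e0 uΛ) (b := fun _ => 0) g1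
    filter_upwards [h] with m hm h0
    apply hm
    have := congrArg (algebraMap L Λ) h0
    simpa only [map_sub, map_mul, map_ofNat, map_e0, map_zero] using this
  have a2 : ∀ᶠ m in (U : Filter L), wM u m ≠ 0 := by
    have h := germ_ne U (a := fun m => wM uΛ (algebraMap L Λ m)) (b := fun _ => 0) g2
    filter_upwards [h] with m hm h0
    apply hm
    rw [huΛ, ← map_wM, h0, map_zero]
  have a3 : ∀ᶠ m in (U : Filter L), tM u m ≠ 0 := by
    have h := germ_ne U (a := fun m => tM uΛ (algebraMap L Λ m)) (b := fun _ => 0) g3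
    filter_upwards [h] with m hm h0
    apply hm
    rw [huΛ, ← map_tM, h0, map_zero]
  have hs : ∀ c : Λ, ∀ᶠ m in (U : Filter L), sM uΛ (algebraMap L Λ m) ≠ c := by
    intro c
    refine germ_ne U (a := fun m => sM uΛ (algebraMap L Λ m)) (b := fun _ => c) ?_
    intro h
    apply g5
    have : sM (algebraMap Λ (Germ (U : Filter L) Λ) uΛ) ms
        = algebraMap Λ (Germ (U : Filter L) Λ) c := h
    rw [this]
    exact isAlgebraic_algebraMap c
  have hmapnu : ∀ x : L, nu x = nu u → nu (algebraMap L Λ x) = nu uΛ := by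
    intro x hx
    rw [← map_nu, hx, map_nu]
  have a4 : ∀ᶠ m in (U : Filter L), (fp (nu u) (sM u m)).Separable := by
    filter_upwards [hs (s0 uΛ), hs (s0 (algebraMap L Λ u₂)), hs (s0 (algebraMap L Λ u₃))]
      with m n1 n2 n3
    have htΛ := trip_map (algebraMap L Λ) ht
    rw [map_nu] at htΛ
    have h := sep_of_ne (F := Λ) huΛg.u0 ((_root_.map_ne_zero _).mpr h2) ((_root_.map_ne_zero _).mpr h3)
      rfl (hmapnu _ hν2) (hmapnu _ hν3) htΛ n1 n2 n3
    rw [huΛ, ← map_sM, ← map_nu, ← map_fp, separable_map] at h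
    exact h
  have hgood : ∀ᶠ m in (U : Filter L), Rts (nu uΛ) (algebraMap L Λ (sM u m)) (v m) ∧
      (Affine.Point.baseChange L Λ (Q m) =
          bpt (W.baseChange Λ) uΛ μΛ (algebraMap L Λ (tM u m)) (v m 0) (v m 1) ∨
        (v m 5 = algebraMap L Λ (wM u m) ∧ Affine.Point.baseChange L Λ (Q m) =
          ∑ i : Fin 5, bpt (W.baseChange Λ) uΛ μΛ
            (algebraMap L Λ (tM u m)) (v m (Fin.castSucc i)) (v m (Fin.castSucc (i + 1))))) := by
    filter_upwards [a1, a2, a3, a4] with m b1 b2 b3 b4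
    exact hvQ m ⟨b1, b2, b3, b4⟩
  set vs : Fin 6 → Germ (U : Filter L) Λ :=
    fun j => ((fun m => v m j : L → Λ) : Germ (U : Filter L) Λ) with hvs
  have hrts : Rts (nu (algebraMap Λ (Germ (U : Filter L) Λ) uΛ))
      (sM (algebraMap Λ (Germ (U : Filter L) Λ) uΛ) ms) vs := by
    have h := rts_germ U (ν := fun _ => nu uΛ) (s := fun m => sM uΛ (algebraMap L Λ m)) (v := v)
      (by
        filter_upwards [hgood] with m hm
        have h1 := hm.1
        rw [map_sM] at h1
        exact h1)
    exact h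
  have halgu : IsAlgebraic K (algebraMap Λ (Germ (U : Filter L) Λ) uΛ) :=
    (halg.isAlgebraic uΛ).algebraMap
  have halgμ : IsAlgebraic K (algebraMap Λ (Germ (U : Filter L) Λ) μΛ) :=
    (halg.isAlgebraic μΛ).algebraMap
  have haΛ : algebraMap K Λ W.a₄ = cA uΛ μΛ := by
    rw [IsScalarTower.algebraMap_apply K L Λ, ha, map_cA]
  have hbΛ : algebraMap K Λ W.a₆ = cB uΛ μΛ := by
    rw [IsScalarTower.algebraMap_apply K L Λ, hb, map_cB]
  have hμΛ0 : μΛ ≠ 0 := (_root_.map_ne_zero _).mpr hμ
  obtain ⟨geo1, geo2⟩ := hGeo K Λ (Germ (U : Filter L) Λ) W uΛ μΛ ms vs huΛg hμΛ0 haΛ hbΛ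
    htrΛ hrts
  have hmapQ : ∀ m, Affine.Point.map (W' := W) (IsScalarTower.toAlgHom K L Λ) (Q m)
      = Affine.Point.baseChange L Λ (Q m) := by
    intro m
    cases Q m <;> rfl
  have hfinish : ∀ P : Pt W (Germ (U : Filter L) Λ),
      germPt W U (fun m => Affine.Point.map (W' := W) (IsScalarTower.toAlgHom K L Λ) (Q m)) = P →
      AlgOver W {ms} P →
      ∃ R : Pt W Λ, Affine.Point.baseChange Λ (Germ (U : Filter L) Λ) R = P := by
    intro P hP hPa
    obtain ⟨R, hRR⟩ := hR (by rw [hP]; exact hPa)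
    refine ⟨R, ?_⟩
    rw [← germPt_const, ← hP]
    refine ((hGerm K Λ L W U).2.1 _ _).mpr ?_
    filter_upwards [hRR] with m hm
    exact hm.symm
  rcases Ultrafilter.eventually_or.mp (hgood.mono fun m hm => hm.2) with hc | hc
  · have e1 : germPt W U (fun m => Affine.Point.map (W' := W) (IsScalarTower.toAlgHom K L Λ) (Q m))
        = bpt (W.baseChange (Germ (U : Filter L) Λ)) (algebraMap Λ (Germ (U : Filter L) Λ) uΛ)
          (algebraMap Λ (Germ (U : Filter L) Λ) μΛ)
          (tM (algebraMap Λ (Germ (U : Filter L) Λ) uΛ) ms) (vs 0) (vs 1) := by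
      have h1 := germ_bpt hGerm W U uΛ μΛ (fun m => tM uΛ (algebraMap L Λ m))
        (fun m => v m 0) (fun m => v m 1)
      refine Eq.trans (((hGerm K Λ L W U).2.1 _ _).mpr ?_) h1
      filter_upwards [hc] with m hm
      rw [hmapQ, hm, map_tM]
    obtain ⟨R, hRR⟩ := hfinish _ e1 (algOver_bpt W _ _ ms vs halgu halgμ hrts 0 1)
    exact geo1 R hRR
  · have h5 : vs 5 = wM (algebraMap Λ (Germ (U : Filter L) Λ) uΛ) ms := by
      have h6 : vs 5 = ((fun m => wM uΛ (algebraMap L Λ m) : L → Λ) : Germ (U : Filter L) Λ) := by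
        refine Germ.coe_eq.mpr ?_
        filter_upwards [hc] with m hm
        rw [hm.1, map_wM]
      exact h6
    have e2 : germPt W U (fun m => Affine.Point.map (W' := W) (IsScalarTower.toAlgHom K L Λ) (Q m))
        = ∑ i : Fin 5, bpt (W.baseChange (Germ (U : Filter L) Λ))
          (algebraMap Λ (Germ (U : Filter L) Λ) uΛ) (algebraMap Λ (Germ (U : Filter L) Λ) μΛ)
          (tM (algebraMap Λ (Germ (U : Filter L) Λ) uΛ) ms) (vs (Fin.castSucc i))
          (vs (Fin.castSucc (i + 1))) := by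
      have h1 := Ultra.germPt_sum W hGerm U Finset.univ (fun (i : Fin 5) m =>
        bpt (W.baseChange Λ) uΛ μΛ (tM uΛ (algebraMap L Λ m)) (v m (Fin.castSucc i))
          (v m (Fin.castSucc (i + 1))))
      have h2 := fun i : Fin 5 => germ_bpt hGerm W U uΛ μΛ (fun m => tM uΛ (algebraMap L Λ m))
        (fun m => v m (Fin.castSucc i)) (fun m => v m (Fin.castSucc (i + 1)))
      refine Eq.trans (((hGerm K Λ L W U).2.1 _ _).mpr ?_)
        (h1.trans (Finset.sum_congr rfl fun i _ => h2 i))
      filter_upwards [hc] with m hm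
      rw [hmapQ, hm.2, map_tM]
    obtain ⟨R, hRR⟩ := hfinish _ e2 (Ultra.algOver_sum W hAlg _ _ _ fun i _ =>
      algOver_bpt W _ _ ms vs halgu halgμ hrts _ _)
    exact geo2 h5 R hRR

end Core

end ShortAux

open ShortAux in
theorem stShort (hGeo : StGeo) (hTrap : StTrap) (hUltra : StUltra) (hGerm : StGerm)
    (hAlg : StAlg) (hGood : StGood) : StShort := by
  intro K _ _ W _ _ hA5
  have hcΛ : CharZero (AlgebraicClosure K) :=
    charZero_of_injective_algebraMap (algebraMap K (AlgebraicClosure K)).injective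
  have hdisc : 4 * algebraMap K (AlgebraicClosure K) W.a₄ ^ 3
      + 27 * algebraMap K (AlgebraicClosure K) W.a₆ ^ 2 ≠ 0 := by
    have h1 : W.Δ ≠ 0 := W.isUnit_Δ.ne_zero
    rw [W.Δ_of_isShortNF] at h1
    have h2 := (_root_.map_ne_zero (algebraMap K (AlgebraicClosure K))).mpr
      (right_ne_zero_of_mul h1)
    simpa only [map_add, map_mul, map_pow, map_ofNat] using h2
  obtain ⟨u, μ, hu, hμ, ha, hb⟩ := hGood (AlgebraicClosure K) _ _ hdisc
  obtain ⟨u₂, u₃, hu₂, hu₃, hν₂, hν₃, ht⟩ := exists_trip hu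
  obtain ⟨r, hr⟩ : ∃ r : AlgebraicClosure K, r ^ 2 = -3 :=
    IsAlgClosed.exists_pow_nat_eq (-3) two_pos
  let S : Set (AlgebraicClosure K) := {u, μ, u₂, u₃, r}
  let E : IntermediateField K (AlgebraicClosure K) := adjoin K S
  have hSfin : Finite S := by
    have : S.Finite := Set.toFinite _
    exact this
  have hEfd : FiniteDimensional K E :=
    finiteDimensional_adjoin fun x _ => Algebra.IsIntegral.isIntegral x
  let L : IntermediateField K (AlgebraicClosure K) := normalClosure K E (AlgebraicClosure K)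
  have hLfd : FiniteDimensional K L := normalClosure.is_finiteDimensional K E _
  have hLn : Normal K L := normalClosure.normal K E _
  have hLg : IsGalois K L := { }
  have hEL : E ≤ L := le_normalClosure E
  have hSL : ∀ x ∈ S, x ∈ L := fun x hx => hEL (subset_adjoin K S hx)
  have mu' : u ∈ L := hSL _ (by simp [S])
  have mμ : μ ∈ L := hSL _ (by simp [S])
  have mu2 : u₂ ∈ L := hSL _ (by simp [S])
  have mu3 : u₃ ∈ L := hSL _ (by simp [S])
  have mr : r ∈ L := hSL _ (by simp [S])
  have hcL : CharZero L := charZero_of_injective_algebraMap (algebraMap K L).injective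
  have hinj : Function.Injective (algebraMap L (AlgebraicClosure K)) :=
    (algebraMap L (AlgebraicClosure K)).injective
  have hinf : Infinite (Pt W K) := by
    refine core hGeo hTrap hUltra hGerm hAlg K L (AlgebraicClosure K) W ⟨u, mu'⟩ ⟨u₂, mu2⟩
      ⟨u₃, mu3⟩ ⟨μ, mμ⟩ ⟨r, mr⟩ (hA5 L) ?_ ?_ ?_ ?_ ?_ ?_ ?_ ?_ ?_ ?_
    · exact ⟨fun h => hu.u0 (congrArg Subtype.val h), fun h => hu.u1 (congrArg Subtype.val h),
        fun h => hu.u2 (congrArg Subtype.val h), fun h => hu.q1 (congrArg Subtype.val h),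
        fun h => hu.q2 (congrArg Subtype.val h), fun h => hu.q3 (congrArg Subtype.val h)⟩
    · exact fun h => hμ (congrArg Subtype.val h)
    · apply hinj
      rw [map_cA]
      exact ha
    · apply hinj
      rw [map_cB]
      exact hb
    · exact fun h => hu₂ (congrArg Subtype.val h)
    · exact fun h => hu₃ (congrArg Subtype.val h)
    · apply hinj
      rw [map_nu, map_nu]
      exact hν₂
    · apply hinj
      rw [map_nu, map_nu]
      exact hν₃
    · refine ⟨?_, ?_, ?_⟩
      · apply hinj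
        simp only [map_add, map_div₀, map_ofNat]
        exact ht.h1
      · apply hinj
        simp only [map_add, map_mul, map_neg, map_ofNat, map_nu]
        exact ht.h2
      · apply hinj
        simp only [map_mul, map_div₀, map_neg, map_one, map_ofNat]
        exact ht.h3
    · apply hinj
      simp only [map_pow, map_neg, map_ofNat]
      exact hr
  exact hinf

end Pool.MP_bfb583_al.EC
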